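import Pool.Agent.H994.BM.Stm

/-!
A crossing configuration is stable and prevents injectivity.
-/

set_option autoImplicit false

open MeasureTheory ProbabilityTheory Filter Topology
open scoped NNReal ENNReal unitInterval

namespace Pool.Agent.H994.BM

open Pool.Agent.H986.EV (ev splice ev_cont ev_of_mem ev_sub_le crossing)

namespace Clo

theorem margin {f : ℝ → ℝ} (hf : Continuous f) {u v : ℝ} (h : ∀ t ∈ Set.Icc u v, 0 < f t) :
    ∃ δ : ℝ, 0 < δ ∧ ∀ t ∈ Set.Icc u v, δ ≤ f t := by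
  rcases (Set.Icc u v).eq_empty_or_nonempty with he | hne
  · refine ⟨1, one_pos, fun t ht => ?_⟩
    rw [he] at ht
    exact absurd ht (Set.notMem_empty t)
  · obtain ⟨x, hx, hmin⟩ := isCompact_Icc.exists_isMinOn hne hf.continuousOn
    exact ⟨f x, h x hx, fun t ht => hmin ht⟩

end Clo

open Clo in
theorem t_closure : S_closure := by
  intro ζ hcr hcl
  obtain ⟨a, b, c, d, ha, hab, hbc, hcd, hd, h1, h2, h3, h4⟩ := hcr
  have hre : Continuous fun t => (ev ζ t).re := Complex.continuous_re.comp (ev_cont ζ)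
  have him : Continuous fun t => (ev ζ t).im := Complex.continuous_im.comp (ev_cont ζ)
  obtain ⟨δ₁, p1, m1⟩ := margin (f := fun t => (ev ζ t).re - (ev ζ a).re)
    (hre.sub continuous_const) (u := c) (v := d) fun t ht => sub_pos.2 (h1 t ht)
  obtain ⟨δ₂, p2, m2⟩ := margin (f := fun t => (ev ζ b).re - (ev ζ t).re)
    (continuous_const.sub hre) (u := c) (v := d) fun t ht => sub_pos.2 (h2 t ht)
  obtain ⟨δ₃, p3, m3⟩ := margin (f := fun s => (ev ζ c).im - (ev ζ s).im)
    (continuous_const.sub him) (u := a) (v := b) fun t ht => sub_pos.2 (h3 t ht)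
  obtain ⟨δ₄, p4, m4⟩ := margin (f := fun s => (ev ζ s).im - (ev ζ d).im)
    (him.sub continuous_const) (u := a) (v := b) fun t ht => sub_pos.2 (h4 t ht)
  obtain ⟨ε, hε, e1, e2, e3, e4⟩ : ∃ ε : ℝ, 0 < ε ∧ 2 * ε ≤ δ₁ ∧ 2 * ε ≤ δ₂ ∧ 2 * ε ≤ δ₃ ∧
      2 * ε ≤ δ₄ := by
    refine ⟨min (min δ₁ δ₂) (min δ₃ δ₄) / 2, by positivity, ?_, ?_, ?_, ?_⟩
    · have := (min_le_left (min δ₁ δ₂) (min δ₃ δ₄)).trans (min_le_left _ _)
      linarith
    · have := (min_le_left (min δ₁ δ₂) (min δ₃ δ₄)).trans (min_le_right _ _)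
      linarith
    · have := (min_le_right (min δ₁ δ₂) (min δ₃ δ₄)).trans (min_le_left _ _)
      linarith
    · have := (min_le_right (min δ₁ δ₂) (min δ₃ δ₄)).trans (min_le_right _ _)
      linarith
  obtain ⟨ξ, hinj, hξ⟩ := Metric.mem_closure_iff.1 hcl ε hε
  rw [dist_eq_norm] at hξ
  have r : ∀ x, |(ev ζ x).re - (ev ξ x).re| < ε := by
    intro x
    rw [← Complex.sub_re]
    exact lt_of_le_of_lt ((Complex.abs_re_le_norm _).trans (ev_sub_le ζ ξ x)) hξ
  have i : ∀ x, |(ev ζ x).im - (ev ξ x).im| < ε := by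
    intro x
    rw [← Complex.sub_im]
    exact lt_of_le_of_lt ((Complex.abs_im_le_norm _).trans (ev_sub_le ζ ξ x)) hξ
  obtain ⟨s, hs, t, ht, hst⟩ := crossing (ev ξ) (ev_cont ξ) a b c d hab hcd
    (fun t ht => by
      have k1 := abs_lt.1 (r a)
      have k2 := abs_lt.1 (r t)
      have k3 := m1 t ht
      linarith [k1.1, k1.2, k2.1, k2.2])
    (fun t ht => by
      have k1 := abs_lt.1 (r b)
      have k2 := abs_lt.1 (r t)
      have k3 := m2 t ht
      linarith [k1.1, k1.2, k2.1, k2.2])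
    (fun s hs => by
      have k1 := abs_lt.1 (i c)
      have k2 := abs_lt.1 (i s)
      have k3 := m3 s hs
      linarith [k1.1, k1.2, k2.1, k2.2])
    (fun s hs => by
      have k1 := abs_lt.1 (i d)
      have k2 := abs_lt.1 (i s)
      have k3 := m4 s hs
      linarith [k1.1, k1.2, k2.1, k2.2])
  have hs01 : s ∈ Set.Icc (0 : ℝ) 1 := ⟨ha.trans hs.1, by linarith [hs.2]⟩
  have ht01 : t ∈ Set.Icc (0 : ℝ) 1 := ⟨by linarith [ht.1], ht.2.trans hd⟩
  rw [ev_of_mem ξ hs01, ev_of_mem ξ ht01] at hst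
  have h5 := congrArg Subtype.val (hinj hst)
  simp only at h5
  linarith [hs.2, ht.1]

end Pool.Agent.H994.BM
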