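import Pool.Agent.H994.BM.Stm

set_option autoImplicit false

open Pool.Agent.H986.EV

namespace Pool.Agent.H994.BM

/-- the proof is the one of `Pool.Agent.H986.EV.core` (helper986), with a stronger conclusion -/
theorem t_core : S_core := by
  intro S hS0 hrot hconj hspl η hη hne
  classical
  have hE0 : ∀ γ ∈ S, ev γ 0 = 0 := by
    intro γ hγ
    rw [ev_of_mem γ (by simp)]
    exact hS0 γ hγ
  have hspl' : ∀ τ ∈ Set.Ico (0 : ℝ) 1, ∀ γ ∈ S, ∀ γ' ∈ S, splice τ γ γ' ∈ S := by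
    intro τ hτ γ hγ γ' hγ'
    rcases eq_or_lt_of_le hτ.1 with h | h
    · have : splice τ γ γ' = γ' := by
        ext s
        change ev γ (min s τ) + (ev γ' (max s τ) - ev γ' τ) = γ' s
        rw [← h, min_eq_right s.2.1, max_eq_left s.2.1, hE0 γ hγ, hE0 γ' hγ', ev_coe]
        simp
      rw [this]
      exact hγ'
    · exact hspl τ ⟨h, hτ.2⟩ γ hγ γ' hγ'
  obtain ⟨t, ht⟩ : ∃ t, η t ≠ 0 := by
    by_contra hc
    push Not at hc
    exact hne (ContinuousMap.ext hc)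
  set A : ℝ := sn (η t) with hA
  have hApos : 0 < A := sn_pos ht
  set l : ℝ := A / 10 with hl
  set ρ : ℝ := l / 100 with hρ
  have hlpos : 0 < l := by rw [hl]; linarith
  have hρpos : 0 < ρ := by rw [hρ]; linarith
  -- uniform continuity
  have huc : UniformContinuous η := CompactSpace.uniformContinuous_of_continuous η.continuous
  obtain ⟨δ, hδ, hδ2⟩ := Metric.uniformContinuous_iff.1 huc ρ hρpos
  obtain ⟨m', hm'⟩ := exists_nat_one_div_lt hδ
  set m : ℕ := m' + 1 with hm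
  have hm1 : 1 ≤ m := by omega
  have hm0 : (0 : ℝ) < m := by exact_mod_cast hm1
  have hmδ : 1 / (m : ℝ) < δ := by rw [hm]; push_cast; exact hm'
  have hclose : ∀ x ∈ Set.Icc (0 : ℝ) 1, ∀ y ∈ Set.Icc (0 : ℝ) 1, |x - y| ≤ 1 / m →
      ‖ev η x - ev η y‖ ≤ ρ := by
    intro x hx y hy hxy
    rw [ev_of_mem η hx, ev_of_mem η hy, ← dist_eq_norm]
    apply le_of_lt
    apply hδ2
    rw [Subtype.dist_eq, Real.dist_eq]
    exact lt_of_le_of_lt hxy hmδ
  have hmono : ∀ i j : ℕ, i ≤ j → (i : ℝ) / m ≤ (j : ℝ) / m := fun i j hij =>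
    div_le_div_of_nonneg_right (by exact_mod_cast hij) hm0.le
  have hmem : ∀ j ≤ m, ((j : ℕ) : ℝ) / m ∈ Set.Icc (0 : ℝ) 1 := fun j hj =>
    ⟨by positivity, by rw [div_le_one hm0]; exact_mod_cast hj⟩
  have hstep : ∀ i : ℕ, ((i + 1 : ℕ) : ℝ) / m = i / m + 1 / m := by
    intro i
    push_cast
    ring
  have hmod : ∀ i < m, ∀ s ∈ Set.Icc (i / (m : ℝ)) ((i + 1 : ℕ) / (m : ℝ)),
      ‖ev η s - ev η (i / (m : ℝ))‖ ≤ ρ := by
    intro i hi s hs
    refine hclose s ⟨(hmem i hi.le).1.trans hs.1, hs.2.trans (hmem (i + 1) hi).2⟩ _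
      (hmem i hi.le) ?_
    have := hs.2
    rw [hstep] at this
    rw [abs_of_nonneg (by linarith [hs.1])]
    linarith
  -- the lengths of the pieces
  let a : ℕ → ℝ := fun i => sn (dd η m i)
  have ha0 : ∀ i, 0 ≤ a i := fun i => sn_nonneg _
  have har : ∀ i < m, a i ≤ ρ := fun i hi =>
    (sn_le_norm _).trans (hmod i hi _ ⟨hmono _ _ (by omega), le_rfl⟩)
  let B : ℕ → ℝ := fun k => ∑ i ∈ Finset.range k, a i
  have hB0 : B 0 = 0 := by simp [B]
  have hBs : ∀ k, B (k + 1) = B k + a k := fun k => Finset.sum_range_succ _ _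
  have hBm : Monotone B := monotone_nat_of_le_succ fun k => by
    rw [hBs]
    linarith [ha0 k]
  have hBη : ∀ k : ℕ, sn (ev η (k / (m : ℝ))) ≤ B k := by
    intro k
    induction k with
    | zero =>
      have : ev η ((0 : ℕ) / (m : ℝ)) = 0 := by simp [hE0 η hη]
      rw [this, hB0]
      simp [sn]
    | succ k ih =>
      rw [hBs]
      have : ev η ((k + 1 : ℕ) / (m : ℝ)) = ev η (k / (m : ℝ)) + dd η m k := by
        unfold dd
        ring
      rw [this]
      exact (sn_add _ _).trans (add_le_add ih le_rfl)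
  have hBend : 5 * l ≤ B m := by
    have ht0 : (0 : ℝ) ≤ t := t.2.1
    have ht1 : (t : ℝ) ≤ 1 := t.2.2
    have h1 : (⌊(t : ℝ) * m⌋₊ : ℝ) ≤ t * m := Nat.floor_le (by positivity)
    have h2 : (t : ℝ) * m < ⌊(t : ℝ) * m⌋₊ + 1 := Nat.lt_floor_add_one _
    have h3 : ⌊(t : ℝ) * m⌋₊ ≤ m := by
      have : (⌊(t : ℝ) * m⌋₊ : ℝ) ≤ m := h1.trans (by nlinarith)
      exact_mod_cast this
    have h4 : |(t : ℝ) - (⌊(t : ℝ) * m⌋₊ : ℝ) / m| ≤ 1 / m := by
      rw [abs_of_nonneg]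
      · rw [sub_le_iff_le_add, ← add_div, le_div_iff₀ hm0]
        linarith
      · rw [sub_nonneg, div_le_iff₀ hm0]
        exact h1
    have h5 := hclose t t.2 _ (hmem _ h3) h4
    have h6 : A ≤ sn (ev η ((⌊(t : ℝ) * m⌋₊ : ℕ) / (m : ℝ))) + ρ := by
      have e : η t = ev η ((⌊(t : ℝ) * m⌋₊ : ℕ) / (m : ℝ)) +
          (ev η t - ev η ((⌊(t : ℝ) * m⌋₊ : ℕ) / (m : ℝ))) := by
        rw [ev_coe]
        ring
      rw [hA, e]
      exact (sn_add _ _).trans (add_le_add le_rfl ((sn_le_norm _).trans h5))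
    have h7 := (hBη ⌊(t : ℝ) * m⌋₊).trans (hBm h3)
    have : A = 10 * l := by rw [hl]; ring
    have : l = 100 * ρ := by rw [hρ]; ring
    linarith
  -- the directions
  let h : ℕ → ℕ := fun i =>
    if B i < l then 0 else if B i < 2 * l then 1 else if B i < 5 / 2 * l then 2 else 3
  have hh : ∀ i, h i = 0 ∨ h i = 1 ∨ h i = 2 ∨ h i = 3 := by
    intro i
    simp only [h]
    split_ifs <;> simp
  have hpoly : ∀ k, (poly η m h k).re = tr a l k + tr a (2 * l) k - tr a (5 / 2 * l) k ∧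
      (poly η m h k).im = tr a (2 * l) k - tr a l k - B k + tr a (5 / 2 * l) k := by
    intro k
    induction k with
    | zero => simp [poly, tr, B]
    | succ k ih =>
      have e : ∀ x, tr a x (k + 1) = tr a x k + if B k < x then a k else 0 := fun x => by
        unfold tr
        rw [Finset.sum_range_succ]
      have e' : poly η m h (k + 1) = poly η m h k + Complex.I ^ h k * (a k : ℝ) := by
        unfold poly
        rw [Finset.sum_range_succ]
      rw [e, e, e, e', hBs, Complex.add_re, Complex.add_im, ih.1, ih.2]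
      simp only [h]
      rcases lt_or_ge (B k) l with h1 | h1
      · have h2 : B k < 2 * l := by linarith
        have h3 : B k < 5 / 2 * l := by linarith
        simp only [h1, h2, h3, if_true, pow_zero, one_mul, Complex.ofReal_re, Complex.ofReal_im]
        constructor <;> ring
      rcases lt_or_ge (B k) (2 * l) with h2 | h2
      · have h3 : B k < 5 / 2 * l := by linarith
        simp only [not_lt.2 h1, h2, h3, if_true, if_false, pow_one]
        constructor <;> simp <;> ring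
      rcases lt_or_ge (B k) (5 / 2 * l) with h3 | h3
      · simp only [not_lt.2 h1, not_lt.2 h2, h3, if_true, if_false]
        constructor <;> simp <;> ring
      · simp only [not_lt.2 h1, not_lt.2 h2, not_lt.2 h3, if_false]
        constructor <;> simp [pow_succ] <;> ring
  -- the times
  have ex1 : ∃ k, l ≤ B k := ⟨m, by linarith⟩
  have ex3 : ∃ k, 5 / 2 * l ≤ B k := ⟨m, by linarith⟩
  obtain ⟨k₁, hk1, hk1'⟩ : ∃ k₁, l ≤ B k₁ ∧ ∀ i < k₁, B i < l :=
    ⟨Nat.find ex1, Nat.find_spec ex1, fun i hi => not_le.1 (Nat.find_min ex1 hi)⟩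
  obtain ⟨k₃, hk3, hk3'⟩ : ∃ k₃, 5 / 2 * l ≤ B k₃ ∧ ∀ i < k₃, B i < 5 / 2 * l :=
    ⟨Nat.find ex3, Nat.find_spec ex3, fun i hi => not_le.1 (Nat.find_min ex3 hi)⟩
  have hk1m : k₁ < m := by
    by_contra hc
    rcases Nat.lt_or_ge m k₁ with h1 | h1
    · have := hk1' m h1
      linarith
    · obtain rfl : k₁ = m := by omega
      have h2 := hk1' m' (by omega)
      have h3 := har m' (by omega)
      have h4 : B m = B m' + a m' := hBs m'
      linarith
  have hk3m : k₃ < m := by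
    by_contra hc
    rcases Nat.lt_or_ge m k₃ with h1 | h1
    · have := hk3' m h1
      linarith
    · obtain rfl : k₃ = m := by omega
      have h2 := hk3' m' (by omega)
      have h3 := har m' (by omega)
      have h4 : B m = B m' + a m' := hBs m'
      linarith
  have hB1 : B k₁ ≤ l + ρ := by
    rcases k₁ with _ | k
    · rw [hB0]; linarith
    · rw [hBs]
      have := hk1' k (by omega)
      have := har k (by omega)
      linarith
  have hB3 : B k₃ ≤ 5 / 2 * l + ρ := by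
    rcases k₃ with _ | k
    · rw [hB0]; linarith
    · rw [hBs]
      have := hk3' k (by omega)
      have := har k (by omega)
      linarith
  have hk13 : k₁ < k₃ := by
    by_contra hc
    have := hBm (not_lt.1 hc)
    linarith
  obtain ⟨Z, hZ, hZ1, hZ2⟩ := build hrot hconj hspl' hη (hE0 η hη) hm1 hρpos.le hmod h hh m le_rfl
  refine ⟨Z, hZ, ρ, hρpos, ?_⟩
  intro ξ hξ
  have hpt : ∀ x, |(ev ξ x - ev Z x).re| ≤ ρ ∧ |(ev ξ x - ev Z x).im| ≤ ρ := fun x =>
    ⟨(Complex.abs_re_le_norm _).trans ((ev_sub_le _ _ _).trans hξ.le),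
      (Complex.abs_im_le_norm _).trans ((ev_sub_le _ _ _).trans hξ.le)⟩
  have hgrid : ∀ j ≤ m, |(ev ξ (j / (m : ℝ))).re - (poly η m h j).re| ≤ 2 * ρ ∧
      |(ev ξ (j / (m : ℝ))).im - (poly η m h j).im| ≤ 2 * ρ := by
    intro j hj
    have h1 := hpt (j / (m : ℝ))
    have h2 := hZ1 j hj
    simp only [Complex.sub_re, Complex.sub_im, abs_le] at h1 h2 ⊢
    refine ⟨⟨?_, ?_⟩, ⟨?_, ?_⟩⟩ <;> linarith [h1.1.1, h1.1.2, h1.2.1, h1.2.2, h2.1.1, h2.1.2,
      h2.2.1, h2.2.2]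
  have hblock : ∀ i < m, ∀ x ∈ Set.Icc (i / (m : ℝ)) ((i + 1 : ℕ) / (m : ℝ)),
      |(ev ξ x).re - (poly η m h i).re| ≤ 3 * ρ ∧ |(ev ξ x).im - (poly η m h i).im| ≤ 3 * ρ := by
    intro i hi x hx
    have h1 := hpt x
    have h2 := hZ1 i hi.le
    have h3 := (Complex.abs_re_le_norm _).trans (hZ2 i hi x hx)
    have h4 := (Complex.abs_im_le_norm _).trans (hZ2 i hi x hx)
    simp only [Complex.sub_re, Complex.sub_im, abs_le] at h1 h2 h3 h4 ⊢
    refine ⟨⟨?_, ?_⟩, ⟨?_, ?_⟩⟩ <;> linarith [h1.1.1, h1.1.2, h1.2.1, h1.2.2, h2.1.1, h2.1.2,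
      h2.2.1, h2.2.2, h3.1, h3.2, h4.1, h4.2]
  have hl100 : l = 100 * ρ := by rw [hρ]; ring
  have T1 : ∀ k ≤ m, _ := fun k hk => tr_spec ha0 har hlpos k hk
  have T2 : ∀ k ≤ m, _ := fun k hk => tr_spec ha0 har (x := 2 * l) (by linarith) k hk
  have T3 : ∀ k ≤ m, _ := fun k hk => tr_spec ha0 har (x := 5 / 2 * l) (by linarith) k hk
  -- the first leg
  have leg1 : ∀ s ∈ Set.Icc (0 : ℝ) (k₁ / (m : ℝ)), |(ev ξ s).im| ≤ 3 * ρ := by
    intro s hs
    have hk1pos : 0 < k₁ := by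
      rcases Nat.eq_zero_or_pos k₁ with h1 | h1
      · rw [h1, hB0] at hk1
        linarith
      · exact h1
    obtain ⟨i, -, hi, hi'⟩ := find_block (m := m) (x := s) 0 k₁ hk1pos (by simpa using hs.1) hs.2
    have h1 := (hblock i (by omega) s hi').2
    have h2 : (poly η m h i).im = 0 := by
      rw [(hpoly i).2]
      have hBi := hk1' i hi
      have e1 : tr a l i = B i := (T1 i (by omega)).1 hBi
      have e2 : tr a (2 * l) i = B i :=
        (T2 i (by omega)).1 (show B i < 2 * l by linarith)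
      have e3 : tr a (5 / 2 * l) i = B i :=
        (T3 i (by omega)).1 (show B i < 5 / 2 * l by linarith)
      rw [e1, e2, e3]
      ring
    rwa [h2, sub_zero] at h1
  -- the last leg
  have leg4 : ∀ x ∈ Set.Icc (k₃ / (m : ℝ)) 1, l / 2 - 4 * ρ ≤ (ev ξ x).re ∧
      (ev ξ x).re ≤ l / 2 + 5 * ρ := by
    intro x hx
    have hx1 : x ≤ (m : ℝ) / m := by rw [div_self hm0.ne']; exact hx.2
    obtain ⟨i, hi1, hi, hi'⟩ := find_block (m := m) (x := x) k₃ m hk3m hx.1 hx1
    have h1 := (hblock i hi x hi').1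
    rw [(hpoly i).1, abs_le] at h1
    have hBi : 5 / 2 * l ≤ B i := hk3.trans (hBm hi1)
    have e1 := (T1 i hi.le).2 (show l ≤ B i by linarith)
    have e2 := (T2 i hi.le).2 (show 2 * l ≤ B i by linarith)
    have e3 := (T3 i hi.le).2 hBi
    constructor <;> linarith [h1.1, h1.2, e1.1, e1.2, e2.1, e2.2, e3.1, e3.2]
  have pt0 : (ev ξ 0).re ≤ 2 * ρ := by
    have h1 := (hgrid 0 (by omega)).1
    have : (poly η m h 0).re = 0 := by simp [poly]
    rw [this, abs_le] at h1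
    simp only [Nat.cast_zero, zero_div] at h1
    linarith [h1.2]
  have pt1 : l - 2 * ρ ≤ (ev ξ (k₁ / (m : ℝ))).re := by
    have h1 := (hgrid k₁ hk1m.le).1
    rw [(hpoly k₁).1, abs_le] at h1
    have e1 := (T1 k₁ hk1m.le).2 hk1
    have e2 : tr a (2 * l) k₁ = B k₁ := (T2 k₁ hk1m.le).1 (show B k₁ < 2 * l by linarith)
    have e3 : tr a (5 / 2 * l) k₁ = B k₁ := (T3 k₁ hk1m.le).1 (show B k₁ < 5 / 2 * l by linarith)
    linarith [h1.1, e1.1]
  have pt3 : l - 4 * ρ ≤ (ev ξ (k₃ / (m : ℝ))).im := by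
    have h1 := (hgrid k₃ hk3m.le).2
    rw [(hpoly k₃).2, abs_le] at h1
    have e1 := (T1 k₃ hk3m.le).2 (show l ≤ B k₃ by linarith)
    have e2 := (T2 k₃ hk3m.le).2 (show 2 * l ≤ B k₃ by linarith)
    have e3 := (T3 k₃ hk3m.le).2 hk3
    linarith [h1.1, e1.2, e2.1, e3.1]
  have pt4 : (ev ξ 1).im ≤ -l := by
    have h1 := (hgrid m le_rfl).2
    rw [(hpoly m).2, abs_le, div_self hm0.ne'] at h1
    have e1 := (T1 m le_rfl).2 (show l ≤ B m by linarith)
    have e2 := (T2 m le_rfl).2 (show 2 * l ≤ B m by linarith)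
    have e3 := (T3 m le_rfl).2 (show 5 / 2 * l ≤ B m by linarith)
    linarith [h1.2, e1.1, e2.2, e3.2]
  refine ⟨0, (k₁ : ℝ) / m, (k₃ : ℝ) / m, 1, le_rfl, (hmem k₁ hk1m.le).1, ?_,
    (hmem k₃ hk3m.le).2, le_rfl,
    (fun x hx => by linarith [(leg4 x hx).1]), (fun x hx => by linarith [(leg4 x hx).2]),
    (fun s hs => by linarith [(abs_le.1 (leg1 s hs)).2]),
    (fun s hs => by linarith [(abs_le.1 (leg1 s hs)).1])⟩
  rw [div_lt_div_iff_of_pos_right hm0]
  exact_mod_cast hk13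

end Pool.Agent.H994.BM
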