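import Pool.Agent.H994.BM.Stm
import Mathlib

/-!
Crossing configurations with rational times, and measurability.
-/

set_option autoImplicit false

open MeasureTheory ProbabilityTheory Filter Topology
open scoped NNReal ENNReal unitInterval

namespace Pool.Agent.H994.BM

namespace CrQ

theorem cast_rr (q : ℚ≥0) : ((q : ℝ≥0) : ℝ) = (q : ℝ) := rfl

theorem toNN (q : ℚ≥0) : Real.toNNReal (q : ℝ) = (q : ℝ≥0) := by
  rw [← cast_rr, Real.toNNReal_coe]

/-- a nonnegative rational number in an interval -/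
theorem btw {x y : ℝ} (hx : 0 ≤ x) (h : x < y) : ∃ q : ℚ≥0, x < q ∧ (q : ℝ) < y := by
  obtain ⟨r, h1, h2⟩ := exists_rat_btwn h
  have h3 : (0 : ℚ) ≤ r := by
    have : (0 : ℝ) < r := lt_of_le_of_lt hx h1
    exact_mod_cast this.le
  have e : ((r.toNNRat : ℚ≥0) : ℝ) = (r : ℝ) := by
    rw [← Rat.cast_nnratCast, Rat.coe_toNNRat r h3]
  exact ⟨r.toNNRat, by rw [e]; exact h1, by rw [e]; exact h2⟩

theorem dense_le {H : ℝ → ℝ} (hH : Continuous H) {c d : ℚ≥0} {K : ℝ}
    (h : ∀ t : ℚ≥0, c ≤ t → t ≤ d → K ≤ H t) (hcd : c ≤ d) : ∀ t ∈ Set.Icc (c : ℝ) d, K ≤ H t := by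
  intro t ht
  by_contra hcon
  rw [not_le] at hcon
  have hc0 : (0 : ℝ) ≤ c := by positivity
  -- t is not an end point
  have h1 : (c : ℝ) < t := by
    refine lt_of_le_of_ne ht.1 fun h0 => ?_
    rw [← h0] at hcon
    exact absurd (h c le_rfl hcd) (not_le.2 hcon)
  have hop : IsOpen {x : ℝ | H x < K} := isOpen_lt hH continuous_const
  obtain ⟨ε, hε, hb⟩ := Metric.isOpen_iff.1 hop t hcon
  obtain ⟨q, hq1, hq2⟩ := btw (x := max c (t - ε)) (y := t) (le_max_of_le_left hc0)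
    (max_lt h1 (by linarith))
  have hq3 : H q < K := by
    apply hb
    rw [Metric.mem_ball, Real.dist_eq, abs_lt]
    have := lt_of_le_of_lt (le_max_right (c : ℝ) (t - ε)) hq1
    constructor <;> linarith
  have hq4 : (c : ℝ) < q := lt_of_le_of_lt (le_max_left (c : ℝ) (t - ε)) hq1
  have hq5 : (q : ℝ) ≤ d := hq2.le.trans ht.2
  exact absurd (h q (by exact_mod_cast hq4.le) (by exact_mod_cast hq5)) (not_le.2 hq3)

theorem dense_ge {H : ℝ → ℝ} (hH : Continuous H) {c d : ℚ≥0} {K : ℝ}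
    (h : ∀ t : ℚ≥0, c ≤ t → t ≤ d → H t ≤ K) (hcd : c ≤ d) : ∀ t ∈ Set.Icc (c : ℝ) d, H t ≤ K := by
  intro t ht
  have := dense_le (K := -K) hH.neg (fun t h1 h2 => neg_le_neg (h t h1 h2)) hcd t ht
  exact neg_le_neg_iff.1 this

/-- rational numbers near the left end -/
theorem near_l {H : ℝ → ℝ} (hH : Continuous H) {a b : ℝ} (ha : 0 ≤ a) (hab : a < b) {δ : ℝ}
    (hδ : 0 < δ) : ∃ q : ℚ≥0, a < q ∧ (q : ℝ) < b ∧ |H q - H a| < δ := by
  obtain ⟨ε, hε, hb⟩ := Metric.continuous_iff.1 hH a δ hδ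
  obtain ⟨q, hq1, hq2⟩ := btw (x := a) (y := min b (a + ε)) ha (lt_min hab (by linarith))
  refine ⟨q, hq1, lt_of_lt_of_le hq2 (min_le_left _ _), ?_⟩
  rw [← Real.dist_eq]
  apply hb
  rw [Real.dist_eq, abs_lt]
  have := lt_of_lt_of_le hq2 (min_le_right _ _)
  constructor <;> linarith

/-- rational numbers near the right end -/
theorem near_r {H : ℝ → ℝ} (hH : Continuous H) {a b : ℝ} (ha : 0 ≤ a) (hab : a < b) {δ : ℝ}
    (hδ : 0 < δ) : ∃ q : ℚ≥0, a < q ∧ (q : ℝ) < b ∧ |H q - H b| < δ := by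
  obtain ⟨ε, hε, hb⟩ := Metric.continuous_iff.1 hH b δ hδ
  obtain ⟨q, hq1, hq2⟩ := btw (x := max a (b - ε)) (y := b) (le_max_of_le_left ha)
    (max_lt hab (by linarith))
  refine ⟨q, lt_of_le_of_lt (le_max_left _ _) hq1, hq2, ?_⟩
  rw [← Real.dist_eq]
  apply hb
  rw [Real.dist_eq, abs_lt]
  have := lt_of_le_of_lt (le_max_right _ _) hq1
  constructor <;> linarith

theorem pth_re (f g : ℝ≥0 → ℝ) (x : ℝ) : (pth f g x).re = f x.toNNReal := by
  unfold pth
  simp

theorem pth_im (f g : ℝ≥0 → ℝ) (x : ℝ) : (pth f g x).im = g x.toNNReal := by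
  unfold pth
  simp

/-- a strict inequality on a compact interval has a margin -/
theorem margin {H : ℝ → ℝ} (hH : Continuous H) {a b K : ℝ} (hab : a ≤ b)
    (h : ∀ t ∈ Set.Icc a b, K < H t) : ∃ δ : ℝ, 0 < δ ∧ ∀ t ∈ Set.Icc a b, K + δ ≤ H t := by
  obtain ⟨t0, ht0, hmin⟩ := isCompact_Icc.exists_isMinOn (Set.nonempty_Icc.2 hab)
    (hH.continuousOn (s := Set.Icc a b))
  refine ⟨H t0 - K, by linarith [h t0 ht0], fun t ht => ?_⟩
  have := hmin ht
  have e : H t0 ≤ H t := this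
  linarith

theorem margin' {H : ℝ → ℝ} (hH : Continuous H) {a b K : ℝ} (hab : a ≤ b)
    (h : ∀ t ∈ Set.Icc a b, H t < K) : ∃ δ : ℝ, 0 < δ ∧ ∀ t ∈ Set.Icc a b, H t + δ ≤ K := by
  obtain ⟨δ, h1, h2⟩ := margin (K := -K) hH.neg hab fun t ht => neg_lt_neg (h t ht)
  refine ⟨δ, h1, fun t ht => ?_⟩
  have e : -K + δ ≤ -H t := h2 t ht
  linarith

end CrQ

open CrQ in
theorem t_crQ : S_crQ := by
  intro f g hf hg u v
  have hF : Continuous fun x : ℝ => f x.toNNReal := hf.comp continuous_real_toNNReal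
  have hG : Continuous fun x : ℝ => g x.toNNReal := hg.comp continuous_real_toNNReal
  constructor
  · rintro ⟨a, b, c, d, δ, hδ, hua, hab, hbc, hcd, hdv, h1, h2⟩
    have hδ' : (0 : ℝ) < δ := by exact_mod_cast hδ
    refine ⟨a, b, c, d, ?_, by exact_mod_cast hab, by exact_mod_cast hbc, by exact_mod_cast hcd,
      ?_, ?_, ?_, ?_, ?_⟩
    · rw [← cast_rr]
      exact_mod_cast hua
    · rw [← cast_rr]
      exact_mod_cast hdv
    · intro t ht
      rw [pth_re, pth_re, toNN]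
      have := dense_le (K := f a + δ) hF (fun t h3 h4 => by
        rw [toNN]
        exact (h1 t h3 h4).1) hcd t ht
      linarith
    · intro t ht
      rw [pth_re, pth_re, toNN]
      have := dense_ge (K := f b - δ) hF (fun t h3 h4 => by
        rw [toNN]
        linarith [(h1 t h3 h4).2]) hcd t ht
      linarith
    · intro t ht
      rw [pth_im, pth_im, toNN]
      have := dense_ge (K := g c - δ) hG (fun t h3 h4 => by
        rw [toNN]
        linarith [(h2 t h3 h4).1]) hab t ht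
      linarith
    · intro t ht
      rw [pth_im, pth_im, toNN]
      have := dense_le (K := g d + δ) hG (fun t h3 h4 => by
        rw [toNN]
        exact (h2 t h3 h4).2) hab t ht
      linarith
  · rintro ⟨a, b, c, d, hua, hab, hbc, hcd, hdv, h1, h2, h3, h4⟩
    simp only [pth_re] at h1 h2
    simp only [pth_im] at h3 h4
    have ha0 : 0 ≤ a := u.2.trans hua
    have hab' : a < b := by
      refine lt_of_le_of_ne hab fun h0 => ?_
      have e1 := h1 c ⟨le_rfl, hcd⟩
      have e2 := h2 c ⟨le_rfl, hcd⟩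
      rw [← h0] at e2
      exact lt_asymm e1 e2
    have hcd' : c < d := by
      refine lt_of_le_of_ne hcd fun h0 => ?_
      have e1 := h3 a ⟨le_rfl, hab⟩
      have e2 := h4 a ⟨le_rfl, hab⟩
      rw [← h0] at e2
      exact lt_asymm e1 e2
    have hc0 : 0 ≤ c := by linarith
    obtain ⟨δ1, p1, q1⟩ := margin hF hcd h1
    obtain ⟨δ2, p2, q2⟩ := margin' hF hcd h2
    obtain ⟨δ3, p3, q3⟩ := margin' hG hab h3
    obtain ⟨δ4, p4, q4⟩ := margin hG hab h4
    obtain ⟨δ, hδ, hδ1⟩ : ∃ δ : ℝ, 0 < δ ∧ 2 * δ ≤ δ1 ∧ 2 * δ ≤ δ2 ∧ 2 * δ ≤ δ3 ∧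
        2 * δ ≤ δ4 := by
      refine ⟨min (min δ1 δ2) (min δ3 δ4) / 2, by positivity, ?_, ?_, ?_, ?_⟩
      · linarith [min_le_left (min δ1 δ2) (min δ3 δ4), min_le_left δ1 δ2]
      · linarith [min_le_left (min δ1 δ2) (min δ3 δ4), min_le_right δ1 δ2]
      · linarith [min_le_right (min δ1 δ2) (min δ3 δ4), min_le_left δ3 δ4]
      · linarith [min_le_right (min δ1 δ2) (min δ3 δ4), min_le_right δ3 δ4]
    obtain ⟨m1, m2, m3, m4⟩ := hδ1
    obtain ⟨a', ha1, ha2, ha3⟩ := near_l hF ha0 hab' hδ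
    obtain ⟨b', hb1, hb2, hb3⟩ := near_r hF (ha0.trans ha1.le) ha2 hδ
    obtain ⟨c', hc1, hc2, hc3⟩ := near_l hG hc0 hcd' hδ
    obtain ⟨d', hd1, hd2, hd3⟩ := near_r hG (hc0.trans hc1.le) hc2 hδ
    obtain ⟨δ', hδ'1, hδ'2⟩ := btw le_rfl hδ
    rw [toNN] at ha3 hb3 hc3 hd3
    rw [abs_lt] at ha3 hb3 hc3 hd3
    refine ⟨a', b', c', d', δ', by exact_mod_cast hδ'1, ?_, by exact_mod_cast hb1.le, ?_,
      by exact_mod_cast hd1.le, ?_, ?_, ?_⟩
    · rw [← NNReal.coe_le_coe, cast_rr]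
      linarith
    · have : (b' : ℝ) < c' := by linarith
      exact_mod_cast this
    · rw [← NNReal.coe_le_coe, cast_rr]
      linarith
    · intro t ht1 ht2
      have e1 : (c' : ℝ) ≤ t := by exact_mod_cast ht1
      have e2 : (t : ℝ) ≤ d' := by exact_mod_cast ht2
      have e3 := q1 t ⟨by linarith, by linarith⟩
      have e4 := q2 t ⟨by linarith, by linarith⟩
      rw [toNN] at e3 e4
      constructor
      · linarith [ha3.1, ha3.2]
      · linarith [hb3.1, hb3.2]
    · intro s hs1 hs2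
      have e1 : (a' : ℝ) ≤ s := by exact_mod_cast hs1
      have e2 : (s : ℝ) ≤ b' := by exact_mod_cast hs2
      have e3 := q3 s ⟨by linarith, by linarith⟩
      have e4 := q4 s ⟨by linarith, by linarith⟩
      rw [toNN] at e3 e4
      constructor
      · linarith [hc3.1, hc3.2]
      · linarith [hd3.1, hd3.2]

theorem t_meas : S_meas := by
  intro u v
  unfold CrQ
  have m1 : ∀ x : ℝ≥0, Measurable fun p : (ℝ≥0 → ℝ) × (ℝ≥0 → ℝ) => p.1 x := fun x =>
    (measurable_pi_apply x).comp measurable_fst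
  have m2 : ∀ x : ℝ≥0, Measurable fun p : (ℝ≥0 → ℝ) × (ℝ≥0 → ℝ) => p.2 x := fun x =>
    (measurable_pi_apply x).comp measurable_snd
  simp only [Set.ofPred_exists, Set.ofPred_and, Set.ofPred_forall]
  refine MeasurableSet.iUnion fun a => MeasurableSet.iUnion fun b => MeasurableSet.iUnion fun c =>
    MeasurableSet.iUnion fun d => MeasurableSet.iUnion fun δ => ?_
  refine (MeasurableSet.const _).inter ((MeasurableSet.const _).inter
    ((MeasurableSet.const _).inter ((MeasurableSet.const _).inter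
    ((MeasurableSet.const _).inter ((MeasurableSet.const _).inter (MeasurableSet.inter ?_ ?_))))))
  · refine MeasurableSet.iInter fun t => MeasurableSet.iInter fun _ => MeasurableSet.iInter fun _ =>
      MeasurableSet.inter ?_ ?_
    · exact measurableSet_le ((m1 _).add_const _) (m1 _)
    · exact measurableSet_le ((m1 _).add_const _) (m1 _)
  · refine MeasurableSet.iInter fun t => MeasurableSet.iInter fun _ => MeasurableSet.iInter fun _ =>
      MeasurableSet.inter ?_ ?_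
    · exact measurableSet_le ((m2 _).add_const _) (m2 _)
    · exact measurableSet_le ((m2 _).add_const _) (m2 _)

end Pool.Agent.H994.BM
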