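import Pool.Agent.H994.BM.Stm4

set_option autoImplicit false

open MeasureTheory Set

namespace Pool.Agent.H994.FB

namespace FA

lemma nonneg (p x : ℝ) (hx : 0 < x) : 0 ≤ (1 - Real.cos x) * x ^ (-1 - p) :=
  mul_nonneg (by linarith [Real.cos_le_one x]) (Real.rpow_nonneg hx.le _)

lemma meas (p : ℝ) : Measurable (fun x : ℝ => (1 - Real.cos x) * x ^ (-1 - p)) :=
  (measurable_const.sub Real.measurable_cos).mul (measurable_id.pow_const _)

lemma base_int (p : ℝ) (hp : 0 < p) (hp2 : p < 2) :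
    IntegrableOn (fun x : ℝ => (1 - Real.cos x) * x ^ (-1 - p)) (Ioi 0) := by
  have hsplit : Ioi (0 : ℝ) = Ioc 0 1 ∪ Ioi 1 := (Ioc_union_Ioi_eq_Ioi zero_le_one).symm
  rw [hsplit]
  refine IntegrableOn.union ?_ ?_
  · have hdom : IntegrableOn (fun x : ℝ => x ^ (1 - p)) (Ioc 0 1) := by
      have h := intervalIntegral.intervalIntegrable_rpow' (a := 0) (b := 1) (r := 1 - p) (by linarith)
      rwa [intervalIntegrable_iff_integrableOn_Ioc_of_le zero_le_one] at h
    refine Integrable.mono' hdom (meas p).aestronglyMeasurable ?_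
    refine (ae_restrict_iff' measurableSet_Ioc).2 (ae_of_all _ fun x hx => ?_)
    have hx0 : 0 < x := hx.1
    rw [Real.norm_of_nonneg (nonneg p x hx0)]
    have h1 : 1 - Real.cos x ≤ x ^ (2 : ℝ) := by
      have := Real.one_sub_sq_div_two_le_cos (x := x)
      rw [Real.rpow_two]
      nlinarith [sq_nonneg x]
    calc (1 - Real.cos x) * x ^ (-1 - p) ≤ x ^ (2 : ℝ) * x ^ (-1 - p) :=
          mul_le_mul_of_nonneg_right h1 (Real.rpow_nonneg hx0.le _)
      _ = x ^ (1 - p) := by
          rw [← Real.rpow_add hx0]; congr 1; ring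
  · have hdom : IntegrableOn (fun x : ℝ => 2 * x ^ (-1 - p)) (Ioi 1) :=
      (integrableOn_Ioi_rpow_of_lt (by linarith) zero_lt_one).const_mul 2
    refine Integrable.mono' hdom (meas p).aestronglyMeasurable ?_
    refine (ae_restrict_iff' measurableSet_Ioi).2 (ae_of_all _ fun x hx => ?_)
    have hx0 : 0 < x := lt_trans zero_lt_one hx
    rw [Real.norm_of_nonneg (nonneg p x hx0)]
    exact mul_le_mul_of_nonneg_right (by linarith [Real.neg_one_le_cos x]) (Real.rpow_nonneg hx0.le _)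

lemma base_pos (p : ℝ) (hp : 0 < p) (hp2 : p < 2) :
    0 < ∫ x in Ioi (0 : ℝ), (1 - Real.cos x) * x ^ (-1 - p) := by
  rw [setIntegral_pos_iff_support_of_nonneg_ae
    ((ae_restrict_iff' measurableSet_Ioi).2 (ae_of_all _ fun x hx => nonneg p x hx)) (base_int p hp hp2)]
  have hsub : Ioo (0 : ℝ) 1 ⊆ Function.support (fun x : ℝ => (1 - Real.cos x) * x ^ (-1 - p)) ∩ Ioi 0 := by
    intro x hx
    refine ⟨?_, hx.1⟩
    rw [Function.mem_support]
    have h1 : Real.cos x < 1 := by
      have := Real.cos_lt_cos_of_nonneg_of_le_pi le_rfl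
        (show x ≤ Real.pi by linarith [hx.2, Real.pi_gt_three]) hx.1
      rwa [Real.cos_zero] at this
    exact (mul_pos (by linarith) (Real.rpow_pos_of_pos hx.1 _)).ne'
  refine lt_of_lt_of_le ?_ (measure_mono hsub)
  rw [Real.volume_Ioo]
  simp

lemma scale (p a x : ℝ) (ha : 0 < a) (hx : 0 < x) :
    (1 - Real.cos (a * x)) * x ^ (-1 - p) =
      a ^ (1 + p) * ((1 - Real.cos (a * x)) * (a * x) ^ (-1 - p)) := by
  rw [Real.mul_rpow ha.le hx.le]
  have h : a ^ (1 + p) * a ^ (-1 - p) = 1 := by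
    rw [← Real.rpow_add ha]
    have : 1 + p + (-1 - p) = 0 := by ring
    rw [this, Real.rpow_zero]
  calc (1 - Real.cos (a * x)) * x ^ (-1 - p)
      = (a ^ (1 + p) * a ^ (-1 - p)) * ((1 - Real.cos (a * x)) * x ^ (-1 - p)) := by rw [h, one_mul]
    _ = _ := by ring

end FA

open FA in
theorem t_kint : S_kint := by
  intro p hp hp2
  refine ⟨∫ x in Ioi (0 : ℝ), (1 - Real.cos x) * x ^ (-1 - p), base_pos p hp hp2, ?_⟩
  intro u
  rcases eq_or_ne u 0 with hu | hu
  · subst hu
    have e : (fun x : ℝ => (1 - Real.cos (0 * x)) * x ^ (-1 - p)) = fun _ => 0 := by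
      funext x; simp
    rw [e]
    refine ⟨integrableOn_zero, ?_⟩
    rw [abs_zero, Real.zero_rpow hp.ne', mul_zero]
    simp
  · have ha : 0 < |u| := abs_pos.2 hu
    have hcos : ∀ x : ℝ, 0 < x → Real.cos (u * x) = Real.cos (|u| * x) := by
      intro x hx
      rw [← Real.cos_abs (u * x), abs_mul, abs_of_pos hx]
    have heq : EqOn (fun x : ℝ => (1 - Real.cos (u * x)) * x ^ (-1 - p))
        (fun x : ℝ => |u| ^ (1 + p) * (fun y : ℝ => (1 - Real.cos y) * y ^ (-1 - p)) (|u| * x)) (Ioi 0) := by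
      intro x hx
      change (1 - Real.cos (u * x)) * x ^ (-1 - p) =
        |u| ^ (1 + p) * ((1 - Real.cos (|u| * x)) * (|u| * x) ^ (-1 - p))
      rw [hcos x hx, ← scale p |u| x ha hx]
    refine ⟨?_, ?_⟩
    · rw [integrableOn_congr_fun heq measurableSet_Ioi]
      refine Integrable.const_mul ?_ _
      have h := (integrableOn_Ioi_comp_mul_left_iff
        (fun y : ℝ => (1 - Real.cos y) * y ^ (-1 - p)) 0 ha).2
      rw [mul_zero] at h
      exact h (base_int p hp hp2)
    · rw [setIntegral_congr_fun measurableSet_Ioi heq, integral_const_mul,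
        integral_comp_mul_left_Ioi (fun y : ℝ => (1 - Real.cos y) * y ^ (-1 - p)) 0 ha, mul_zero,
        smul_eq_mul]
      have h : |u| ^ (1 + p) = |u| * |u| ^ p := by
        rw [Real.rpow_add ha, Real.rpow_one]
      rw [h]
      field_simp

end Pool.Agent.H994.FB
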