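import Pool.Agent.H994.BM.Stm4

/-!
Strict conditional negative definiteness of `|t - s| ^ p` from the integral representation
(MP_46f0ca_pr, part FC, helper124).
-/

set_option autoImplicit false

open MeasureTheory

namespace Pool.Agent.H994.FB

namespace FC

/-- the squared absolute value of the trigonometric polynomial -/
noncomputable def F {n : ℕ} (t c : Fin n → ℝ) (x : ℝ) : ℝ :=
  (∑ j, c j * Real.cos (t j * x)) ^ 2 + (∑ j, c j * Real.sin (t j * x)) ^ 2

theorem F_nonneg {n : ℕ} (t c : Fin n → ℝ) (x : ℝ) : 0 ≤ F t c x := by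
  unfold F
  positivity

theorem F_cont {n : ℕ} (t c : Fin n → ℝ) : Continuous (F t c) := by
  unfold F
  fun_prop

theorem F_eq {n : ℕ} (t c : Fin n → ℝ) (hc : ∑ i, c i = 0) (x : ℝ) :
    F t c x = - ∑ i, ∑ j, c i * c j * (1 - Real.cos ((t i - t j) * x)) := by
  have h1 : F t c x = ∑ i, ∑ j, c i * c j * Real.cos ((t i - t j) * x) := by
    unfold F
    rw [sq, sq, Finset.sum_mul_sum, Finset.sum_mul_sum, ← Finset.sum_add_distrib]
    refine Finset.sum_congr rfl fun i _ => ?_
    rw [← Finset.sum_add_distrib]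
    refine Finset.sum_congr rfl fun j _ => ?_
    rw [sub_mul, Real.cos_sub]
    ring
  have h2 : ∑ i, ∑ j, c i * c j = 0 := by
    rw [← Finset.sum_mul_sum, hc, zero_mul]
  have h3 : ∑ i, ∑ j, c i * c j * (1 - Real.cos ((t i - t j) * x)) =
      ∑ i, ∑ j, c i * c j - ∑ i, ∑ j, c i * c j * Real.cos ((t i - t j) * x) := by
    rw [← Finset.sum_sub_distrib]
    refine Finset.sum_congr rfl fun i _ => ?_
    rw [← Finset.sum_sub_distrib]
    refine Finset.sum_congr rfl fun j _ => ?_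
    ring
  rw [h3, h2, h1]
  ring

end FC

theorem t_cnd (h1 : S_kint) (h2 : S_trig) : S_cnd := by
  intro n t c p hp0 hp2 ht hc hsum
  obtain ⟨C, hC, hk⟩ := h1 p hp0 hp2
  obtain ⟨x₀, hx₀, hF₀⟩ := h2 n t c ht hc
  have hid : ∀ x : ℝ, FC.F t c x * x ^ (-1 - p) = - ∑ i, ∑ j, c i * c j *
      ((1 - Real.cos ((t i - t j) * x)) * x ^ (-1 - p)) := by
    intro x
    rw [FC.F_eq t c hsum x, neg_mul, Finset.sum_mul]
    congr 1
    refine Finset.sum_congr rfl fun i _ => ?_
    rw [Finset.sum_mul]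
    refine Finset.sum_congr rfl fun j _ => ?_
    ring
  have hi2 : ∀ i j : Fin n, IntegrableOn (fun x : ℝ => c i * c j *
      ((1 - Real.cos ((t i - t j) * x)) * x ^ (-1 - p))) (Set.Ioi 0) := fun i j =>
    Integrable.const_mul (hk (t i - t j)).1 _
  have hi1 : ∀ i : Fin n, IntegrableOn (fun x : ℝ => ∑ j, c i * c j *
      ((1 - Real.cos ((t i - t j) * x)) * x ^ (-1 - p))) (Set.Ioi 0) := fun i =>
    integrable_finset_sum _ fun j _ => hi2 i j
  have hi0 : IntegrableOn (fun x : ℝ => ∑ i, ∑ j, c i * c j *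
      ((1 - Real.cos ((t i - t j) * x)) * x ^ (-1 - p))) (Set.Ioi 0) :=
    integrable_finset_sum _ fun i _ => hi1 i
  have hint : IntegrableOn (fun x : ℝ => FC.F t c x * x ^ (-1 - p)) (Set.Ioi 0) := by
    simp_rw [hid]
    exact hi0.neg
  have hval : ∫ x in Set.Ioi (0 : ℝ), FC.F t c x * x ^ (-1 - p) =
      - (C * ∑ i, ∑ j, c i * c j * |t i - t j| ^ p) := by
    simp_rw [hid]
    rw [integral_neg, integral_finset_sum _ fun i _ => hi1 i, Finset.mul_sum]
    congr 1
    refine Finset.sum_congr rfl fun i _ => ?_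
    rw [integral_finset_sum _ fun j _ => hi2 i j, Finset.mul_sum]
    refine Finset.sum_congr rfl fun j _ => ?_
    rw [integral_const_mul, (hk (t i - t j)).2]
    ring
  have hpos : 0 < ∫ x in Set.Ioi (0 : ℝ), FC.F t c x * x ^ (-1 - p) := by
    rw [setIntegral_pos_iff_support_of_nonneg_ae ?_ hint]
    · have hopen : IsOpen ({x : ℝ | 0 < FC.F t c x} ∩ Set.Ioi 0) :=
        (isOpen_lt continuous_const (FC.F_cont t c)).inter isOpen_Ioi
      have hm : 0 < volume ({x : ℝ | 0 < FC.F t c x} ∩ Set.Ioi 0) :=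
        hopen.measure_pos volume ⟨x₀, hF₀, hx₀⟩
      refine lt_of_lt_of_le hm (measure_mono ?_)
      rintro x ⟨hx1, hx2⟩
      refine ⟨?_, hx2⟩
      rw [Function.mem_support]
      exact (mul_pos hx1 (Real.rpow_pos_of_pos hx2 _)).ne'
    · refine (ae_restrict_iff' measurableSet_Ioi).2 (Filter.Eventually.of_forall fun x hx => ?_)
      exact mul_nonneg (FC.F_nonneg t c x) (Real.rpow_nonneg (le_of_lt hx) _)
  rw [hval] at hpos
  by_contra hcon
  rw [not_lt] at hcon
  have := mul_nonneg hC.le hcon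
  linarith

end Pool.Agent.H994.FB
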