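import Pool.Agent.H994.BM.Stm4

/-!
A nontrivial trigonometric polynomial with distinct frequencies does not vanish on the half line
(helper840 for helper994).
-/

set_option autoImplicit false

open MeasureTheory

namespace Pool.Agent.H994.FB

namespace FT

/-- a complex exponential sum in terms of the cosine and sine sums -/
theorem sum_exp {n : ℕ} (t c : Fin n → ℝ) (x : ℝ) :
    ∑ j, (c j : ℂ) * Complex.exp ((t j * x : ℝ) * Complex.I)
      = ((∑ j, c j * Real.cos (t j * x) : ℝ) : ℂ)
        + ((∑ j, c j * Real.sin (t j * x) : ℝ) : ℂ) * Complex.I := by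
  push_cast
  rw [Finset.sum_mul, ← Finset.sum_add_distrib]
  refine Finset.sum_congr rfl fun j _ => ?_
  rw [Complex.exp_mul_I]
  ring

theorem main (n : ℕ) (t c : Fin n → ℝ) (ht : Function.Injective t)
    (h : ∀ x : ℝ, 0 < x → (∑ j, c j * Real.cos (t j * x)) ^ 2
      + (∑ j, c j * Real.sin (t j * x)) ^ 2 ≤ 0) : c = 0 := by
  obtain ⟨M, hM⟩ : ∃ M : ℝ, M = ∑ j, |t j| := ⟨_, rfl⟩
  have hM0 : 0 ≤ M := by
    rw [hM]
    exact Finset.sum_nonneg fun j _ => abs_nonneg _
  have hle : ∀ j, |t j| ≤ M := by
    intro j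
    rw [hM]
    exact Finset.single_le_sum (f := fun j => |t j|) (fun i _ => abs_nonneg _) (Finset.mem_univ j)
  obtain ⟨e, he⟩ : ∃ e : ℝ, e = 1 / (1 + M) := ⟨_, rfl⟩
  have he0 : 0 < e := by
    rw [he]
    positivity
  have hsm : ∀ j, |t j * e| < 1 := by
    intro j
    rw [abs_mul, abs_of_pos he0, he, mul_one_div, div_lt_one (by positivity)]
    have := hle j
    linarith
  obtain ⟨z, hz⟩ : ∃ z : Fin n → ℂ, ∀ j, z j = Complex.exp ((t j * e : ℝ) * Complex.I) :=
    ⟨_, fun _ => rfl⟩
  have zinj : Function.Injective z := by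
    intro i j hij
    rw [hz, hz] at hij
    have hpi := Real.pi_gt_three
    have him : ∀ k : Fin n, (((t k * e : ℝ) : ℂ) * Complex.I).im = t k * e := by
      intro k
      simp
    have hb := fun k => abs_lt.mp (hsm k)
    have := Complex.exp_inj_of_neg_pi_lt_of_le_pi
      (by rw [him]; linarith [(hb i).1]) (by rw [him]; linarith [(hb i).2])
      (by rw [him]; linarith [(hb j).1]) (by rw [him]; linarith [(hb j).2]) hij
    have h2 : t i * e = t j * e := by
      have := congrArg Complex.im this
      rwa [him, him] at this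
    exact ht (mul_right_cancel₀ he0.ne' h2)
  have hsum : ∀ k : ℕ, ∑ j, (c j : ℂ) * z j ^ (k + 1) = 0 := by
    intro k
    have hx : (0 : ℝ) < ((k : ℝ) + 1) * e := by positivity
    have hh := h _ hx
    have h1 : (∑ j, c j * Real.cos (t j * (((k : ℝ) + 1) * e))) = 0 := by nlinarith
    have h2 : (∑ j, c j * Real.sin (t j * (((k : ℝ) + 1) * e))) = 0 := by nlinarith
    have h3 := sum_exp t c (((k : ℝ) + 1) * e)
    rw [h1, h2] at h3
    simp only [Complex.ofReal_zero, zero_mul, add_zero] at h3
    rw [← h3]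
    refine Finset.sum_congr rfl fun j _ => ?_
    rw [hz, ← Complex.exp_nat_mul]
    congr 2
    push_cast
    ring
  have hdet : (Matrix.vandermonde z).det ≠ 0 := Matrix.det_vandermonde_ne_zero_iff.mpr zinj
  have hv : Matrix.vecMul (fun j => (c j : ℂ) * z j) (Matrix.vandermonde z) = 0 := by
    funext k
    have := hsum k
    rw [Matrix.vecMul, dotProduct]
    simp only [Matrix.vandermonde_apply, Pi.zero_apply]
    rw [← this]
    refine Finset.sum_congr rfl fun j _ => ?_
    rw [pow_succ]
    ring
  have h0 := Matrix.eq_zero_of_vecMul_eq_zero hdet hv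
  funext j
  have := congrFun h0 j
  simp only [Pi.zero_apply] at this
  have hzj : z j ≠ 0 := by
    rw [hz]
    exact Complex.exp_ne_zero _
  have hc := (mul_eq_zero.mp this).resolve_right hzj
  exact_mod_cast hc

end FT

theorem t_trig : S_trig := by
  intro n t c ht hc
  by_contra hcon
  push Not at hcon
  exact hc (FT.main n t c ht hcon)

end Pool.Agent.H994.FB
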