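import Pool.Agent.H994.BM.Stm

/-!
Deterministic and measure theoretic consequences (MP_46f0ca_pr): curves with a Brownian piece are
not limits of simple curves.
-/

set_option autoImplicit false

open MeasureTheory ProbabilityTheory Filter Topology
open scoped NNReal ENNReal unitInterval

namespace Pool.Agent.H994.BM.Fin

open Pool.Agent.H986.EV (ev ev_cont ev_of_mem ev_coe)

/-- The piece of the curve `γ` over the time interval `[s, t] ⊆ [0, 1]`, as a curve on `[0, 1]`. -/
noncomputable def piece (s t : ℝ) (γ : C(I, ℂ)) : C(I, ℂ) where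
  toFun x := γ (Set.projIcc 0 1 zero_le_one (s + (x : ℝ) * (t - s)))
  continuous_toFun := by
    have h : Continuous fun x : unitInterval =>
        Set.projIcc (0 : ℝ) 1 zero_le_one (s + (x : ℝ) * (t - s)) :=
      continuous_projIcc.comp (by fun_prop)
    exact γ.continuous.comp h

/-- the curve run backwards -/
noncomputable def rev (γ : C(I, ℂ)) : C(I, ℂ) := γ.comp ⟨unitInterval.symm, by fun_prop⟩

theorem piece_comp (s t : ℝ) : ∃ k : C(I, I), ∀ γ, piece s t γ = γ.comp k :=
  ⟨⟨fun x => Set.projIcc 0 1 zero_le_one (s + (x : ℝ) * (t - s)),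
    continuous_projIcc.comp (by fun_prop)⟩, fun _ => rfl⟩

theorem piece_closure {s t : ℝ} (hs : 0 ≤ s) (hst : s < t) (ht : t ≤ 1) {γ : C(I, ℂ)}
    (h : γ ∈ closure {γ : C(I, ℂ) | Function.Injective γ}) :
    piece s t γ ∈ closure {γ : C(I, ℂ) | Function.Injective γ} := by
  obtain ⟨k, hk⟩ := piece_comp s t
  have hc : Continuous fun γ : C(I, ℂ) => piece s t γ := by
    simp only [hk]
    exact ContinuousMap.continuous_precomp k
  refine map_mem_closure hc h ?_
  intro γ hγ x y hxy
  have hm : ∀ z : unitInterval, s + (z : ℝ) * (t - s) ∈ Set.Icc (0 : ℝ) 1 := fun z =>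
    ⟨by nlinarith [z.2.1], by nlinarith [z.2.2]⟩
  have h2 : Set.projIcc 0 1 zero_le_one (s + (x : ℝ) * (t - s)) =
      Set.projIcc 0 1 zero_le_one (s + (y : ℝ) * (t - s)) := hγ hxy
  rw [Set.projIcc_of_mem _ (hm x), Set.projIcc_of_mem _ (hm y)] at h2
  have h3 := congrArg Subtype.val h2
  simp only at h3
  apply Subtype.ext
  have h4 : 0 < t - s := by linarith
  exact mul_right_cancel₀ h4.ne' (by linarith)

theorem rev_closure {γ : C(I, ℂ)} (h : γ ∈ closure {γ : C(I, ℂ) | Function.Injective γ}) :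
    rev γ ∈ closure {γ : C(I, ℂ) | Function.Injective γ} := by
  have hc : Continuous fun γ : C(I, ℂ) => rev γ := ContinuousMap.continuous_precomp _
  refine map_mem_closure hc h ?_
  intro γ hγ x y hxy
  have := hγ hxy
  exact unitInterval.symm_bijective.1 this

/-- the curve `γ` is the image under a homeomorphism of the plane of the path `w` run through by a
monotone continuous clock, forwards or backwards -/
def IsDeformation (w : ℝ≥0 → ℂ) (γ : C(I, ℂ)) : Prop :=
  ∃ (h : ℂ ≃ₜ ℂ) (τ : C(I, ℝ≥0)), (Monotone τ ∨ Antitone τ) ∧ ∀ x, γ x = h (w (τ x))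

/-- a path which crosses itself in every interval has no nonconstant deformation which is a limit
of simple curves -/
theorem const_of_deform (h1 : S_closure) (h2 : S_reparam) (h3 : S_homeo) {f g : ℝ≥0 → ℝ}
    (hf : Continuous f) (hg : Continuous g)
    (hcr : ∀ u v : ℝ, 0 ≤ u → u < v → Cr (pth f g) u v) {w : ℝ≥0 → ℂ}
    (hw : ∀ t, w t = f t + g t * Complex.I) {γ : C(I, ℂ)}
    (hγ : γ ∈ closure {γ : C(I, ℂ) | Function.Injective γ}) (hd : IsDeformation w γ) :
    ∀ x y, γ x = γ y := by
  -- the monotone case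
  have mono : ∀ (h : ℂ ≃ₜ ℂ) (τ : C(I, ℝ≥0)) (γ : C(I, ℂ)),
      γ ∈ closure {γ : C(I, ℂ) | Function.Injective γ} → Monotone τ →
      (∀ x, γ x = h (w (τ x))) → τ 0 = τ 1 := by
    intro h τ γ hγ hτ he
    by_contra hne
    have hlt : τ 0 < τ 1 := lt_of_le_of_ne (hτ zero_le_one) hne
    have hwc : Continuous w := by
      have : w = fun t => (f t : ℂ) + g t * Complex.I := funext hw
      rw [this]
      fun_prop
    let W : C(ℝ≥0, ℂ) := ⟨w, hwc⟩
    have hW : ∀ u v : ℝ, 0 ≤ u → u < v → Cr (fun x => W x.toNNReal) u v := by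
      intro u v hu huv
      have h5 := hcr u v hu huv
      have e : (fun x : ℝ => W x.toNNReal) = pth f g := by
        funext x
        exact hw _
      rw [e]
      exact h5
    have h6 := h1 _ (h2 W hW τ hτ hlt)
    apply h6
    apply h3 h
    have e : (⟨h, h.continuous⟩ : C(ℂ, ℂ)).comp (W.comp τ) = γ := by
      ext x
      exact (he x).symm
    rw [e]
    exact hγ
  obtain ⟨h, τ, hτ, he⟩ := hd
  rcases hτ with hτ | hτ
  · have h01 := mono h τ γ hγ hτ he
    have hc : ∀ x, τ x = τ 0 := fun x =>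
      le_antisymm (h01 ▸ hτ x.2.2) (hτ x.2.1)
    intro x y
    rw [he, he, hc x, hc y]
  · have h01 := mono h (τ.comp ⟨unitInterval.symm, by fun_prop⟩) (rev γ) (rev_closure hγ)
      (fun x y hxy => hτ (unitInterval.symm_le_symm.2 hxy)) (fun x => he _)
    have h01' : τ 1 = τ 0 := by simpa using h01
    have hc : ∀ x, τ x = τ 0 := fun x =>
      le_antisymm (hτ x.2.1) (h01' ▸ hτ x.2.2)
    intro x y
    rw [he, he, hc x, hc y]

end Pool.Agent.H994.BM.Fin
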