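import Pool.Agent.H994.BM.Stm3

/-!
Undoing a homeomorphism and a change of time (helper721, task GB of project GL, MP_46f0ca_pr).
-/

set_option autoImplicit false

open MeasureTheory ProbabilityTheory Filter Topology
open scoped NNReal ENNReal unitInterval

namespace Pool.Agent.H994.GL

namespace GB

theorem post (k : ℂ ≃ₜ ℂ) (k' : C(ℂ, ℂ)) (hk : ∀ x, k' x = k x) {ξ : C(I, ℂ)}
    (hξ : ξ ∈ closure {γ : C(I, ℂ) | Function.Injective γ}) :
    k'.comp ξ ∈ closure {γ : C(I, ℂ) | Function.Injective γ} := by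
  refine map_mem_closure (f := fun η : C(I, ℂ) => k'.comp η)
    (ContinuousMap.continuous_postcomp k') hξ fun η hη => ?_
  intro x y hxy
  simp only [ContinuousMap.comp_apply, hk] at hxy
  exact hη (k.injective hxy)

theorem pre (sg : C(I, I)) (hsg : Function.Injective sg) {ξ : C(I, ℂ)}
    (hξ : ξ ∈ closure {γ : C(I, ℂ) | Function.Injective γ}) :
    ξ.comp sg ∈ closure {γ : C(I, ℂ) | Function.Injective γ} := by
  refine map_mem_closure (f := fun η : C(I, ℂ) => η.comp sg)
    (ContinuousMap.continuous_precomp sg) hξ fun η hη => ?_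
  intro x y hxy
  simp only [ContinuousMap.comp_apply] at hxy
  exact hsg (hη hxy)

theorem te_mem (τ : C(I, I)) {e : ℝ} (h0 : 0 < e) (h1 : e < 1) (x : I) :
    (1 - e) * (τ x : ℝ) + e * (x : ℝ) ∈ I := by
  have h2 := (τ x).2.1
  have h3 := (τ x).2.2
  have h4 := x.2.1
  have h5 := x.2.2
  constructor
  · have h6 : 0 ≤ (1 - e) * (τ x : ℝ) := mul_nonneg (by linarith) h2
    have h7 : 0 ≤ e * (x : ℝ) := mul_nonneg h0.le h4
    linarith
  · have h6 : (1 - e) * (τ x : ℝ) ≤ (1 - e) * 1 := mul_le_mul_of_nonneg_left h3 (by linarith)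
    have h7 : e * (x : ℝ) ≤ e * 1 := mul_le_mul_of_nonneg_left h5 h0.le
    linarith

theorem exists_inverse (τ : C(I, I)) (hm : Monotone τ) (hs : Function.Surjective τ) {e : ℝ}
    (h0 : 0 < e) (h1 : e < 1) : ∃ κ : C(I, I), Function.Injective κ ∧
      ∀ x, |(τ (κ x) : ℝ) - x| ≤ e := by
  let te : I → I := fun x => ⟨(1 - e) * (τ x : ℝ) + e * (x : ℝ), te_mem τ h0 h1 x⟩
  have hcont : Continuous te := by
    refine Continuous.subtype_mk ?_ _
    exact (continuous_const.mul (continuous_subtype_val.comp τ.continuous)).add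
      (continuous_const.mul continuous_subtype_val)
  have hstr : StrictMono te := by
    intro x y hxy
    have h2 : (τ x : ℝ) ≤ τ y := hm hxy.le
    have h3 : (x : ℝ) < y := hxy
    have h4 : (1 - e) * (τ x : ℝ) ≤ (1 - e) * (τ y : ℝ) :=
      mul_le_mul_of_nonneg_left h2 (by linarith)
    have h5 : e * (x : ℝ) < e * (y : ℝ) := mul_lt_mul_of_pos_left h3 h0
    change (1 - e) * (τ x : ℝ) + e * (x : ℝ) < (1 - e) * (τ y : ℝ) + e * (y : ℝ)
    linarith
  have hτ0 : τ 0 = 0 := by
    obtain ⟨x, hx⟩ := hs 0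
    have h2 : τ 0 ≤ τ x := hm x.2.1
    rw [hx] at h2
    exact le_antisymm h2 (τ 0).2.1
  have hτ1 : τ 1 = 1 := by
    obtain ⟨x, hx⟩ := hs 1
    have h2 : τ x ≤ τ 1 := hm x.2.2
    rw [hx] at h2
    exact le_antisymm (τ 1).2.2 h2
  have hte0 : te 0 = 0 := by
    apply Subtype.ext
    change (1 - e) * (τ 0 : ℝ) + e * ((0 : I) : ℝ) = ((0 : I) : ℝ)
    rw [hτ0]
    simp
  have hte1 : te 1 = 1 := by
    apply Subtype.ext
    change (1 - e) * (τ 1 : ℝ) + e * ((1 : I) : ℝ) = ((1 : I) : ℝ)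
    rw [hτ1]
    simp
  have hsur : Function.Surjective te := by
    intro y
    have h2 : y ∈ Set.range te := mem_range_of_exists_le_of_exists_ge hcont
      ⟨0, by rw [hte0]; exact y.2.1⟩ ⟨1, by rw [hte1]; exact y.2.2⟩
    exact h2
  let o : I ≃o I := hstr.orderIsoOfSurjective te hsur
  have ho : ∀ x, o x = te x := fun x => rfl
  refine ⟨⟨o.symm, o.symm.continuous⟩, o.symm.injective, fun x => ?_⟩
  have h2 : te (o.symm x) = x := by
    rw [← ho]
    exact o.apply_symm_apply x
  have h3 : (1 - e) * (τ (o.symm x) : ℝ) + e * ((o.symm x : I) : ℝ) = (x : ℝ) :=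
    congrArg Subtype.val h2
  change |(τ (o.symm x) : ℝ) - x| ≤ e
  have h4 : (τ (o.symm x) : ℝ) - x = e * ((τ (o.symm x) : ℝ) - ((o.symm x : I) : ℝ)) := by
    linarith
  rw [h4, abs_mul, abs_of_pos h0]
  have h5 : |(τ (o.symm x) : ℝ) - ((o.symm x : I) : ℝ)| ≤ 1 := by
    rw [abs_le]
    have a1 := (τ (o.symm x)).2.1
    have a2 := (τ (o.symm x)).2.2
    have a3 := (o.symm x : I).2.1
    have a4 := (o.symm x : I).2.2
    constructor <;> linarith
  calc e * |(τ (o.symm x) : ℝ) - ((o.symm x : I) : ℝ)| ≤ e * 1 :=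
        mul_le_mul_of_nonneg_left h5 h0.le
    _ = e := mul_one e

theorem mono_case (G : C(I, ℂ)) (τ : C(I, I)) (hm : Monotone τ) (hs : Function.Surjective τ)
    (hG : G.comp τ ∈ closure {γ : C(I, ℂ) | Function.Injective γ}) :
    G ∈ closure {γ : C(I, ℂ) | Function.Injective γ} := by
  rw [← closure_closure, Metric.mem_closure_iff]
  intro ε hε
  have huc := CompactSpace.uniformContinuous_of_continuous G.continuous
  rw [Metric.uniformContinuous_iff] at huc
  obtain ⟨δ, hδ, h⟩ := huc ε hε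
  have he0 : 0 < min (δ / 2) (1 / 2) := lt_min (by linarith) (by norm_num)
  have he1 : min (δ / 2) (1 / 2) < 1 := (min_le_right _ _).trans_lt (by norm_num)
  obtain ⟨κ, hκ, hκd⟩ := exists_inverse τ hm hs he0 he1
  refine ⟨(G.comp τ).comp κ, pre κ hκ hG, ?_⟩
  rw [ContinuousMap.dist_lt_iff hε]
  intro x
  rw [dist_comm]
  refine h ?_
  rw [Subtype.dist_eq, Real.dist_eq]
  refine (hκd x).trans_lt ((min_le_left _ _).trans_lt (by linarith))

end GB

theorem t_back : S_back := by
  intro G Γ h τ hτ hs hΓ hcl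
  have hG : G.comp τ ∈ closure {γ : C(I, ℂ) | Function.Injective γ} := by
    have h1 := GB.post h.symm ⟨h.symm, h.symm.continuous⟩ (fun _ => rfl) hcl
    have h2 : (⟨h.symm, h.symm.continuous⟩ : C(ℂ, ℂ)).comp Γ = G.comp τ := by
      ext x
      change h.symm (Γ x) = G (τ x)
      rw [hΓ x, h.symm_apply_apply]
    rwa [h2] at h1
  rcases hτ with hm | ha
  · exact GB.mono_case G τ hm hs hG
  · let s : C(I, I) := ⟨unitInterval.symm, unitInterval.continuous_symm⟩
    have hsi : Function.Injective s := unitInterval.symm_bijective.injective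
    refine GB.mono_case G (τ.comp s) ?_ ?_ ?_
    · intro x y hxy
      have h1 : s y ≤ s x := by
        change (1 - (y : ℝ)) ≤ 1 - (x : ℝ)
        have h2 : (x : ℝ) ≤ y := hxy
        linarith
      exact ha h1
    · intro y
      obtain ⟨x, hx⟩ := hs y
      refine ⟨s x, ?_⟩
      change τ (s (s x)) = y
      have h1 : s (s x) = x := unitInterval.symm_symm x
      rw [h1, hx]
    · have h1 := GB.pre s hsi hG
      exact h1

end Pool.Agent.H994.GL
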