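import Pool.Agent.H994.BM.Stm2

/-!
Stability of the crossing position.
-/

set_option autoImplicit false

open MeasureTheory ProbabilityTheory Filter Topology
open scoped NNReal ENNReal unitInterval

namespace Pool.Agent.H994.GL

open Pool.Agent.H986.EV (ev)

namespace GC

/-- the margin -/
theorem margin {c d : ℝ} (hcd : c ≤ d) {p q : ℝ → ℝ} (hp : Continuous p) (hq : Continuous q)
    (h : ∀ t ∈ Set.Icc c d, 0 < p t ∨ 0 < q t) :
    ∃ η : ℝ, 0 < η ∧ ∀ t ∈ Set.Icc c d, η ≤ p t ∨ η ≤ q t := by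
  obtain ⟨t₀, ht₀, hm⟩ := (isCompact_Icc (a := c) (b := d)).exists_isMinOn
    (Set.nonempty_Icc.2 hcd) (f := fun t => max (p t) (q t)) (hp.max hq).continuousOn
  refine ⟨max (p t₀) (q t₀), lt_max_iff.2 (h t₀ ht₀), fun t ht => ?_⟩
  exact le_max_iff.1 (hm ht)

theorem move {ζ ξ : C(unitInterval, ℂ)} {η : ℝ} (h : dist ζ ξ < η / 2) (x : ℝ) :
    |(ev ξ x).re - (ev ζ x).re| < η / 2 ∧ |(ev ξ x).im - (ev ζ x).im| < η / 2 := by
  have h1 : ‖ev ζ x - ev ξ x‖ < η / 2 := by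
    refine lt_of_le_of_lt (Pool.Agent.H986.EV.ev_sub_le ζ ξ x) ?_
    rwa [← dist_eq_norm]
  have h2 : ‖ev ξ x - ev ζ x‖ < η / 2 := by rwa [norm_sub_rev]
  have h3 := Complex.abs_re_le_norm (ev ξ x - ev ζ x)
  have h4 := Complex.abs_im_le_norm (ev ξ x - ev ζ x)
  rw [Complex.sub_re] at h3
  rw [Complex.sub_im] at h4
  exact ⟨lt_of_le_of_lt h3 h2, lt_of_le_of_lt h4 h2⟩

end GC

theorem t_xclosure (h : S_x) : S_xclosure := by
  intro ζ a b c d ha hab hbc hcd hd hX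
  obtain ⟨h1, h2, h3, h4⟩ := hX
  have hc := Pool.Agent.H986.EV.ev_cont ζ
  have hre : Continuous fun t => (ev ζ t).re := Complex.continuous_re.comp hc
  have him : Continuous fun t => (ev ζ t).im := Complex.continuous_im.comp hc
  obtain ⟨η₁, hη₁, k1⟩ := GC.margin hcd (p := fun t => (ev ζ t).re - (ev ζ a).re)
    (q := fun t => (ev ζ a).im - (ev ζ t).im) (hre.sub continuous_const)
    (continuous_const.sub him) (fun t ht => (h1 t ht).imp sub_pos.2 sub_pos.2)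
  obtain ⟨η₂, hη₂, k2⟩ := GC.margin hab (p := fun s => (ev ζ c).re - (ev ζ s).re)
    (q := fun s => (ev ζ c).im - (ev ζ s).im) (continuous_const.sub hre)
    (continuous_const.sub him) (fun t ht => (h2 t ht).imp sub_pos.2 sub_pos.2)
  obtain ⟨η₃, hη₃, k3⟩ := GC.margin hcd (p := fun t => (ev ζ b).re - (ev ζ t).re)
    (q := fun t => (ev ζ t).im - (ev ζ b).im) (continuous_const.sub hre)
    (him.sub continuous_const) (fun t ht => (h3 t ht).imp sub_pos.2 sub_pos.2)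
  obtain ⟨η₄, hη₄, k4⟩ := GC.margin hab (p := fun s => (ev ζ s).re - (ev ζ d).re)
    (q := fun s => (ev ζ s).im - (ev ζ d).im) (hre.sub continuous_const)
    (him.sub continuous_const) (fun t ht => (h4 t ht).imp sub_pos.2 sub_pos.2)
  obtain ⟨η, hη, e1, e2, e3, e4⟩ : ∃ η : ℝ, 0 < η ∧ η ≤ η₁ ∧ η ≤ η₂ ∧ η ≤ η₃ ∧ η ≤ η₄ :=
    ⟨min (min η₁ η₂) (min η₃ η₄), lt_min (lt_min hη₁ hη₂) (lt_min hη₃ hη₄),
      (min_le_left _ _).trans (min_le_left _ _), (min_le_left _ _).trans (min_le_right _ _),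
      (min_le_right _ _).trans (min_le_left _ _), (min_le_right _ _).trans (min_le_right _ _)⟩
  intro hcl
  obtain ⟨ξ, hξ, hdist⟩ := Metric.mem_closure_iff.1 hcl (η / 2) (by linarith)
  have hm := fun x => GC.move hdist x
  have hX' : Xc (ev ξ) a b c d := by
    have m : ∀ x, (-(η / 2) < (ev ξ x).re - (ev ζ x).re ∧ (ev ξ x).re - (ev ζ x).re < η / 2) ∧
        (-(η / 2) < (ev ξ x).im - (ev ζ x).im ∧ (ev ξ x).im - (ev ζ x).im < η / 2) :=
      fun x => ⟨abs_lt.1 (hm x).1, abs_lt.1 (hm x).2⟩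
    refine ⟨fun t ht => ?_, fun s hs => ?_, fun t ht => ?_, fun s hs => ?_⟩
    · obtain ⟨⟨m1, m2⟩, m3, m4⟩ := m t
      obtain ⟨⟨n1, n2⟩, n3, n4⟩ := m a
      rcases k1 t ht with k | k
      · left
        change η₁ ≤ (ev ζ t).re - (ev ζ a).re at k
        linarith
      · right
        change η₁ ≤ (ev ζ a).im - (ev ζ t).im at k
        linarith
    · obtain ⟨⟨m1, m2⟩, m3, m4⟩ := m s
      obtain ⟨⟨n1, n2⟩, n3, n4⟩ := m c
      rcases k2 s hs with k | k
      · left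
        change η₂ ≤ (ev ζ c).re - (ev ζ s).re at k
        linarith
      · right
        change η₂ ≤ (ev ζ c).im - (ev ζ s).im at k
        linarith
    · obtain ⟨⟨m1, m2⟩, m3, m4⟩ := m t
      obtain ⟨⟨n1, n2⟩, n3, n4⟩ := m b
      rcases k3 t ht with k | k
      · left
        change η₃ ≤ (ev ζ b).re - (ev ζ t).re at k
        linarith
      · right
        change η₃ ≤ (ev ζ t).im - (ev ζ b).im at k
        linarith
    · obtain ⟨⟨m1, m2⟩, m3, m4⟩ := m s
      obtain ⟨⟨n1, n2⟩, n3, n4⟩ := m d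
      rcases k4 s hs with k | k
      · left
        change η₄ ≤ (ev ζ s).re - (ev ζ d).re at k
        linarith
      · right
        change η₄ ≤ (ev ζ s).im - (ev ζ d).im at k
        linarith
  obtain ⟨s, hs, t, ht, hst⟩ := h (ev ξ) (Pool.Agent.H986.EV.ev_cont ξ) a b c d hab hcd hX'
  have hs1 : s ∈ Set.Icc (0 : ℝ) 1 := ⟨by linarith [hs.1], by linarith [hs.2]⟩
  have ht1 : t ∈ Set.Icc (0 : ℝ) 1 := ⟨by linarith [ht.1], by linarith [ht.2]⟩
  rw [Pool.Agent.H986.EV.ev_of_mem ξ hs1, Pool.Agent.H986.EV.ev_of_mem ξ ht1] at hst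
  have h5 := congrArg Subtype.val (hξ hst)
  change s = t at h5
  linarith [hs.2, ht.1]

end Pool.Agent.H994.GL
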