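import Pool.Agent.H994.BM.Stm2

/-!
G4 (helper236): a linear space of curves without crossings has linearly dependent increments.
-/

set_option autoImplicit false

open MeasureTheory ProbabilityTheory Filter Topology
open scoped NNReal ENNReal unitInterval

namespace Pool.Agent.H994.GL.GL

/-- the three increments -/
noncomputable def incr (T : Submodule ℝ C(I, ℝ)) (a b c d : I) : T →ₗ[ℝ] (Fin 3 → ℝ) where
  toFun f := ![(f : C(I, ℝ)) b - (f : C(I, ℝ)) a, (f : C(I, ℝ)) c - (f : C(I, ℝ)) b,
    (f : C(I, ℝ)) d - (f : C(I, ℝ)) c]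
  map_add' f g := by
    funext i
    fin_cases i <;> simp <;> ring
  map_smul' r f := by
    funext i
    fin_cases i <;> simp <;> ring

theorem la (T : Submodule ℝ C(I, ℝ)) (a b c d : I) :
    (∃ α β δ : ℝ, (α, β, δ) ≠ (0, 0, 0) ∧
      ∀ f ∈ T, α * (f b - f a) + β * (f c - f b) + δ * (f d - f c) = 0) ∨
    ∀ x y z : ℝ, ∃ f ∈ T, f b - f a = x ∧ f c - f b = y ∧ f d - f c = z := by
  by_cases h : LinearMap.range (incr T a b c d) = ⊤
  · right
    intro x y z
    obtain ⟨f, hf⟩ := LinearMap.range_eq_top.1 h ![x, y, z]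
    refine ⟨f, f.2, ?_, ?_, ?_⟩
    · exact congrFun hf 0
    · exact congrFun hf 1
    · exact congrFun hf 2
  · left
    obtain ⟨φ, hφ, hle⟩ := Submodule.exists_le_ker_of_lt_top _ (lt_top_iff_ne_top.2 h)
    have hsum : ∀ v : Fin 3 → ℝ, φ v = v 0 * φ (fun j => if (0 : Fin 3) = j then 1 else 0) +
        v 1 * φ (fun j => if (1 : Fin 3) = j then 1 else 0) +
        v 2 * φ (fun j => if (2 : Fin 3) = j then 1 else 0) := by
      intro v
      rw [LinearMap.pi_apply_eq_sum_univ φ v, Fin.sum_univ_three]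
      rfl
    refine ⟨φ (fun j => if (0 : Fin 3) = j then 1 else 0),
      φ (fun j => if (1 : Fin 3) = j then 1 else 0),
      φ (fun j => if (2 : Fin 3) = j then 1 else 0), ?_, ?_⟩
    · intro h0
      rw [Prod.mk.injEq, Prod.mk.injEq] at h0
      obtain ⟨h1, h2, h3⟩ := h0
      apply hφ
      apply LinearMap.ext
      intro v
      rw [hsum v, h1, h2, h3]
      simp
    · intro f hf
      have h1 : φ (incr T a b c d ⟨f, hf⟩) = 0 :=
        LinearMap.mem_ker.1 (hle (LinearMap.mem_range_self _ _))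
      rw [hsum] at h1
      have e0 : incr T a b c d ⟨f, hf⟩ 0 = f b - f a := rfl
      have e1 : incr T a b c d ⟨f, hf⟩ 1 = f c - f b := rfl
      have e2 : incr T a b c d ⟨f, hf⟩ 2 = f d - f c := rfl
      rw [e0, e1, e2] at h1
      linarith

/-- the real function -/
noncomputable def er (f : C(I, ℝ)) (x : ℝ) : ℝ := f (Set.projIcc 0 1 zero_le_one x)

theorem er_cont (f : C(I, ℝ)) : Continuous (er f) := f.continuous.comp continuous_projIcc

theorem er_val (f : C(I, ℝ)) (x : I) : er f (x : ℝ) = f x := by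
  unfold er
  rw [Set.projIcc_val]

end Pool.Agent.H994.GL.GL

namespace Pool.Agent.H994.GL

open Pool.Agent.H994.GL.GL in
/-- G4 -/
theorem t_lin (h1 : S_xclosure) (h2 : S_pattern) : S_lin := by
  intro T hT u v huv
  have huv' : (u : ℝ) < v := huv
  have hu0 := u.2.1
  have hv1 := v.2.2
  set t2 : I := ⟨u + (v - u) / 3, by constructor <;> linarith⟩ with ht2
  set t3 : I := ⟨u + 2 * (v - u) / 3, by constructor <;> linarith⟩ with ht3
  have e2 : (t2 : ℝ) = u + (v - u) / 3 := rfl
  have e3 : (t3 : ℝ) = u + 2 * (v - u) / 3 := rfl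
  have l1 : (u : ℝ) < t2 := by rw [e2]; linarith
  have l2 : (t2 : ℝ) < t3 := by rw [e2, e3]; linarith
  have l3 : (t3 : ℝ) < v := by rw [e3]; linarith
  rcases la T u t2 t3 v with h | h
  · exact ⟨u, t2, t3, v, le_refl _, l1, l2, l3, le_refl _, h⟩
  · obtain ⟨f, hf, f1, f2, f3⟩ := h 1 0 (-1)
    obtain ⟨a, b, c, d, k1, k2, k3, k4, k5, k6, hk⟩ := h2 (er f) (er_cont f) u t2 t3 v l1 l2 l3
      (by rw [er_val, er_val]; linarith) (by rw [er_val, er_val]; linarith)
      (by rw [er_val, er_val]; intro h0; linarith)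
    have hbc : b < c := by linarith
    set a' : I := ⟨a, by constructor <;> linarith⟩ with ha'
    set b' : I := ⟨b, by constructor <;> linarith⟩ with hb'
    set c' : I := ⟨c, by constructor <;> linarith⟩ with hc'
    set d' : I := ⟨d, by constructor <;> linarith⟩ with hd'
    rcases la T a' b' c' d' with h' | h'
    · exact ⟨a', b', c', d', k1, k2, hbc, k5, k6, h'⟩
    · exfalso
      obtain ⟨g, hg, g1, g2, g3⟩ := h' (-2) 1 0
      have ea : er g a = g a' := er_val g a'
      have eb : er g b = g b' := er_val g b'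
      have ec : er g c = g c' := er_val g c'
      have ed : er g d = g d' := er_val g d'
      obtain ⟨s, s', -, -, hX⟩ := hk (er g) (er_cont g) (by
        rw [ea, eb, ec, ed]
        have q1 : g d' - g a' = -1 := by linarith
        rw [q1, g2]
        norm_num)
      have hw : (fun x => ((s * er f x : ℝ) : ℂ) + ((s' * er g x : ℝ) : ℂ) * Complex.I) =
          Pool.Agent.H986.EV.ev (cv (s • f) (s' • g)) := by
        funext x
        rfl
      rw [hw] at hX
      exact h1 (cv (s • f) (s' • g)) a b c d (by linarith) k2.le hbc k5.le (by linarith) hX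
        (hT _ (T.smul_mem s hf) _ (T.smul_mem s' hg))

end Pool.Agent.H994.GL
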