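import Pool.Agent.H994.BM.Stm2

/-!
Two real functions: strands in crossing position (part GP of project GL of helper994), by helper71.
-/

set_option autoImplicit false

open MeasureTheory ProbabilityTheory Filter Topology
open scoped NNReal ENNReal unitInterval

namespace Pool.Agent.H994.GL

namespace GP

/-- a minimal interval in which `f` rises from `m` to `M` -/
theorem rise (f : ℝ → ℝ) (hf : Continuous f) (p q : ℝ) (hpq : p < q) (h : f p < f q) :
    ∃ a b : ℝ, p ≤ a ∧ a < b ∧ b ≤ q ∧ f a = f p ∧ f b = f q ∧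
      ∀ x ∈ Set.Icc a b, (x = a ∨ f p < f x) ∧ (x = b ∨ f x < f q) := by
  -- the first time of the value `f q`
  have hc1 : IsCompact (Set.Icc p q ∩ f ⁻¹' {f q}) :=
    isCompact_Icc.inter_right (isClosed_singleton.preimage hf)
  obtain ⟨b, ⟨⟨hb1, hb2⟩, hb3⟩, hbmin⟩ :=
    hc1.exists_isLeast ⟨q, ⟨hpq.le, le_refl q⟩, rfl⟩
  have hb3' : f b = f q := hb3
  -- the last time of the value `f p`
  have hc2 : IsCompact (Set.Icc p b ∩ f ⁻¹' {f p}) :=
    isCompact_Icc.inter_right (isClosed_singleton.preimage hf)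
  obtain ⟨a, ⟨⟨ha1, ha2⟩, ha3⟩, hamax⟩ :=
    hc2.exists_isGreatest ⟨p, ⟨le_refl p, hb1⟩, rfl⟩
  have ha3' : f a = f p := ha3
  have hab : a < b := by
    rcases lt_or_eq_of_le ha2 with h1 | h1
    · exact h1
    · exfalso
      rw [h1, hb3'] at ha3'
      exact h.ne' ha3'
  refine ⟨a, b, ha1, hab, hb2, ha3', hb3', fun x ⟨hx1, hx2⟩ => ⟨?_, ?_⟩⟩
  · by_contra hcon
    push Not at hcon
    obtain ⟨hxa, hfx⟩ := hcon
    have hm : f p ∈ Set.Icc (f x) (f b) := ⟨hfx, by rw [hb3']; exact h.le⟩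
    obtain ⟨y, ⟨hy1, hy2⟩, hy3⟩ := intermediate_value_Icc hx2 hf.continuousOn hm
    have h1 : y ≤ a := hamax ⟨⟨(ha1.trans hx1).trans hy1, hy2⟩, hy3⟩
    exact hxa (le_antisymm (hy1.trans h1) hx1)
  · by_contra hcon
    push Not at hcon
    obtain ⟨hxb, hfx⟩ := hcon
    have hm : f q ∈ Set.Icc (f p) (f x) := ⟨h.le, hfx⟩
    obtain ⟨y, ⟨hy1, hy2⟩, hy3⟩ :=
      intermediate_value_Icc (ha1.trans hx1) hf.continuousOn hm
    have h1 : b ≤ y := hbmin ⟨⟨hy1, (hy2.trans hx2).trans hb2⟩, hy3⟩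
    exact hxb (le_antisymm hx2 (h1.trans hy2))

/-- the curve with the coordinates `f`, `g` has the real part `f` -/
theorem re_eq (u v : ℝ) : ((u : ℂ) + (v : ℂ) * Complex.I).re = u := by simp

/-- the curve with the coordinates `f`, `g` has the imaginary part `g` -/
theorem im_eq (u v : ℝ) : ((u : ℂ) + (v : ℂ) * Complex.I).im = v := by simp

/-- the case of a function with `f t₁ < f t₂` -/
theorem core (f : ℝ → ℝ) (hf : Continuous f) (t₁ t₂ t₃ t₄ : ℝ) (h12 : t₁ < t₂) (h34 : t₃ < t₄)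
    (h14 : f t₁ = f t₄) (h23 : f t₂ = f t₃) (h : f t₁ < f t₂) :
    ∃ a b c d : ℝ, t₁ ≤ a ∧ a < b ∧ b ≤ t₂ ∧ t₃ ≤ c ∧ c < d ∧ d ≤ t₄ ∧
      ∀ g : ℝ → ℝ, g d < g a → g b < g c →
        Xc (fun x => ((f x : ℝ) : ℂ) + ((g x : ℝ) : ℂ) * Complex.I) a b c d := by
  obtain ⟨a, b, ha, hab, hb, hfa, hfb, hx⟩ := rise f hf t₁ t₂ h12 h
  obtain ⟨c, d, hc, hcd, hd, hfc, hfd, hy⟩ := rise (fun x => -f x) hf.neg t₃ t₄ h34 (by linarith)
  refine ⟨a, b, c, d, ha, hab, hb, hc, hcd, hd, fun g hda hbc => ⟨?_, ?_, ?_, ?_⟩⟩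
  · intro t ht
    simp only [re_eq, im_eq]
    rcases (hy t ht).2 with h1 | h1
    · right; rw [h1]; exact hda
    · left; linarith
  · intro s hs
    simp only [re_eq, im_eq]
    rcases (hx s hs).2 with h1 | h1
    · right; rw [h1]; exact hbc
    · left; linarith
  · intro t ht
    simp only [re_eq, im_eq]
    rcases (hy t ht).1 with h1 | h1
    · right; rw [h1]; exact hbc
    · left; linarith
  · intro s hs
    simp only [re_eq, im_eq]
    rcases (hx s hs).1 with h1 | h1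
    · right; rw [h1]; exact hda
    · left; linarith

/-- a sign for `g` -/
theorem signs (f : ℝ → ℝ) (a b c d : ℝ)
    (h : ∀ g : ℝ → ℝ, g d < g a → g b < g c →
        Xc (fun x => ((f x : ℝ) : ℂ) + ((g x : ℝ) : ℂ) * Complex.I) a b c d)
    (g : ℝ → ℝ) (hg : (g d - g a) * (g c - g b) < 0) : ∃ e' : ℝ, (e' = 1 ∨ e' = -1) ∧
      Xc (fun x => ((f x : ℝ) : ℂ) + ((e' * g x : ℝ) : ℂ) * Complex.I) a b c d := by
  rcases mul_neg_iff.mp hg with ⟨h1, h2⟩ | ⟨h1, h2⟩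
  · refine ⟨-1, Or.inr rfl, h (fun x => -1 * g x) ?_ ?_⟩
    · linarith
    · linarith
  · refine ⟨1, Or.inl rfl, h (fun x => 1 * g x) ?_ ?_⟩
    · linarith
    · linarith

end GP

/-- two real functions: strands in crossing position -/
theorem t_pattern : S_pattern := by
  intro f hf t₁ t₂ t₃ t₄ h12 _ h34 h14 h23 hne
  rcases lt_or_gt_of_ne hne with h | h
  · obtain ⟨a, b, c, d, h1, h2, h3, h4, h5, h6, h7⟩ :=
      GP.core (fun x => 1 * f x) (continuous_const.mul hf) t₁ t₂ t₃ t₄ h12 h34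
        (by simp only [one_mul, h14]) (by simp only [one_mul, h23]) (by simpa only [one_mul] using h)
    refine ⟨a, b, c, d, h1, h2, h3, h4, h5, h6, fun g _ hg => ?_⟩
    obtain ⟨e', he', hX⟩ := GP.signs (fun x => 1 * f x) a b c d h7 g hg
    exact ⟨1, e', Or.inl rfl, he', hX⟩
  · obtain ⟨a, b, c, d, h1, h2, h3, h4, h5, h6, h7⟩ :=
      GP.core (fun x => -1 * f x) (continuous_const.mul hf) t₁ t₂ t₃ t₄ h12 h34
        (by simp only [h14]) (by simp only [h23]) (by linarith)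
    refine ⟨a, b, c, d, h1, h2, h3, h4, h5, h6, fun g _ hg => ?_⟩
    obtain ⟨e', he', hX⟩ := GP.signs (fun x => -1 * f x) a b c d h7 g hg
    exact ⟨-1, e', Or.inr rfl, he', hX⟩

end Pool.Agent.H994.GL
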