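import Pool.Agent.H994.BM.Stm2

/-!
From the support of a measure on the curves to a linear space of real functions.
-/

set_option autoImplicit false

open MeasureTheory ProbabilityTheory Filter Topology
open scoped NNReal ENNReal unitInterval

namespace Pool.Agent.H994.GL

namespace GS

theorem cv_apply (f g : C(I, ℝ)) (x : I) : cv f g x = (f x : ℂ) + (g x : ℂ) * Complex.I := rfl

/-- the real part of a curve -/
noncomputable def rp (γ : C(I, ℂ)) : C(I, ℝ) :=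
  ⟨fun x => (γ x).re, Complex.continuous_re.comp γ.continuous⟩

/-- the imaginary part of a curve -/
noncomputable def jp (γ : C(I, ℂ)) : C(I, ℝ) :=
  ⟨fun x => (γ x).im, Complex.continuous_im.comp γ.continuous⟩

theorem rp_apply (γ : C(I, ℂ)) (x : I) : rp γ x = (γ x).re := rfl

theorem jp_apply (γ : C(I, ℂ)) (x : I) : jp γ x = (γ x).im := rfl

theorem cv_rp (γ : C(I, ℂ)) : cv (rp γ) 0 = (1 / 2 : ℝ) • γ + (1 / 2 : ℝ) • star γ := by
  ext x
  show (((γ x).re : ℝ) : ℂ) + ((0 : ℝ) : ℂ) * Complex.I =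
    (1 / 2 : ℝ) • γ x + (1 / 2 : ℝ) • star (γ x)
  apply Complex.ext
  · simp
    ring
  · simp

theorem cv_jp (γ : C(I, ℂ)) : cv (jp γ) 0 =
    (-(1 / 2) : ℝ) • (Complex.I • γ) + (-(1 / 2) : ℝ) • star (Complex.I • γ) := by
  ext x
  show (((γ x).im : ℝ) : ℂ) + ((0 : ℝ) : ℂ) * Complex.I =
    (-(1 / 2) : ℝ) • (Complex.I • γ x) + (-(1 / 2) : ℝ) • star (Complex.I • γ x)
  apply Complex.ext
  · simp
    ring
  · simp

theorem mem_congr {S : Set C(I, ℂ)} {γ γ' : C(I, ℂ)} (e : γ = γ') (h : γ' ∈ S) : γ ∈ S := e ▸ h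

end GS

open GS in
/-- from the support of the measure to the linear space -/
theorem t_supp (h : S_lin) : S_supp := by
  intro _ _ ν _ hI hs hlin hcl u v huv
  have hae : ν.support ∈ ae ν := Measure.support_mem_ae
  have hsub : ν.support ⊆ closure {γ : C(I, ℂ) | Function.Injective γ} :=
    Measure.support_subset_of_isClosed isClosed_closure (by rw [mem_ae_iff]; exact hcl)
  obtain ⟨γ₀, hγ₀⟩ := Measure.nonempty_support (IsProbabilityMeasure.ne_zero ν)
  have h0 : (0 : C(I, ℂ)) ∈ ν.support := by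
    refine mem_congr ?_ (hlin γ₀ hγ₀ γ₀ hγ₀ 0 0)
    ext x
    show (0 : ℂ) = (0 : ℝ) • γ₀ x + (0 : ℝ) • γ₀ x
    simp
  obtain ⟨T, hTmem⟩ : ∃ T : Submodule ℝ C(I, ℝ), ∀ f, f ∈ T ↔ cv f 0 ∈ ν.support := by
    refine ⟨{ carrier := {f | cv f 0 ∈ ν.support}, add_mem' := ?_, zero_mem' := ?_,
              smul_mem' := ?_ }, fun f => Iff.rfl⟩
    · intro f g hf hg
      refine mem_congr (γ := cv (f + g) 0) ?_ (hlin _ hf _ hg 1 1)
      ext x
      show ((f x + g x : ℝ) : ℂ) + ((0 : ℝ) : ℂ) * Complex.I =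
        (1 : ℝ) • ((f x : ℂ) + ((0 : ℝ) : ℂ) * Complex.I) +
          (1 : ℝ) • ((g x : ℂ) + ((0 : ℝ) : ℂ) * Complex.I)
      simp
    · refine mem_congr (γ := cv (0 : C(I, ℝ)) 0) ?_ h0
      ext x
      show ((0 : ℝ) : ℂ) + ((0 : ℝ) : ℂ) * Complex.I = 0
      simp
    · intro r f hf
      refine mem_congr (γ := cv (r • f) 0) ?_ (hlin _ hf _ hf r 0)
      ext x
      show ((r * f x : ℝ) : ℂ) + ((0 : ℝ) : ℂ) * Complex.I =
        r • ((f x : ℂ) + ((0 : ℝ) : ℂ) * Complex.I) +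
          (0 : ℝ) • ((f x : ℂ) + ((0 : ℝ) : ℂ) * Complex.I)
      simp
  have hT : ∀ f ∈ T, ∀ g ∈ T, cv f g ∈ closure {γ : C(I, ℂ) | Function.Injective γ} := by
    intro f hf g hg
    rw [hTmem] at hf hg
    refine mem_congr (γ := cv f g) ?_ (hsub (hlin _ hf _ (hI _ hg) 1 1))
    ext x
    show (f x : ℂ) + (g x : ℂ) * Complex.I =
      (1 : ℝ) • ((f x : ℂ) + ((0 : ℝ) : ℂ) * Complex.I) +
        (1 : ℝ) • (Complex.I • ((g x : ℂ) + ((0 : ℝ) : ℂ) * Complex.I))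
    simp
    ring
  obtain ⟨a, b, c, d, k1, k2, k3, k4, k5, α, β, δ, hne, hrel⟩ := h T hT u v huv
  refine ⟨a, b, c, d, k1, k2, k3, k4, k5, α, β, δ, hne, ?_⟩
  filter_upwards [hae] with γ hγ
  have hre : rp γ ∈ T := by
    rw [hTmem]
    exact mem_congr (cv_rp γ) (hlin _ hγ _ (hs _ hγ) _ _)
  have him : jp γ ∈ T := by
    rw [hTmem]
    exact mem_congr (cv_jp γ) (hlin _ (hI _ hγ) _ (hs _ (hI _ hγ)) _ _)
  have e1 := hrel _ hre
  have e2 := hrel _ him
  simp only [rp_apply] at e1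
  simp only [jp_apply] at e2
  apply Complex.ext
  · simpa using e1
  · simpa using e2

end Pool.Agent.H994.GL
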