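import Pool.Agent.H994.BM.Stm2

/-!
# G1: the crossing lemma
-/

set_option autoImplicit false

namespace Pool.Agent.H994.GL

namespace GX

open Pool.Agent.H986.EV

/-- first coordinate of the extended map -/
def e1 (f l r p q : ℝ) : ℝ :=
  (1 - l - r) * (1 - p - q) * f + l * (1 - p - q) - r * (1 - p - q) + p * (1 - l - r) -
    q * (1 - l - r) + l * p - r * q

/-- second coordinate of the extended map -/
def e2 (f l r p q : ℝ) : ℝ :=
  (1 - l - r) * (1 - p - q) * f - l * (1 - p - q) + r * (1 - p - q) + p * (1 - l - r) -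
    q * (1 - l - r) - l * q + r * p

/-- a zero on the side `l` -/
theorem side_l (f1 f2 l : ℝ) (h0 : 0 < l) (h1 : l ≤ 1) (hf : 0 < f1 ∨ f2 < 0)
    (g1 : e1 f1 l 0 0 0 = 0) (g2 : e2 f2 l 0 0 0 = 0) : False := by
  unfold e1 at g1
  unfold e2 at g2
  rcases hf with h | h
  · nlinarith [mul_nonneg (sub_nonneg.mpr h1) h.le]
  · nlinarith [mul_nonneg (sub_nonneg.mpr h1) (neg_pos.mpr h).le]

theorem side_r (f1 f2 r : ℝ) (h0 : 0 < r) (h1 : r ≤ 1) (hf : f1 < 0 ∨ 0 < f2)
    (g1 : e1 f1 0 r 0 0 = 0) (g2 : e2 f2 0 r 0 0 = 0) : False := by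
  unfold e1 at g1
  unfold e2 at g2
  rcases hf with h | h
  · nlinarith [mul_nonneg (sub_nonneg.mpr h1) (neg_pos.mpr h).le]
  · nlinarith [mul_nonneg (sub_nonneg.mpr h1) h.le]

theorem side_p (f1 f2 p : ℝ) (h0 : 0 < p) (h1 : p ≤ 1) (hf : 0 < f1 ∨ 0 < f2)
    (g1 : e1 f1 0 0 p 0 = 0) (g2 : e2 f2 0 0 p 0 = 0) : False := by
  unfold e1 at g1
  unfold e2 at g2
  rcases hf with h | h
  · nlinarith [mul_nonneg (sub_nonneg.mpr h1) h.le]
  · nlinarith [mul_nonneg (sub_nonneg.mpr h1) h.le]

theorem side_q (f1 f2 q : ℝ) (h0 : 0 < q) (h1 : q ≤ 1) (hf : f1 < 0 ∨ f2 < 0)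
    (g1 : e1 f1 0 0 0 q = 0) (g2 : e2 f2 0 0 0 q = 0) : False := by
  unfold e1 at g1
  unfold e2 at g2
  rcases hf with h | h
  · nlinarith [mul_nonneg (sub_nonneg.mpr h1) (neg_pos.mpr h).le]
  · nlinarith [mul_nonneg (sub_nonneg.mpr h1) (neg_pos.mpr h).le]

theorem corner_pos (f l p : ℝ) (h0 : 0 < l) (h1 : l ≤ 1) (h2 : 0 < p) (h3 : p ≤ 1) (hf : 0 < f) :
    0 < (1 - l) * (1 - p) * f + l * (1 - p) + p * (1 - l) + l * p := by
  have a1 : 0 ≤ (1 - l) * (1 - p) * f :=
    mul_nonneg (mul_nonneg (by linarith) (by linarith)) hf.le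
  have a2 : 0 ≤ l * (1 - p) := mul_nonneg h0.le (by linarith)
  have a3 : 0 ≤ p * (1 - l) := mul_nonneg h2.le (by linarith)
  have a4 : 0 < l * p := mul_pos h0 h2
  linarith

end GX

open GX Pool.Agent.H986.EV in
theorem t_x : S_x := by
  intro w hw a b c d hab hcd hX
  obtain ⟨h1, h2, h3, h4⟩ := hX
  let S : ℝ → ℝ := fun X => a + (b - a) * (cp X + 1) / 2
  let T : ℝ → ℝ := fun Y => c + (d - c) * (cp Y + 1) / 2
  have hSm : ∀ X, S X ∈ Set.Icc a b := by
    intro X
    obtain ⟨k1, k2⟩ := cp_mem X
    constructor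
    · have : 0 ≤ (b - a) * (cp X + 1) := mul_nonneg (by linarith) (by linarith)
      simp only [S]
      linarith
    · have : (b - a) * (cp X + 1) ≤ (b - a) * 2 := mul_le_mul_of_nonneg_left (by linarith) (by linarith)
      simp only [S]
      linarith
  have hTm : ∀ Y, T Y ∈ Set.Icc c d := by
    intro Y
    obtain ⟨k1, k2⟩ := cp_mem Y
    constructor
    · have : 0 ≤ (d - c) * (cp Y + 1) := mul_nonneg (by linarith) (by linarith)
      simp only [T]
      linarith
    · have : (d - c) * (cp Y + 1) ≤ (d - c) * 2 := mul_le_mul_of_nonneg_left (by linarith) (by linarith)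
      simp only [T]
      linarith
  have hSl : ∀ X, X ≤ -1 → S X = a := by
    intro X hX
    simp only [S]
    rw [cp_neg_one hX]
    ring
  have hSr : ∀ X, 1 ≤ X → S X = b := by
    intro X hX
    simp only [S]
    rw [cp_one hX]
    ring
  have hTl : ∀ X, X ≤ -1 → T X = c := by
    intro X hX
    simp only [T]
    rw [cp_neg_one hX]
    ring
  have hTr : ∀ X, 1 ≤ X → T X = d := by
    intro X hX
    simp only [T]
    rw [cp_one hX]
    ring
  have hSc : Continuous S := by
    simp only [S]
    fun_prop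
  have hTc : Continuous T := by
    simp only [T]
    fun_prop
  let f1 : ℝ × ℝ → ℝ := fun z => (w (T z.2)).re - (w (S z.1)).re
  let f2 : ℝ × ℝ → ℝ := fun z => (w (T z.2)).im - (w (S z.1)).im
  let L : ℝ → ℝ := fun x => max 0 (-1 - x)
  let R : ℝ → ℝ := fun x => max 0 (x - 1)
  have hf1 : Continuous f1 :=
    (Complex.continuous_re.comp (hw.comp (hTc.comp continuous_snd))).sub
      (Complex.continuous_re.comp (hw.comp (hSc.comp continuous_fst)))
  have hf2 : Continuous f2 :=
    (Complex.continuous_im.comp (hw.comp (hTc.comp continuous_snd))).sub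
      (Complex.continuous_im.comp (hw.comp (hSc.comp continuous_fst)))
  have hL : Continuous L := by
    simp only [L]
    fun_prop
  have hR : Continuous R := by
    simp only [R]
    fun_prop
  let E1 : ℝ × ℝ → ℝ := fun z => e1 (f1 z) (L z.1) (R z.1) (L z.2) (R z.2)
  let E2 : ℝ × ℝ → ℝ := fun z => e2 (f2 z) (L z.1) (R z.1) (L z.2) (R z.2)
  have hLx : Continuous fun z : ℝ × ℝ => L z.1 := hL.comp continuous_fst
  have hRx : Continuous fun z : ℝ × ℝ => R z.1 := hR.comp continuous_fst
  have hLy : Continuous fun z : ℝ × ℝ => L z.2 := hL.comp continuous_snd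
  have hRy : Continuous fun z : ℝ × ℝ => R z.2 := hR.comp continuous_snd
  have hE1 : Continuous E1 := by
    simp only [E1, e1]
    fun_prop
  have hE2 : Continuous E2 := by
    simp only [E2, e2]
    fun_prop
  have hsc : Continuous (fun z : ℝ × ℝ => (2 * z.1, 2 * z.2)) := by fun_prop
  have hE1' : Continuous (fun z : ℝ × ℝ => E1 (2 * z.1, 2 * z.2)) := hE1.comp hsc
  have hE2' : Continuous (fun z : ℝ × ℝ => E2 (2 * z.1, 2 * z.2)) := hE2.comp hsc
  have hL0 : ∀ x, 0 ≤ L x := fun x => le_max_left _ _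
  have hR0 : ∀ x, 0 ≤ R x := fun x => le_max_left _ _
  have hL1 : ∀ x, -2 ≤ x → L x ≤ 1 := fun x hx => max_le (by norm_num) (by linarith)
  have hR1 : ∀ x, x ≤ 2 → R x ≤ 1 := fun x hx => max_le (by norm_num) (by linarith)
  have hLz : ∀ x, -1 ≤ x → L x = 0 := fun x hx => max_eq_left (by linarith)
  have hRz : ∀ x, x ≤ 1 → R x = 0 := fun x hx => max_eq_left (by linarith)
  have hLe : ∀ x, x ≤ -1 → L x = -1 - x := fun x hx => max_eq_right (by linarith)
  have hRe : ∀ x, 1 ≤ x → R x = x - 1 := fun x hx => max_eq_right (by linarith)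
  have hLR : ∀ x, -2 ≤ x → x ≤ 2 → L x + R x ≤ 1 := by
    intro x hx1 hx2
    rcases le_total x 0 with h | h
    · rw [hRz x (by linarith), add_zero]
      exact hL1 x hx1
    · rw [hLz x (by linarith), zero_add]
      exact hR1 x hx2
  obtain ⟨z, hz, hz1, hz2⟩ := pm_square
    (fun z => -(E1 (2 * z.1, 2 * z.2) - E2 (2 * z.1, 2 * z.2)))
    (fun z => -(E1 (2 * z.1, 2 * z.2) + E2 (2 * z.1, 2 * z.2)))
    (hE1'.sub hE2').neg (hE1'.add hE2').neg
    (by
      intro v hv
      have k1 := hLR (2 * v) (by linarith [hv.1]) (by linarith [hv.2])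
      have k2 := hL0 (2 * v)
      have k3 := hR0 (2 * v)
      simp only [E1, E2, e1, e2]
      rw [hLe (2 * -1) (by norm_num), hRz (2 * -1) (by norm_num)]
      norm_num
      nlinarith)
    (by
      intro v hv
      have k1 := hLR (2 * v) (by linarith [hv.1]) (by linarith [hv.2])
      have k2 := hL0 (2 * v)
      have k3 := hR0 (2 * v)
      simp only [E1, E2, e1, e2]
      rw [hLz (2 * 1) (by norm_num), hRe (2 * 1) (by norm_num)]
      norm_num
      nlinarith)
    (by
      intro v hv
      have k1 := hLR (2 * v) (by linarith [hv.1]) (by linarith [hv.2])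
      have k2 := hL0 (2 * v)
      have k3 := hR0 (2 * v)
      simp only [E1, E2, e1, e2]
      rw [hLe (2 * -1) (by norm_num), hRz (2 * -1) (by norm_num)]
      norm_num
      nlinarith)
    (by
      intro v hv
      have k1 := hLR (2 * v) (by linarith [hv.1]) (by linarith [hv.2])
      have k2 := hL0 (2 * v)
      have k3 := hR0 (2 * v)
      simp only [E1, E2, e1, e2]
      rw [hLz (2 * 1) (by norm_num), hRe (2 * 1) (by norm_num)]
      norm_num
      nlinarith)
  obtain ⟨⟨hx1, hx2⟩, ⟨hy1, hy2⟩⟩ := hz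
  have g1 : E1 (2 * z.1, 2 * z.2) = 0 := by linarith
  have g2 : E2 (2 * z.1, 2 * z.2) = 0 := by linarith
  set x := 2 * z.1 with hx
  set y := 2 * z.2 with hy
  have hx1' : -2 ≤ x := by rw [hx]; linarith
  have hx2' : x ≤ 2 := by rw [hx]; linarith
  have hy1' : -2 ≤ y := by rw [hy]; linarith
  have hy2' : y ≤ 2 := by rw [hy]; linarith
  have g1' : e1 ((w (T y)).re - (w (S x)).re) (L x) (R x) (L y) (R y) = 0 := g1
  have g2' : e2 ((w (T y)).im - (w (S x)).im) (L x) (R x) (L y) (R y) = 0 := g2
  have hac : (w a).re < (w c).re := by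
    rcases h1 c ⟨le_rfl, hcd⟩ with h | h
    · exact h
    · rcases h2 a ⟨le_rfl, hab⟩ with h' | h'
      · exact h'
      · linarith
  have had : (w d).im < (w a).im := by
    rcases h1 d ⟨hcd, le_rfl⟩ with h | h
    · rcases h4 a ⟨le_rfl, hab⟩ with h' | h'
      · linarith
      · exact h'
    · exact h
  have hbc : (w b).im < (w c).im := by
    rcases h3 c ⟨le_rfl, hcd⟩ with h | h
    · rcases h2 b ⟨hab, le_rfl⟩ with h' | h'
      · linarith
      · exact h'
    · exact h
  have hbd : (w d).re < (w b).re := by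
    rcases h3 d ⟨hcd, le_rfl⟩ with h | h
    · exact h
    · rcases h4 b ⟨hab, le_rfl⟩ with h' | h'
      · exact h'
      · linarith
  rcases lt_or_ge x (-1) with cx | cx
  · -- left
    have hl0 : 0 < L x := by rw [hLe x cx.le]; linarith
    have hl1 := hL1 x hx1'
    rw [hSl x cx.le, hRz x (by linarith)] at g1' g2'
    rcases lt_or_ge y (-1) with cy | cy
    · rw [hTl y cy.le, hRz y (by linarith)] at g1'
      have hp0 : 0 < L y := by rw [hLe y cy.le]; linarith
      have := corner_pos ((w c).re - (w a).re) (L x) (L y) hl0 hl1 hp0 (hL1 y hy1') (by linarith)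
      unfold e1 at g1'
      linarith
    · rcases lt_or_ge 1 y with cy' | cy'
      · rw [hTr y cy'.le, hLz y (by linarith)] at g2'
        have hq0 : 0 < R y := by rw [hRe y cy'.le]; linarith
        have := corner_pos (-((w d).im - (w a).im)) (L x) (R y) hl0 hl1 hq0 (hR1 y hy2') (by linarith)
        unfold e2 at g2'
        linarith
      · rw [hLz y cy, hRz y cy'] at g1' g2'
        refine (side_l _ _ (L x) hl0 hl1 ?_ g1' g2').elim
        rcases h1 (T y) (hTm y) with h | h
        · left; linarith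
        · right; linarith
  · rcases lt_or_ge 1 x with cx' | cx'
    · -- right
      have hr0 : 0 < R x := by rw [hRe x cx'.le]; linarith
      have hr1 := hR1 x hx2'
      rw [hSr x cx'.le, hLz x (by linarith)] at g1' g2'
      rcases lt_or_ge y (-1) with cy | cy
      · rw [hTl y cy.le, hRz y (by linarith)] at g2'
        have hp0 : 0 < L y := by rw [hLe y cy.le]; linarith
        have := corner_pos ((w c).im - (w b).im) (R x) (L y) hr0 hr1 hp0 (hL1 y hy1') (by linarith)
        unfold e2 at g2'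
        linarith
      · rcases lt_or_ge 1 y with cy' | cy'
        · rw [hTr y cy'.le, hLz y (by linarith)] at g1'
          have hq0 : 0 < R y := by rw [hRe y cy'.le]; linarith
          have := corner_pos (-((w d).re - (w b).re)) (R x) (R y) hr0 hr1 hq0 (hR1 y hy2') (by linarith)
          unfold e1 at g1'
          linarith
        · rw [hLz y cy, hRz y cy'] at g1' g2'
          refine (side_r _ _ (R x) hr0 hr1 ?_ g1' g2').elim
          rcases h3 (T y) (hTm y) with h | h
          · left; linarith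
          · right; linarith
    · -- middle
      rw [hLz x cx, hRz x cx'] at g1' g2'
      rcases lt_or_ge y (-1) with cy | cy
      · rw [hTl y cy.le, hRz y (by linarith)] at g1' g2'
        have hp0 : 0 < L y := by rw [hLe y cy.le]; linarith
        refine (side_p _ _ (L y) hp0 (hL1 y hy1') ?_ g1' g2').elim
        rcases h2 (S x) (hSm x) with h | h
        · left; linarith
        · right; linarith
      · rcases lt_or_ge 1 y with cy' | cy'
        · rw [hTr y cy'.le, hLz y (by linarith)] at g1' g2'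
          have hq0 : 0 < R y := by rw [hRe y cy'.le]; linarith
          refine (side_q _ _ (R y) hq0 (hR1 y hy2') ?_ g1' g2').elim
          rcases h4 (S x) (hSm x) with h | h
          · left; linarith
          · right; linarith
        · rw [hLz y cy, hRz y cy'] at g1' g2'
          refine ⟨S x, hSm x, T y, hTm y, ?_⟩
          unfold e1 at g1'
          unfold e2 at g2'
          apply Complex.ext <;> linarith

end Pool.Agent.H994.GL
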