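import Pool.Agent.H994.BM.Stm2
import Pool.Agent.H994.BM.GX
import Pool.Agent.H994.BM.GC
import Pool.Agent.H994.BM.GP
import Pool.Agent.H994.BM.GL
import Pool.Agent.H994.BM.GS

/-!
The two strand form of G4 and G5: for all `t₁ < t₂ < t₃ < t₄` the dependent increments are found
with `a, b` in `[t₁, t₂]` and `c, d` in `[t₃, t₄]`.
-/

set_option autoImplicit false

open MeasureTheory ProbabilityTheory Filter Topology
open scoped NNReal ENNReal unitInterval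

namespace Pool.Agent.H994.GL

open Pool.Agent.H994.GL.GL in
/-- G4, two strands -/
theorem t_lin2 (h1 : S_xclosure) (h2 : S_pattern) (T : Submodule ℝ C(I, ℝ))
    (hT : ∀ f ∈ T, ∀ g ∈ T, cv f g ∈ closure {γ : C(I, ℂ) | Function.Injective γ})
    (t1 t2 t3 t4 : I) (l1 : t1 < t2) (l2 : t2 < t3) (l3 : t3 < t4) :
    ∃ a b c d : I, t1 ≤ a ∧ a < b ∧ b ≤ t2 ∧ t3 ≤ c ∧ c < d ∧ d ≤ t4 ∧
      ∃ α β δ : ℝ, (α, β, δ) ≠ (0, 0, 0) ∧
        ∀ f ∈ T, α * (f b - f a) + β * (f c - f b) + δ * (f d - f c) = 0 := by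
  have l1' : (t1 : ℝ) < t2 := l1
  have l2' : (t2 : ℝ) < t3 := l2
  have l3' : (t3 : ℝ) < t4 := l3
  have hu0 := t1.2.1
  have hv1 := t4.2.2
  rcases la T t1 t2 t3 t4 with h | h
  · exact ⟨t1, t2, t3, t4, le_refl _, l1, le_refl _, le_refl _, l3, le_refl _, h⟩
  · obtain ⟨f, hf, f1, f2, f3⟩ := h 1 0 (-1)
    obtain ⟨a, b, c, d, k1, k2, k3, k4, k5, k6, hk⟩ := h2 (er f) (er_cont f) t1 t2 t3 t4 l1' l2' l3'
      (by rw [er_val, er_val]; linarith) (by rw [er_val, er_val]; linarith)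
      (by rw [er_val, er_val]; intro h0; linarith)
    have hbc : b < c := by linarith
    set a' : I := ⟨a, by constructor <;> linarith⟩ with ha'
    set b' : I := ⟨b, by constructor <;> linarith⟩ with hb'
    set c' : I := ⟨c, by constructor <;> linarith⟩ with hc'
    set d' : I := ⟨d, by constructor <;> linarith⟩ with hd'
    rcases la T a' b' c' d' with h' | h'
    · exact ⟨a', b', c', d', k1, k2, k3, k4, k5, k6, h'⟩
    · exfalso
      obtain ⟨g, hg, g1, g2, g3⟩ := h' (-2) 1 0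
      have ea : er g a = g a' := er_val g a'
      have eb : er g b = g b' := er_val g b'
      have ec : er g c = g c' := er_val g c'
      have ed : er g d = g d' := er_val g d'
      obtain ⟨s, s', -, -, hX⟩ := hk (er g) (er_cont g) (by
        rw [ea, eb, ec, ed]
        have q1 : g d' - g a' = -1 := by linarith
        rw [q1, g2]
        norm_num)
      have hw : (fun x => ((s * er f x : ℝ) : ℂ) + ((s' * er g x : ℝ) : ℂ) * Complex.I) =
          Pool.Agent.H986.EV.ev (cv (s • f) (s' • g)) := by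
        funext x
        rfl
      rw [hw] at hX
      exact h1 (cv (s • f) (s' • g)) a b c d (by linarith) k2.le hbc k5.le (by linarith) hX
        (hT _ (T.smul_mem s hf) _ (T.smul_mem s' hg))

open GS in
/-- G5, two strands -/
theorem t_supp2 (_ : MeasurableSpace C(I, ℂ)) (_ : BorelSpace C(I, ℂ))
    (ν : Measure C(I, ℂ)) (_ : IsProbabilityMeasure ν)
    (hI : ∀ γ ∈ ν.support, Complex.I • γ ∈ ν.support) (hs : ∀ γ ∈ ν.support, star γ ∈ ν.support)
    (hlin : ∀ γ ∈ ν.support, ∀ γ' ∈ ν.support, ∀ c c' : ℝ, c • γ + c' • γ' ∈ ν.support)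
    (hcl : ν (closure {γ : C(I, ℂ) | Function.Injective γ})ᶜ = 0)
    (t1 t2 t3 t4 : I) (l1 : t1 < t2) (l2 : t2 < t3) (l3 : t3 < t4) :
    ∃ a b c d : I, t1 ≤ a ∧ a < b ∧ b ≤ t2 ∧ t3 ≤ c ∧ c < d ∧ d ≤ t4 ∧
    ∃ α β δ : ℝ, (α, β, δ) ≠ (0, 0, 0) ∧
      ∀ᵐ γ ∂ν, (α : ℂ) * (γ b - γ a) + (β : ℂ) * (γ c - γ b) + (δ : ℂ) * (γ d - γ c) = 0 := by
  have hae : ν.support ∈ ae ν := Measure.support_mem_ae
  have hsub : ν.support ⊆ closure {γ : C(I, ℂ) | Function.Injective γ} :=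
    Measure.support_subset_of_isClosed isClosed_closure (by rw [mem_ae_iff]; exact hcl)
  obtain ⟨γ₀, hγ₀⟩ := Measure.nonempty_support (IsProbabilityMeasure.ne_zero ν)
  have h0 : (0 : C(I, ℂ)) ∈ ν.support := by
    refine mem_congr ?_ (hlin γ₀ hγ₀ γ₀ hγ₀ 0 0)
    ext x
    show (0 : ℂ) = (0 : ℝ) • γ₀ x + (0 : ℝ) • γ₀ x
    simp
  obtain ⟨T, hTmem⟩ : ∃ T : Submodule ℝ C(I, ℝ), ∀ f, f ∈ T ↔ cv f 0 ∈ ν.support := by
    refine ⟨{ carrier := {f | cv f 0 ∈ ν.support}, add_mem' := ?_, zero_mem' := ?_,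
              smul_mem' := ?_ }, fun f => Iff.rfl⟩
    · intro f g hf hg
      refine mem_congr (γ := cv (f + g) 0) ?_ (hlin _ hf _ hg 1 1)
      ext x
      show ((f x + g x : ℝ) : ℂ) + ((0 : ℝ) : ℂ) * Complex.I =
        (1 : ℝ) • ((f x : ℂ) + ((0 : ℝ) : ℂ) * Complex.I) +
          (1 : ℝ) • ((g x : ℂ) + ((0 : ℝ) : ℂ) * Complex.I)
      simp
    · refine mem_congr (γ := cv (0 : C(I, ℝ)) 0) ?_ h0
      ext x
      show ((0 : ℝ) : ℂ) + ((0 : ℝ) : ℂ) * Complex.I = 0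
      simp
    · intro r f hf
      refine mem_congr (γ := cv (r • f) 0) ?_ (hlin _ hf _ hf r 0)
      ext x
      show ((r * f x : ℝ) : ℂ) + ((0 : ℝ) : ℂ) * Complex.I =
        r • ((f x : ℂ) + ((0 : ℝ) : ℂ) * Complex.I) +
          (0 : ℝ) • ((f x : ℂ) + ((0 : ℝ) : ℂ) * Complex.I)
      simp
  have hT : ∀ f ∈ T, ∀ g ∈ T, cv f g ∈ closure {γ : C(I, ℂ) | Function.Injective γ} := by
    intro f hf g hg
    rw [hTmem] at hf hg
    refine mem_congr (γ := cv f g) ?_ (hsub (hlin _ hf _ (hI _ hg) 1 1))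
    ext x
    show (f x : ℂ) + (g x : ℂ) * Complex.I =
      (1 : ℝ) • ((f x : ℂ) + ((0 : ℝ) : ℂ) * Complex.I) +
        (1 : ℝ) • (Complex.I • ((g x : ℂ) + ((0 : ℝ) : ℂ) * Complex.I))
    simp
    ring
  obtain ⟨a, b, c, d, k1, k2, k3, k4, k5, k6, α, β, δ, hne, hrel⟩ :=
    t_lin2 (t_xclosure t_x) t_pattern T hT t1 t2 t3 t4 l1 l2 l3
  refine ⟨a, b, c, d, k1, k2, k3, k4, k5, k6, α, β, δ, hne, ?_⟩
  filter_upwards [hae] with γ hγ
  have hre : rp γ ∈ T := by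
    rw [hTmem]
    exact mem_congr (cv_rp γ) (hlin _ hγ _ (hs _ hγ) _ _)
  have him : jp γ ∈ T := by
    rw [hTmem]
    exact mem_congr (cv_jp γ) (hlin _ (hI _ hγ) _ (hs _ (hI _ hγ)) _ _)
  have e1 := hrel _ hre
  have e2 := hrel _ him
  simp only [rp_apply] at e1
  simp only [jp_apply] at e2
  apply Complex.ext
  · simpa using e1
  · simpa using e2

end Pool.Agent.H994.GL
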