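import Pool.Agent.H994.BM.Stm4

/-!
The increments of a fractional Brownian motion over disjoint intervals are linearly independent.
-/

set_option autoImplicit false

open MeasureTheory

namespace Pool.Agent.H994.FB.GF

theorem cov_pos {s t p : ℝ} (hs : 0 < s) (ht : 0 < t) (hp : 0 < p) :
    0 < (s ^ p + t ^ p - |s - t| ^ p) / 2 := by
  have hsp : 0 < s ^ p := Real.rpow_pos_of_pos hs p
  have htp : 0 < t ^ p := Real.rpow_pos_of_pos ht p
  rcases le_total s t with h | h
  · have h1 : |s - t| ≤ t := by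
      rw [abs_sub_comm, abs_of_nonneg (by linarith)]
      linarith
    have h2 : |s - t| ^ p ≤ t ^ p := Real.rpow_le_rpow (abs_nonneg _) h1 hp.le
    linarith
  · have h1 : |s - t| ≤ s := by
      rw [abs_of_nonneg (by linarith)]
      linarith
    have h2 : |s - t| ^ p ≤ s ^ p := Real.rpow_le_rpow (abs_nonneg _) h1 hp.le
    linarith

theorem no_rel {Ω : Type} [MeasurableSpace Ω] (P : Measure Ω) (hc : S_cnd) (n : ℕ)
    (t c : Fin n → ℝ) (p : ℝ) (hp0 : 0 < p) (hp2 : p < 2) (ht : Function.Injective t)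
    (htpos : ∀ i, 0 < t i) (hne : c ≠ 0) (hsum : ∑ i, c i = 0) (X : Fin n → Ω → ℝ)
    (hcov : ∀ i j, ∫ ω, X i ω * X j ω ∂P = (t i ^ p + t j ^ p - |t i - t j| ^ p) / 2)
    (hrel : ∀ᵐ ω ∂P, ∑ i, c i * X i ω = 0) : False := by
  have hint : ∀ i j, Integrable (fun ω => X i ω * X j ω) P := by
    intro i j
    by_contra h
    have h1 := hcov i j
    rw [integral_undef h] at h1
    exact (cov_pos (htpos i) (htpos j) hp0).ne h1
  have h1 : ∀ j, ∑ i, c i * ((t i ^ p + t j ^ p - |t i - t j| ^ p) / 2) = 0 := by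
    intro j
    have h2 : ∫ ω, ∑ i, c i * (X i ω * X j ω) ∂P = 0 := by
      rw [integral_eq_zero_of_ae]
      filter_upwards [hrel] with ω hω
      have : ∑ i, c i * (X i ω * X j ω) = (∑ i, c i * X i ω) * X j ω := by
        rw [Finset.sum_mul]
        exact Finset.sum_congr rfl fun i _ => by ring
      rw [this, hω]
      simp
    rw [integral_finset_sum _ (fun i _ => (hint i j).const_mul (c i))] at h2
    rw [← h2]
    refine Finset.sum_congr rfl fun i _ => ?_
    rw [integral_const_mul, hcov]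
  have h3 : ∑ i, ∑ j, c i * c j * |t i - t j| ^ p = 0 := by
    have h4 : ∑ j, c j * ∑ i, c i * ((t i ^ p + t j ^ p - |t i - t j| ^ p) / 2) = 0 :=
      Finset.sum_eq_zero fun j _ => by rw [h1 j, mul_zero]
    have h5 : ∑ j, c j * ∑ i, c i * ((t i ^ p + t j ^ p - |t i - t j| ^ p) / 2) =
        ((∑ j, c j) * (∑ i, c i * t i ^ p) + (∑ i, c i) * (∑ j, c j * t j ^ p) -
          ∑ i, ∑ j, c i * c j * |t i - t j| ^ p) / 2 := by
      have e1 : ∀ j, c j * ∑ i, c i * ((t i ^ p + t j ^ p - |t i - t j| ^ p) / 2) =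
          (c j * (∑ i, c i * t i ^ p) + (∑ i, c i) * (c j * t j ^ p) -
            ∑ i, c i * c j * |t i - t j| ^ p) / 2 := by
        intro j
        rw [Finset.mul_sum, Finset.mul_sum, Finset.sum_mul, ← Finset.sum_add_distrib,
          ← Finset.sum_sub_distrib, Finset.sum_div]
        exact Finset.sum_congr rfl fun i _ => by ring
      rw [Finset.sum_congr rfl fun j _ => e1 j, ← Finset.sum_div, Finset.sum_sub_distrib,
        Finset.sum_add_distrib, ← Finset.sum_mul, ← Finset.mul_sum,
        Finset.sum_comm (f := fun j i => c i * c j * |t i - t j| ^ p)]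
    rw [h5, hsum] at h4
    linarith
  exact (hc n t c p hp0 hp2 ht hne hsum).ne h3

end Pool.Agent.H994.FB.GF
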