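import Pool.Agent.H994.BM.Stm2

/-!
Part `GG` (MP_46f0ca_pr): the support of a symmetric Gaussian measure is a linear space.
-/

set_option autoImplicit false

open MeasureTheory ProbabilityTheory Filter Topology
open scoped NNReal ENNReal unitInterval

namespace Pool.Agent.H994.GL

namespace GG

section

variable {E : Type*} [NormedAddCommGroup E] [NormedSpace ℝ E] [CompleteSpace E]
  [SecondCountableTopology E] [MeasurableSpace E] [BorelSpace E]

theorem rot_mem {ν : Measure E} [IsGaussian ν] (h0 : ∀ L : StrongDual ℝ E, ν[L] = 0) {x y : E}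
    (hx : x ∈ ν.support) (hy : y ∈ ν.support) (θ : ℝ) :
    Real.cos θ • x + Real.sin θ • y ∈ ν.support := by
  rw [Measure.mem_support_iff_forall] at hx hy ⊢
  intro U hU
  obtain ⟨V, hVU, hVo, hVm⟩ := mem_nhds_iff.1 hU
  have hrot := IsGaussian.map_rotation_eq_self_of_forall_strongDual_eq_zero (μ := ν) h0 θ
  have hW : (ContinuousLinearMap.rotation θ : E × E →L[ℝ] E × E) ⁻¹' (V ×ˢ Set.univ) ∈
      𝓝 (x, y) := by
    apply (ContinuousLinearMap.continuous _).continuousAt.preimage_mem_nhds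
    refine (hVo.prod isOpen_univ).mem_nhds ?_
    rw [ContinuousLinearMap.rotation_apply]
    exact ⟨hVm, Set.mem_univ _⟩
  rw [nhds_prod_eq, Filter.mem_prod_iff] at hW
  obtain ⟨A, hA, B, hB, hAB⟩ := hW
  have h1 : (ν.prod ν) (V ×ˢ Set.univ) = ν V := by
    rw [Measure.prod_prod, measure_univ, mul_one]
  have h2 : (ν.prod ν) ((ContinuousLinearMap.rotation θ : E × E →L[ℝ] E × E) ⁻¹'
      (V ×ˢ Set.univ)) = ν V := by
    rw [← Measure.map_apply (ContinuousLinearMap.measurable _)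
      (hVo.measurableSet.prod MeasurableSet.univ), hrot, h1]
  have h3 : 0 < (ν.prod ν) (A ×ˢ B) := by
    rw [Measure.prod_prod]
    exact ENNReal.mul_pos (hx A hA).ne' (hy B hB).ne'
  calc 0 < (ν.prod ν) (A ×ˢ B) := h3
    _ ≤ (ν.prod ν) ((ContinuousLinearMap.rotation θ : E × E →L[ℝ] E × E) ⁻¹'
      (V ×ˢ Set.univ)) := measure_mono hAB
    _ = ν V := h2
    _ ≤ ν U := measure_mono hVU

theorem circ_mem {ν : Measure E} [IsGaussian ν] (h0 : ∀ L : StrongDual ℝ E, ν[L] = 0) {x y : E}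
    (hx : x ∈ ν.support) (hy : y ∈ ν.support) {a b : ℝ} (hab : a ^ 2 + b ^ 2 = 1) :
    a • x + b • y ∈ ν.support := by
  have hz : ‖(⟨a, b⟩ : ℂ)‖ = 1 := by
    rw [Complex.norm_def, Complex.normSq_mk, ← sq, ← sq, hab, Real.sqrt_one]
  have hz0 : (⟨a, b⟩ : ℂ) ≠ 0 := by
    intro h
    rw [h, norm_zero] at hz
    exact zero_ne_one hz
  have h1 := Complex.cos_arg hz0
  have h2 := Complex.sin_arg (⟨a, b⟩ : ℂ)
  rw [hz, div_one] at h1 h2
  have h3 := rot_mem h0 hx hy (Complex.arg ⟨a, b⟩)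
  rw [h1, h2] at h3
  exact h3

theorem small_mem {ν : Measure E} [IsGaussian ν] (h0 : ∀ L : StrongDual ℝ E, ν[L] = 0) {x : E}
    (hx : x ∈ ν.support) {c : ℝ} (hc : |c| ≤ 6 / 5) : c • x ∈ ν.support := by
  have hc2 : c ^ 2 ≤ 36 / 25 := by
    rw [← sq_abs]
    calc |c| ^ 2 ≤ (6 / 5) ^ 2 := pow_le_pow_left₀ (abs_nonneg c) hc 2
      _ = 36 / 25 := by norm_num
  have hs : √(2 - c ^ 2) ^ 2 = 2 - c ^ 2 := Real.sq_sqrt (by linarith)
  have h1 := circ_mem h0 hx hx (a := (c + √(2 - c ^ 2)) / 2) (b := (c - √(2 - c ^ 2)) / 2)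
    (by nlinarith)
  rw [← add_smul] at h1
  have e : (c + √(2 - c ^ 2)) / 2 + (c - √(2 - c ^ 2)) / 2 = c := by ring
  rw [e] at h1
  exact h1

theorem pow_mem {ν : Measure E} [IsGaussian ν] (h0 : ∀ L : StrongDual ℝ E, ν[L] = 0) (k : ℕ) :
    ∀ {x : E}, x ∈ ν.support → ∀ {c : ℝ}, |c| ≤ (6 / 5) ^ k → c • x ∈ ν.support := by
  induction k with
  | zero =>
    intro x hx c hc
    rw [pow_zero] at hc
    exact small_mem h0 hx (hc.trans (by norm_num))
  | succ k ih =>
    intro x hx c hc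
    have h1 : |c / (6 / 5)| ≤ (6 / 5) ^ k := by
      rw [abs_div, abs_of_pos (by norm_num : (0 : ℝ) < 6 / 5), div_le_iff₀ (by norm_num),
        ← pow_succ]
      exact hc
    have h2 := ih hx h1
    have h3 := small_mem h0 h2 (c := 6 / 5) (by rw [abs_of_pos (by norm_num)])
    rw [smul_smul] at h3
    have e : (6 / 5 : ℝ) * (c / (6 / 5)) = c := by field_simp
    rw [e] at h3
    exact h3

theorem smul_mem {ν : Measure E} [IsGaussian ν] (h0 : ∀ L : StrongDual ℝ E, ν[L] = 0) {x : E}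
    (hx : x ∈ ν.support) (c : ℝ) : c • x ∈ ν.support := by
  obtain ⟨k, hk⟩ := pow_unbounded_of_one_lt |c| (by norm_num : (1 : ℝ) < 6 / 5)
  exact pow_mem h0 k hx hk.le

theorem comb_mem {ν : Measure E} [IsGaussian ν] (h0 : ∀ L : StrongDual ℝ E, ν[L] = 0) {x y : E}
    (hx : x ∈ ν.support) (hy : y ∈ ν.support) (c c' : ℝ) : c • x + c' • y ∈ ν.support := by
  by_cases h : c ^ 2 + c' ^ 2 = 0
  · have h1 : c = 0 := by
      have : c ^ 2 = 0 := by nlinarith [sq_nonneg c, sq_nonneg c']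
      exact pow_eq_zero_iff (two_ne_zero) |>.1 this
    have h2 : c' = 0 := by
      have : c' ^ 2 = 0 := by nlinarith [sq_nonneg c, sq_nonneg c']
      exact pow_eq_zero_iff (two_ne_zero) |>.1 this
    rw [h1, h2, zero_smul, zero_smul, add_zero, ← zero_smul ℝ x]
    exact smul_mem h0 hx 0
  · have hpos : 0 < c ^ 2 + c' ^ 2 := lt_of_le_of_ne (by positivity) (Ne.symm h)
    have hr : 0 < √(c ^ 2 + c' ^ 2) := Real.sqrt_pos.2 hpos
    have hr2 : √(c ^ 2 + c' ^ 2) ^ 2 = c ^ 2 + c' ^ 2 := Real.sq_sqrt hpos.le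
    have h1 := circ_mem h0 hx hy (a := c / √(c ^ 2 + c' ^ 2)) (b := c' / √(c ^ 2 + c' ^ 2)) (by
      rw [div_pow, div_pow, hr2, ← add_div, div_self h])
    have h2 := smul_mem h0 h1 (√(c ^ 2 + c' ^ 2))
    rw [smul_add, smul_smul, smul_smul, mul_div_cancel₀ _ hr.ne', mul_div_cancel₀ _ hr.ne'] at h2
    exact h2

end

end GG

open GG in
theorem t_gauss : S_gauss := by
  intro _ _ ν hν hinv x hx y hy c c'
  refine comb_mem (fun L => ?_) hx hy c c'
  have hm : Measurable (fun γ : C(I, ℂ) => Complex.I • γ) :=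
    (continuous_const_smul Complex.I).measurable
  have hL : Continuous (fun γ : C(I, ℂ) => L γ) := L.continuous
  have h1 : ∫ γ, L γ ∂ν = ∫ γ, L (Complex.I • γ) ∂ν := by
    conv_lhs => rw [← hinv]
    exact integral_map hm.aemeasurable hL.aestronglyMeasurable
  have h2 : ∫ γ, L (Complex.I • γ) ∂ν = ∫ γ, L (Complex.I • (Complex.I • γ)) ∂ν := by
    conv_lhs => rw [← hinv]
    exact integral_map hm.aemeasurable
      (hL.comp (continuous_const_smul Complex.I)).aestronglyMeasurable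
  have h3 : ∀ γ : C(I, ℂ), L (Complex.I • (Complex.I • γ)) = - L γ := by
    intro γ
    have e : Complex.I • (Complex.I • γ) = - γ := by
      ext t
      rw [ContinuousMap.smul_apply, ContinuousMap.smul_apply, ContinuousMap.neg_apply, smul_eq_mul,
        smul_eq_mul, ← mul_assoc, Complex.I_mul_I, neg_one_mul]
    rw [e, map_neg]
  simp only [h3] at h2
  rw [integral_neg] at h2
  have h4 : ∫ γ, L γ ∂ν = - ∫ γ, L γ ∂ν := h1.trans h2
  have h5 : ∫ γ, L γ ∂ν = 0 := by linarith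
  exact h5

end Pool.Agent.H994.GL
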