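import Pool.Agent.H994.BM.Stm

set_option autoImplicit false

namespace Pool.Agent.H994.BM

open Set Topology
open scoped unitInterval

/-- The closure of the set of the injective curves is invariant under homeomorphisms of the plane. -/
theorem t_homeo : S_homeo := by
  intro h ζ hζ
  have hc : Continuous fun ξ : C(I, ℂ) => ((⟨h.symm, h.symm.continuous⟩ : C(ℂ, ℂ)).comp ξ) :=
    ContinuousMap.continuous_postcomp _
  have hm : MapsTo (fun ξ : C(I, ℂ) => ((⟨h.symm, h.symm.continuous⟩ : C(ℂ, ℂ)).comp ξ))
      {γ : C(I, ℂ) | Function.Injective γ} {γ : C(I, ℂ) | Function.Injective γ} := by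
    intro γ hγ
    have hγ' : Function.Injective γ := hγ
    show Function.Injective _
    intro x y hxy
    exact hγ' (h.symm.injective hxy)
  have h1 := map_mem_closure hc hζ hm
  have h2 : (⟨h.symm, h.symm.continuous⟩ : C(ℂ, ℂ)).comp ((⟨h, h.continuous⟩ : C(ℂ, ℂ)).comp ζ) = ζ := by
    ext x
    exact h.symm_apply_apply (ζ x)
  rw [← h2]
  exact h1

end Pool.Agent.H994.BM
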