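import Pool.Agent.H994.BM.Stm

set_option autoImplicit false

open MeasureTheory ProbabilityTheory Filter Topology
open scoped NNReal ENNReal unitInterval

namespace Pool.Agent.H994.BM

namespace Inv

variable {Ω : Type} [MeasurableSpace Ω] {P : Measure Ω} {X Y : ℝ≥0 → Ω → ℝ}

theorem neg_br (h : IsBrownianReal X P) : IsBrownianReal (fun t ω => - X t ω) P :=
  h.neg

theorem meas_neg : Measurable (fun (x : ℝ≥0 → ℝ) (t : ℝ≥0) => - x t) :=
  measurable_pi_lambda _ (fun t => (measurable_pi_apply t).neg)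

theorem meas_smul (c : ℝ≥0) :
    Measurable (fun (x : ℝ≥0 → ℝ) (t : ℝ≥0) => (√(c : ℝ))⁻¹ * x (c * t)) :=
  measurable_pi_lambda _ (fun t => (measurable_pi_apply (c * t)).const_mul _)

theorem meas_shift (t₀ : ℝ≥0) :
    Measurable (fun (x : ℝ≥0 → ℝ) (t : ℝ≥0) => x (t₀ + t) - x t₀) :=
  measurable_pi_lambda _ (fun t => (measurable_pi_apply (t₀ + t)).sub (measurable_pi_apply t₀))

theorem rot (h : IsPlanarBM X Y P) : IsPlanarBM (fun t ω => - Y t ω) X P where
  brX := neg_br h.brY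
  brY := h.brX
  mX := fun t => (h.mY t).neg
  mY := h.mX
  indep := (h.indep.symm).comp meas_neg measurable_id

theorem conj (h : IsPlanarBM X Y P) : IsPlanarBM X (fun t ω => - Y t ω) P where
  brX := h.brX
  brY := neg_br h.brY
  mX := h.mX
  mY := fun t => (h.mY t).neg
  indep := h.indep.comp measurable_id meas_neg

theorem scale (h : IsPlanarBM X Y P) (c : ℝ≥0) (hc : c ≠ 0) :
    IsPlanarBM (fun t ω => (√(c : ℝ))⁻¹ * X (c * t) ω)
      (fun t ω => (√(c : ℝ))⁻¹ * Y (c * t) ω) P where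
  brX := h.brX.smul hc
  brY := h.brY.smul hc
  mX := fun t => (h.mX (c * t)).const_mul _
  mY := fun t => (h.mY (c * t)).const_mul _
  indep := h.indep.comp (meas_smul c) (meas_smul c)

theorem shift (h : IsPlanarBM X Y P) (t₀ : ℝ≥0) :
    IsPlanarBM (fun t ω => X (t₀ + t) ω - X t₀ ω)
      (fun t ω => Y (t₀ + t) ω - Y t₀ ω) P where
  brX := h.brX.shift t₀
  brY := h.brY.shift t₀
  mX := fun t => (h.mX (t₀ + t)).sub (h.mX t₀)
  mY := fun t => (h.mY (t₀ + t)).sub (h.mY t₀)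
  indep := h.indep.comp (meas_shift t₀) (meas_shift t₀)

end Inv

theorem t_inv : S_inv := by
  intro Ω _ P X Y h
  exact ⟨Inv.rot h, Inv.conj h, fun c hc => Inv.scale h c hc, fun t₀ => Inv.shift h t₀⟩

end Pool.Agent.H994.BM
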