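import Pool.Agent.H994.BM.Stm

/-! The law of planar Brownian motion on the product space is unique (helper550). -/

set_option autoImplicit false

open MeasureTheory ProbabilityTheory Filter Topology
open scoped NNReal ENNReal unitInterval

namespace Pool.Agent.H994.BM

namespace Law

theorem meas {Ω : Type} [MeasurableSpace Ω] {X : ℝ≥0 → Ω → ℝ} (mX : ∀ t, Measurable (X t)) :
    Measurable (fun ω (t : ℝ≥0) => X t ω) := measurable_pi_lambda _ mX

theorem lim {Ω : Type} [MeasurableSpace Ω] {P : Measure Ω} {X : ℝ≥0 → Ω → ℝ}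
    (hX : IsBrownianReal X P) (mX : ∀ t, Measurable (X t)) :
    IsProjectiveLimit (P.map (fun ω (t : ℝ≥0) => X t ω)) BrownianReal.projectiveFamily := by
  intro J
  rw [← (hX.hasLaw J).map_eq]
  rw [Measure.map_map (by fun_prop) (meas mX)]
  rfl

theorem coord {Ω : Type} [MeasurableSpace Ω] {P : Measure Ω} {X : ℝ≥0 → Ω → ℝ}
    (hX : IsBrownianReal X P) (mX : ∀ t, Measurable (X t))
    {Ω' : Type} [MeasurableSpace Ω'] {P' : Measure Ω'} {X' : ℝ≥0 → Ω' → ℝ}
    (hX' : IsBrownianReal X' P') (mX' : ∀ t, Measurable (X' t)) :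
    P.map (fun ω (t : ℝ≥0) => X t ω) = P'.map (fun ω (t : ℝ≥0) => X' t ω) :=
  (lim hX mX).unique (lim hX' mX')

theorem pair {Ω : Type} [MeasurableSpace Ω] {P : Measure Ω} {X Y : ℝ≥0 → Ω → ℝ}
    (h : IsPlanarBM X Y P) :
    P.map (fun ω => ((fun t => X t ω, fun t => Y t ω) : (ℝ≥0 → ℝ) × (ℝ≥0 → ℝ))) =
      (P.map (fun ω (t : ℝ≥0) => X t ω)).prod (P.map (fun ω (t : ℝ≥0) => Y t ω)) := by
  have _hP : IsProbabilityMeasure P := h.brX.isGaussianProcess.isProbabilityMeasure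
  exact (indepFun_iff_map_prod_eq_prod_map_map (meas h.mX).aemeasurable
    (meas h.mY).aemeasurable).1 h.indep

end Law

theorem t_law : S_law := by
  intro Ω _ P X Y Ω' _ P' X' Y' h h' A hA
  have e : P.map (fun ω => ((fun t => X t ω, fun t => Y t ω) : (ℝ≥0 → ℝ) × (ℝ≥0 → ℝ))) =
      P'.map (fun ω => ((fun t => X' t ω, fun t => Y' t ω) : (ℝ≥0 → ℝ) × (ℝ≥0 → ℝ))) := by
    rw [Law.pair h, Law.pair h', Law.coord h.brX h.mX h'.brX h'.mX,
      Law.coord h.brY h.mY h'.brY h'.mY]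
  have m : Measurable (fun ω => ((fun t => X t ω, fun t => Y t ω) : (ℝ≥0 → ℝ) × (ℝ≥0 → ℝ))) :=
    (Law.meas h.mX).prodMk (Law.meas h.mY)
  have m' : Measurable (fun ω => ((fun t => X' t ω, fun t => Y' t ω) :
      (ℝ≥0 → ℝ) × (ℝ≥0 → ℝ))) := (Law.meas h'.mX).prodMk (Law.meas h'.mY)
  have e1 := Measure.map_apply m hA (μ := P)
  have e2 := Measure.map_apply m' hA (μ := P')
  rw [e, e2] at e1
  exact e1.symm

end Pool.Agent.H994.BM

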