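import Pool.Agent.H994.BM.Stm

/-!
The weak Markov property of planar Brownian motion.
-/

set_option autoImplicit false

open MeasureTheory ProbabilityTheory Filter Topology
open scoped NNReal ENNReal unitInterval

namespace Pool.Agent.H994.BM

namespace Mar

variable {Ω α₁ α₂ β₁ β₂ : Type} [MeasurableSpace Ω] [MeasurableSpace α₁] [MeasurableSpace α₂]
  [MeasurableSpace β₁] [MeasurableSpace β₂]

theorem comap_prod {f : Ω → α₁} {g : Ω → β₁} :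
    MeasurableSpace.comap (fun ω => (f ω, g ω)) inferInstance =
      MeasurableSpace.generateFrom {s | ∃ t ∈ Set.image2 (fun x1 x2 => x1 ×ˢ x2)
        {s : Set α₁ | MeasurableSet s} {t : Set β₁ | MeasurableSet t},
        (fun ω => (f ω, g ω)) ⁻¹' t = s} := by
  have h := generateFrom_prod (α := α₁) (β := β₁)
  rw [← h, MeasurableSpace.comap_generateFrom]
  rfl

/-- Exchange of the factors. -/
theorem four {P : Measure Ω} [IsProbabilityMeasure P] {f₁ : Ω → α₁} {f₂ : Ω → α₂} {g₁ : Ω → β₁} {g₂ : Ω → β₂}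
    (hf₁ : Measurable f₁) (hf₂ : Measurable f₂) (hg₁ : Measurable g₁) (hg₂ : Measurable g₂)
    (h : IndepFun (fun ω => (f₁ ω, f₂ ω)) (fun ω => (g₁ ω, g₂ ω)) P) (hf : IndepFun f₁ f₂ P)
    (hg : IndepFun g₁ g₂ P) : IndepFun (fun ω => (f₁ ω, g₁ ω)) (fun ω => (f₂ ω, g₂ ω)) P := by
  rw [IndepFun_iff_Indep]
  refine IndepSets.indep (hf₁.prodMk hg₁).comap_le (hf₂.prodMk hg₂).comap_le
    (isPiSystem_prod.comap (fun ω => (f₁ ω, g₁ ω))) (isPiSystem_prod.comap (fun ω => (f₂ ω, g₂ ω)))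
    comap_prod comap_prod ?_
  rw [IndepSets_iff]
  rintro _ _ ⟨_, ⟨A₁, hA₁, B₁, hB₁, rfl⟩, rfl⟩ ⟨_, ⟨A₂, hA₂, B₂, hB₂, rfl⟩, rfl⟩
  have hA₁' : MeasurableSet A₁ := hA₁
  have hB₁' : MeasurableSet B₁ := hB₁
  have hA₂' : MeasurableSet A₂ := hA₂
  have hB₂' : MeasurableSet B₂ := hB₂
  have e1 : (fun ω => (f₁ ω, g₁ ω)) ⁻¹' (A₁ ×ˢ B₁) = f₁ ⁻¹' A₁ ∩ g₁ ⁻¹' B₁ := rfl
  have e2 : (fun ω => (f₂ ω, g₂ ω)) ⁻¹' (A₂ ×ˢ B₂) = f₂ ⁻¹' A₂ ∩ g₂ ⁻¹' B₂ := rfl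
  have e3 : (f₁ ⁻¹' A₁ ∩ g₁ ⁻¹' B₁) ∩ (f₂ ⁻¹' A₂ ∩ g₂ ⁻¹' B₂) =
      (fun ω => (f₁ ω, f₂ ω)) ⁻¹' (A₁ ×ˢ A₂) ∩ (fun ω => (g₁ ω, g₂ ω)) ⁻¹' (B₁ ×ˢ B₂) := by
    ext ω
    simp only [Set.mem_inter_iff, Set.mem_preimage, Set.mem_prod]
    tauto
  have e4 : (fun ω => (f₁ ω, f₂ ω)) ⁻¹' (A₁ ×ˢ A₂) = f₁ ⁻¹' A₁ ∩ f₂ ⁻¹' A₂ := rfl
  have e5 : (fun ω => (g₁ ω, g₂ ω)) ⁻¹' (B₁ ×ˢ B₂) = g₁ ⁻¹' B₁ ∩ g₂ ⁻¹' B₂ := rfl
  have k1 : IndepFun f₁ g₁ P := h.comp (φ := Prod.fst) (ψ := Prod.fst) measurable_fst measurable_fst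
  have k2 : IndepFun f₂ g₂ P := h.comp (φ := Prod.snd) (ψ := Prod.snd) measurable_snd measurable_snd
  change P ((fun ω => (f₁ ω, g₁ ω)) ⁻¹' (A₁ ×ˢ B₁) ∩ (fun ω => (f₂ ω, g₂ ω)) ⁻¹' (A₂ ×ˢ B₂)) =
    P ((fun ω => (f₁ ω, g₁ ω)) ⁻¹' (A₁ ×ˢ B₁)) * P ((fun ω => (f₂ ω, g₂ ω)) ⁻¹' (A₂ ×ˢ B₂))
  rw [e1, e2, e3, h.measure_inter_preimage_eq_mul _ _ (hA₁'.prod hA₂') (hB₁'.prod hB₂'), e4, e5,
    hf.measure_inter_preimage_eq_mul _ _ hA₁' hA₂', hg.measure_inter_preimage_eq_mul _ _ hB₁' hB₂',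
    k1.measure_inter_preimage_eq_mul _ _ hA₁' hB₁', k2.measure_inter_preimage_eq_mul _ _ hA₂' hB₂']
  ring

end Mar

open Mar

theorem t_markov : S_markov := by
  intro Ω _ P X Y h t₀ A hA B hB
  have mXp : Measurable (fun ω (t : Set.Iic t₀) => X t ω) :=
    measurable_pi_lambda _ fun t => h.mX t
  have mYp : Measurable (fun ω (t : Set.Iic t₀) => Y t ω) :=
    measurable_pi_lambda _ fun t => h.mY t
  have mXf : Measurable (fun ω (t : ℝ≥0) => X (t₀ + t) ω - X t₀ ω) :=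
    measurable_pi_lambda _ fun t => (h.mX (t₀ + t)).sub (h.mX t₀)
  have mYf : Measurable (fun ω (t : ℝ≥0) => Y (t₀ + t) ω - Y t₀ ω) :=
    measurable_pi_lambda _ fun t => (h.mY (t₀ + t)).sub (h.mY t₀)
  have hX : IndepFun (fun ω (t : Set.Iic t₀) => X t ω)
      (fun ω (t : ℝ≥0) => X (t₀ + t) ω - X t₀ ω) P :=
    (h.brX.toIsPreBrownianReal.indepFun_shift t₀).symm
  have hY : IndepFun (fun ω (t : Set.Iic t₀) => Y t ω)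
      (fun ω (t : ℝ≥0) => Y (t₀ + t) ω - Y t₀ ω) P :=
    (h.brY.toIsPreBrownianReal.indepFun_shift t₀).symm
  have mφ : Measurable (fun x : ℝ≥0 → ℝ =>
      ((fun t : Set.Iic t₀ => x t, fun t : ℝ≥0 => x (t₀ + t) - x t₀) :
        (Set.Iic t₀ → ℝ) × (ℝ≥0 → ℝ))) :=
    (measurable_pi_lambda _ fun t => measurable_pi_apply _).prodMk
      (measurable_pi_lambda _ fun t => (measurable_pi_apply _).sub (measurable_pi_apply _))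
  have hXY : IndepFun
      (fun ω => ((fun t : Set.Iic t₀ => X t ω, fun t : ℝ≥0 => X (t₀ + t) ω - X t₀ ω) :
        (Set.Iic t₀ → ℝ) × (ℝ≥0 → ℝ)))
      (fun ω => ((fun t : Set.Iic t₀ => Y t ω, fun t : ℝ≥0 => Y (t₀ + t) ω - Y t₀ ω) :
        (Set.Iic t₀ → ℝ) × (ℝ≥0 → ℝ))) P := h.indep.comp mφ mφ
  have : IsProbabilityMeasure P := h.brX.toIsPreBrownianReal.isGaussianProcess.isProbabilityMeasure
  have key := four mXp mXf mYp mYf hXY hX hY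
  exact key.measure_inter_preimage_eq_mul A B hA hB

end Pool.Agent.H994.BM
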