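import Pool.Agent.H994.BM.Stm

set_option autoImplicit false

open MeasureTheory ProbabilityTheory Filter Topology
open scoped NNReal ENNReal unitInterval

namespace Pool.Agent.H994.BM.Pos

open Pool.Agent.H986.EV Pool.Agent.H994.BM

/-- the path is `ε`-close to `η` at the rational times of `[0, 1]` -/
def Nr (η : C(I, ℂ)) (ε : ℝ) : Set ((ℝ≥0 → ℝ) × (ℝ≥0 → ℝ)) :=
  {p | ∀ q : ℚ≥0, q ≤ 1 → ‖pth p.1 p.2 (q : ℝ) - ev η (q : ℝ)‖ ≤ ε}

theorem toNN (q : ℚ≥0) : ((q : ℝ)).toNNReal = (q : ℝ≥0) := by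
  apply NNReal.eq
  rw [Real.coe_toNNReal _ (by positivity)]
  rfl

theorem meas_Nr (η : C(I, ℂ)) (ε : ℝ) : MeasurableSet (Nr η ε) := by
  have : Nr η ε = ⋂ q : ℚ≥0, ⋂ _ : q ≤ 1,
      {p | ‖pth p.1 p.2 (q : ℝ) - ev η (q : ℝ)‖ ≤ ε} := by
    ext p
    simp [Nr]
  rw [this]
  refine MeasurableSet.iInter fun q => MeasurableSet.iInter fun _ => ?_
  apply measurableSet_le _ measurable_const
  unfold pth
  fun_prop

/-- continuity of the path and rational times -/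
theorem Nr_all {f g : ℝ≥0 → ℝ} (hf : Continuous f) (hg : Continuous g) {η : C(I, ℂ)} {ε : ℝ}
    (h : (f, g) ∈ Nr η ε) (x : ℝ) (hx : x ∈ Set.Icc (0 : ℝ) 1) : ‖pth f g x - ev η x‖ ≤ ε := by
  have hc : Continuous fun x : ℝ => ‖pth f g x - ev η x‖ := by
    unfold pth
    have := ev_cont η
    have h1 : Continuous fun x : ℝ => f x.toNNReal := hf.comp continuous_real_toNNReal
    have h2 : Continuous fun x : ℝ => g x.toNNReal := hg.comp continuous_real_toNNReal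
    fun_prop
  -- the set where the inequality holds is closed and contains the rationals
  have hcl : IsClosed {x : ℝ | ‖pth f g x - ev η x‖ ≤ ε} := isClosed_le hc continuous_const
  have hsub : Set.Icc (0 : ℝ) 1 ⊆ closure ((fun q : ℚ => (q : ℝ)) '' {q | (0 : ℚ) < q ∧ q < 1}) := by
    have h1 : Set.Ioo (0 : ℝ) 1 ⊆ closure ((fun q : ℚ => (q : ℝ)) '' {q | (0 : ℚ) < q ∧ q < 1}) := by
      intro y hy
      rw [Metric.mem_closure_iff]
      intro δ hδ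
      obtain ⟨q, hq1, hq2⟩ := exists_rat_btwn (show max 0 (y - δ) < y by
        rw [max_lt_iff]; exact ⟨hy.1, by linarith⟩)
      rw [max_lt_iff] at hq1
      refine ⟨q, ⟨q, ⟨by exact_mod_cast hq1.1, ?_⟩, rfl⟩, ?_⟩
      · have : (q : ℝ) < 1 := hq2.trans hy.2
        exact_mod_cast this
      · rw [Real.dist_eq, abs_of_pos (by linarith)]
        linarith [hq1.2]
    have h2 := closure_mono h1
    rw [closure_closure, closure_Ioo (by norm_num)] at h2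
    exact h2
  have hsub2 : closure ((fun q : ℚ => (q : ℝ)) '' {q | (0 : ℚ) < q ∧ q < 1}) ⊆
      {x : ℝ | ‖pth f g x - ev η x‖ ≤ ε} := by
    apply closure_minimal _ hcl
    rintro _ ⟨q, ⟨hq0, hq1⟩, rfl⟩
    have e0 : ((q.toNNRat : ℚ≥0) : ℚ) = q := Rat.coe_toNNRat q hq0.le
    have e : ((q.toNNRat : ℚ≥0) : ℝ) = (q : ℝ) := by
      exact_mod_cast congrArg (fun r : ℚ => (r : ℝ)) e0
    have h1 := h q.toNNRat (by
      rw [← NNRat.coe_le_coe, e0]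
      exact_mod_cast hq1.le)
    rw [e] at h1
    exact h1
  exact hsub2 (hsub hx)

/-- the path as an element of `C([0,1], ℂ)` -/
noncomputable def zt {f g : ℝ≥0 → ℝ} (hf : Continuous f) (hg : Continuous g) : C(I, ℂ) where
  toFun x := pth f g (x : ℝ)
  continuous_toFun := by
    unfold pth
    have h1 : Continuous fun x : ℝ => f x.toNNReal := hf.comp continuous_real_toNNReal
    have h2 : Continuous fun x : ℝ => g x.toNNReal := hg.comp continuous_real_toNNReal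
    fun_prop

theorem zt_ev {f g : ℝ≥0 → ℝ} (hf : Continuous f) (hg : Continuous g) {x : ℝ}
    (hx : x ∈ Set.Icc (0 : ℝ) 1) : ev (zt hf hg) x = pth f g x := by
  rw [ev_of_mem _ hx]
  rfl

theorem rat_mem {q : ℚ≥0} (hq : q ≤ 1) : (q : ℝ) ∈ Set.Icc (0 : ℝ) 1 :=
  ⟨by positivity, by exact_mod_cast hq⟩

theorem Nr_of_dist {f g : ℝ≥0 → ℝ} (hf : Continuous f) (hg : Continuous g) {η : C(I, ℂ)} {ε : ℝ}
    (h : ‖zt hf hg - η‖ ≤ ε) : (f, g) ∈ Nr η ε := by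
  intro q hq
  rw [← zt_ev hf hg (rat_mem hq)]
  exact (ev_sub_le _ _ _).trans h

theorem dist_of_Nr {f g : ℝ≥0 → ℝ} (hf : Continuous f) (hg : Continuous g) {η : C(I, ℂ)} {ε : ℝ}
    (hε : 0 ≤ ε) (h : (f, g) ∈ Nr η ε) : ‖zt hf hg - η‖ ≤ ε := by
  rw [ContinuousMap.norm_le _ hε]
  intro x
  rw [ContinuousMap.sub_apply, ← ev_coe (zt hf hg), ← ev_coe η, zt_ev hf hg x.2]
  exact Nr_all hf hg h x x.2

theorem cr_congr {w w' : ℝ → ℂ} {u v : ℝ} (h : ∀ x ∈ Set.Icc u v, w x = w' x) (hc : Cr w u v) :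
    Cr w' u v := by
  obtain ⟨a, b, c, d, h1, h2, h3, h4, h5, h6, h7, h8, h9⟩ := hc
  have ea : w a = w' a := h a ⟨h1, by linarith⟩
  have eb : w b = w' b := h b ⟨by linarith, by linarith⟩
  have ec : w c = w' c := h c ⟨by linarith, by linarith⟩
  have ed : w d = w' d := h d ⟨by linarith, by linarith⟩
  refine ⟨a, b, c, d, h1, h2, h3, h4, h5, fun t ht => ?_, fun t ht => ?_, fun t ht => ?_,
    fun t ht => ?_⟩
  · rw [← ea, ← h t ⟨by linarith [ht.1], by linarith [ht.2]⟩]; exact h6 t ht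
  · rw [← eb, ← h t ⟨by linarith [ht.1], by linarith [ht.2]⟩]; exact h7 t ht
  · rw [← ec, ← h t ⟨by linarith [ht.1], by linarith [ht.2]⟩]; exact h8 t ht
  · rw [← ed, ← h t ⟨by linarith [ht.1], by linarith [ht.2]⟩]; exact h9 t ht

variable {Ω : Type} [MeasurableSpace Ω] {P : Measure Ω} {X Y : ℝ≥0 → Ω → ℝ}

/-- the support of the law of the path -/
def S (X Y : ℝ≥0 → Ω → ℝ) (P : Measure Ω) : Set C(I, ℂ) :=
  {η | ∀ ε : ℝ, 0 < ε → 0 < P {ω | (fun t => X t ω, fun t => Y t ω) ∈ Nr η ε}}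

theorem ae_cont (h : IsPlanarBM X Y P) :
    ∀ᵐ ω ∂P, Continuous (fun t => X t ω) ∧ Continuous (fun t => Y t ω) ∧ X 0 ω = 0 ∧ Y 0 ω = 0 := by
  filter_upwards [h.brX.cont, h.brY.cont, h.brX.eval_zero_ae_eq_zero,
    h.brY.eval_zero_ae_eq_zero] with ω h1 h2 h3 h4
  exact ⟨h1, h2, h3, h4⟩

theorem S_zero (h : IsPlanarBM X Y P) : ∀ γ ∈ S X Y P, γ 0 = 0 := by
  intro γ hγ
  by_contra hc
  have h1 := hγ (‖γ 0‖ / 2) (by have := norm_pos_iff.2 hc; linarith)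
  refine h1.ne' (measure_mono_null (t := {ω | ¬ (X 0 ω = 0 ∧ Y 0 ω = 0)}) ?_ ?_)
  · intro ω hω h0
    have h2 := hω 0 (by norm_num)
    have e1 : ev γ ((0 : ℚ≥0) : ℝ) = γ 0 := by
      rw [ev_of_mem γ (by simp)]
      simp
    have e2 : pth (fun t => X t ω) (fun t => Y t ω) ((0 : ℚ≥0) : ℝ) = 0 := by
      simp [pth, h0.1, h0.2]
    rw [e1] at h2
    change ‖pth (fun t => X t ω) (fun t => Y t ω) ((0 : ℚ≥0) : ℝ) - γ 0‖ ≤ _ at h2
    rw [e2, zero_sub, norm_neg] at h2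
    have := norm_pos_iff.2 hc
    linarith
  · have := ae_cont h
    rw [ae_iff] at this
    refine measure_mono_null (fun ω hω => ?_) this
    intro hc
    exact hω ⟨hc.2.2.1, hc.2.2.2⟩

theorem S_rot (hI : S_inv) (hL : S_law) (h : IsPlanarBM X Y P) :
    ∀ γ ∈ S X Y P, Complex.I • γ ∈ S X Y P := by
  intro γ hγ ε hε
  have h1 := hγ ε hε
  have h2 := (hI Ω _ P X Y h).1
  have h3 := hL Ω _ P X Y Ω _ P _ _ h h2 (Nr (Complex.I • γ) ε) (meas_Nr _ _)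
  rw [h3]
  convert h1 using 3
  ext ω
  simp only [Nr, Set.mem_ofPred_eq]
  refine forall_congr' fun q => forall_congr' fun hq => ?_
  have e1 : ev (Complex.I • γ) (q : ℝ) = Complex.I * ev γ (q : ℝ) := rfl
  have e2 : pth (fun t => - Y t ω) (fun t => X t ω) (q : ℝ) =
      Complex.I * pth (fun t => X t ω) (fun t => Y t ω) (q : ℝ) := by
    unfold pth
    push_cast
    linear_combination (-(Y (q : ℝ).toNNReal ω : ℂ)) * Complex.I_mul_I
  rw [e1, e2, ← mul_sub, norm_mul, Complex.norm_I, one_mul]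

theorem S_conj (hI : S_inv) (hL : S_law) (h : IsPlanarBM X Y P) :
    ∀ γ ∈ S X Y P, star γ ∈ S X Y P := by
  intro γ hγ ε hε
  have h1 := hγ ε hε
  have h2 := (hI Ω _ P X Y h).2.1
  have h3 := hL Ω _ P X Y Ω _ P _ _ h h2 (Nr (star γ) ε) (meas_Nr _ _)
  rw [h3]
  convert h1 using 3
  ext ω
  simp only [Nr, Set.mem_ofPred_eq]
  refine forall_congr' fun q => forall_congr' fun hq => ?_
  have e1 : ev (star γ) (q : ℝ) = (starRingEnd ℂ) (ev γ (q : ℝ)) := rfl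
  have e2 : pth (fun t => X t ω) (fun t => - Y t ω) (q : ℝ) =
      (starRingEnd ℂ) (pth (fun t => X t ω) (fun t => Y t ω) (q : ℝ)) := by
    unfold pth
    simp
  rw [e1, e2, ← map_sub, RCLike.norm_conj]

theorem S_splice (hK : S_markov) (h : IsPlanarBM X Y P) :
    ∀ τ ∈ Set.Ioo (0 : ℝ) 1, ∀ γ ∈ S X Y P, ∀ γ' ∈ S X Y P, splice τ γ γ' ∈ S X Y P := by
  intro τ hτ γ hγ γ' hγ' ε hε
  set t₀ : ℝ≥0 := τ.toNNReal with ht₀
  have ht₀' : (t₀ : ℝ) = τ := Real.coe_toNNReal _ hτ.1.le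
  have hτI : τ ∈ Set.Icc (0 : ℝ) 1 := ⟨hτ.1.le, hτ.2.le⟩
  obtain ⟨δ, hδ0, hδ⟩ : ∃ δ : ℝ, 0 < δ ∧ 3 * δ ≤ ε := ⟨ε / 3, by positivity, by linarith⟩
  have hmm : t₀ ∈ Set.Iic t₀ := Set.mem_Iic.2 le_rfl
  let A : Set ((Set.Iic t₀ → ℝ) × (Set.Iic t₀ → ℝ)) :=
    {p | (∀ q : ℚ≥0, ∀ hq : (q : ℝ≥0) ≤ t₀,
        ‖((p.1 ⟨q, hq⟩ : ℂ) + p.2 ⟨q, hq⟩ * Complex.I) - ev γ (q : ℝ)‖ ≤ δ) ∧
      ‖((p.1 ⟨t₀, hmm⟩ : ℂ) + p.2 ⟨t₀, hmm⟩ * Complex.I) - ev γ τ‖ ≤ δ}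
  let B : Set ((ℝ≥0 → ℝ) × (ℝ≥0 → ℝ)) :=
    {p | ∀ q : ℚ≥0, t₀ ≤ (q : ℝ≥0) → q ≤ 1 →
        ‖((p.1 ((q : ℝ≥0) - t₀) : ℂ) + p.2 ((q : ℝ≥0) - t₀) * Complex.I) -
          (ev γ' (q : ℝ) - ev γ' τ)‖ ≤ 2 * δ}
  have mA : MeasurableSet A := by
    have e : A = (⋂ q : ℚ≥0, ⋂ hq : (q : ℝ≥0) ≤ t₀,
        {p | ‖((p.1 ⟨q, hq⟩ : ℂ) + p.2 ⟨q, hq⟩ * Complex.I) - ev γ (q : ℝ)‖ ≤ δ}) ∩
        {p | ‖((p.1 ⟨t₀, hmm⟩ : ℂ) + p.2 ⟨t₀, hmm⟩ * Complex.I) - ev γ τ‖ ≤ δ} := by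
      ext p
      simp [A]
    rw [e]
    refine MeasurableSet.inter (MeasurableSet.iInter fun q => MeasurableSet.iInter fun hq => ?_) ?_
    · exact measurableSet_le (by fun_prop) measurable_const
    · exact measurableSet_le (by fun_prop) measurable_const
  have mB : MeasurableSet B := by
    have e : B = ⋂ q : ℚ≥0, ⋂ _ : t₀ ≤ (q : ℝ≥0), ⋂ _ : q ≤ 1,
        {p | ‖((p.1 ((q : ℝ≥0) - t₀) : ℂ) + p.2 ((q : ℝ≥0) - t₀) * Complex.I) -
          (ev γ' (q : ℝ) - ev γ' τ)‖ ≤ 2 * δ} := by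
      ext p
      simp [B]
    rw [e]
    refine MeasurableSet.iInter fun q => MeasurableSet.iInter fun _ => MeasurableSet.iInter
      fun _ => ?_
    exact measurableSet_le (by fun_prop) measurable_const
  have key := hK Ω _ P X Y h t₀ A mA B mB
  have hpthq : ∀ (ω : Ω) (q : ℚ≥0), pth (fun t => X t ω) (fun t => Y t ω) (q : ℝ) =
      (X (q : ℝ≥0) ω : ℂ) + Y (q : ℝ≥0) ω * Complex.I := by
    intro ω q
    unfold pth
    rw [toNN]
  have hpthτ : ∀ (ω : Ω), pth (fun t => X t ω) (fun t => Y t ω) τ =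
      (X t₀ ω : ℂ) + Y t₀ ω * Complex.I := by
    intro ω
    rfl
  have pA : 0 < P {ω | (fun t : Set.Iic t₀ => X t ω, fun t : Set.Iic t₀ => Y t ω) ∈ A} := by
    refine lt_of_lt_of_le (hγ δ hδ0) (measure_mono_ae ?_)
    filter_upwards [ae_cont h] with ω hω hN
    refine ⟨fun q hq => ?_, ?_⟩
    · have hq1 : q ≤ 1 := by
        have h1 : ((q : ℝ≥0) : ℝ) ≤ t₀ := by exact_mod_cast hq
        rw [ht₀'] at h1
        have h2 : ((q : ℝ≥0) : ℝ) ≤ 1 := h1.trans hτ.2.le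
        exact_mod_cast h2
      have := hN q hq1
      change ‖pth (fun t => X t ω) (fun t => Y t ω) (q : ℝ) - _‖ ≤ _ at this
      rw [hpthq] at this
      exact this
    · have := Nr_all hω.1 hω.2.1 hN τ hτI
      rw [hpthτ] at this
      exact this
  have pB : 0 < P {ω | (fun t => X (t₀ + t) ω - X t₀ ω, fun t => Y (t₀ + t) ω - Y t₀ ω) ∈ B} := by
    refine lt_of_lt_of_le (hγ' δ hδ0) (measure_mono_ae ?_)
    filter_upwards [ae_cont h] with ω hω hN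
    intro q hq hq1
    have h1 := hN q hq1
    have h2 := Nr_all hω.1 hω.2.1 hN τ hτI
    change ‖pth (fun t => X t ω) (fun t => Y t ω) (q : ℝ) - _‖ ≤ _ at h1
    rw [hpthq] at h1
    rw [hpthτ] at h2
    have e : t₀ + ((q : ℝ≥0) - t₀) = (q : ℝ≥0) := add_tsub_cancel_of_le hq
    simp only [e]
    have e2 : (((X (q : ℝ≥0) ω - X t₀ ω : ℝ) : ℂ) + ((Y (q : ℝ≥0) ω - Y t₀ ω : ℝ) : ℂ) * Complex.I) -
        (ev γ' (q : ℝ) - ev γ' τ) = ((X (q : ℝ≥0) ω : ℂ) + Y (q : ℝ≥0) ω * Complex.I - ev γ' (q : ℝ))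
        - ((X t₀ ω : ℂ) + Y t₀ ω * Complex.I - ev γ' τ) := by
      push_cast
      ring
    rw [e2]
    refine (norm_sub_le _ _).trans ?_
    linarith
  have hpos : 0 < P ({ω | (fun t : Set.Iic t₀ => X t ω, fun t : Set.Iic t₀ => Y t ω) ∈ A} ∩
      {ω | (fun t => X (t₀ + t) ω - X t₀ ω, fun t => Y (t₀ + t) ω - Y t₀ ω) ∈ B}) := by
    rw [key]
    exact ENNReal.mul_pos pA.ne' pB.ne'
  refine lt_of_lt_of_le hpos (measure_mono ?_)
  rintro ω ⟨⟨hA1, hA2⟩, hB⟩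
  intro q hq
  change ‖pth (fun t => X t ω) (fun t => Y t ω) (q : ℝ) - _‖ ≤ _
  rw [hpthq, splice_ev _ _ _ (rat_mem hq)]
  rcases le_total (q : ℝ≥0) t₀ with h1 | h1
  · have h2 : (q : ℝ) ≤ τ := by
      rw [← ht₀']
      exact_mod_cast h1
    rw [min_eq_left h2, max_eq_right h2, sub_self, add_zero]
    refine (hA1 q h1).trans (by linarith)
  · have h2 : τ ≤ (q : ℝ) := by
      rw [← ht₀']
      exact_mod_cast h1
    rw [min_eq_right h2, max_eq_left h2]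
    have h3 := hB q h1 hq
    have e : t₀ + ((q : ℝ≥0) - t₀) = (q : ℝ≥0) := add_tsub_cancel_of_le h1
    simp only [e] at h3
    have e2 : (X (q : ℝ≥0) ω : ℂ) + Y (q : ℝ≥0) ω * Complex.I -
        (ev γ τ + (ev γ' (q : ℝ) - ev γ' τ)) =
        ((X t₀ ω : ℂ) + Y t₀ ω * Complex.I - ev γ τ) +
        ((((X (q : ℝ≥0) ω - X t₀ ω : ℝ) : ℂ) + ((Y (q : ℝ≥0) ω - Y t₀ ω : ℝ) : ℂ) * Complex.I) -
        (ev γ' (q : ℝ) - ev γ' τ)) := by
      push_cast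
      ring
    rw [e2]
    refine (norm_add_le _ _).trans ?_
    linarith

theorem S_ne (h : IsPlanarBM X Y P) : ∃ η ∈ S X Y P, η ≠ 0 := by
  by_contra hc
  push Not at hc
  have hex : ∀ η : C(I, ℂ), η ≠ 0 → ∃ ε : ℝ, 0 < ε ∧
      P {ω | (fun t => X t ω, fun t => Y t ω) ∈ Nr η ε} = 0 := by
    intro η hη
    by_contra hc2
    push Not at hc2
    exact hη (hc η fun ε hε => pos_iff_ne_zero.2 (hc2 ε hε))
  choose! e he1 he2 using hex
  obtain ⟨T, hTs, hTc, hTU⟩ := TopologicalSpace.isOpen_biUnion_countable {η : C(I, ℂ) | η ≠ 0}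
    (fun η => Metric.ball η (e η)) (fun η _ => Metric.isOpen_ball)
  have hnull : P (⋃ η ∈ T, {ω | (fun t => X t ω, fun t => Y t ω) ∈ Nr η (e η)}) = 0 := by
    rw [measure_biUnion_null_iff hTc]
    intro η hη
    exact he2 η (hTs hη)
  have hX1 : ∀ᵐ ω ∂P, X 1 ω = 0 := by
    rw [← compl_mem_ae_iff] at hnull
    filter_upwards [hnull, ae_cont h] with ω h1 h2
    by_contra hne
    apply h1
    have hz : zt h2.1 h2.2.1 ≠ 0 := by
      intro h0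
      have h3 : (zt h2.1 h2.2.1) 1 = 0 := by rw [h0]; rfl
      have h4' : (zt h2.1 h2.2.1) 1 = pth (fun t => X t ω) (fun t => Y t ω) ((1 : I) : ℝ) := rfl
      have h4 : (zt h2.1 h2.2.1) 1 = (X 1 ω : ℂ) + Y 1 ω * Complex.I := by
        rw [h4']
        simp [pth]
      rw [h4] at h3
      have := congrArg Complex.re h3
      simp at this
      exact hne this
    have h5 : zt h2.1 h2.2.1 ∈ ⋃ η ∈ T, Metric.ball η (e η) := by
      rw [hTU]
      exact Set.mem_biUnion (show zt h2.1 h2.2.1 ∈ {η : C(I, ℂ) | η ≠ 0} from hz)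
        (Metric.mem_ball_self (he1 _ hz))
    obtain ⟨η, hη, h6⟩ := Set.mem_iUnion₂.1 h5
    refine Set.mem_iUnion₂.2 ⟨η, hη, ?_⟩
    rw [Metric.mem_ball, dist_eq_norm] at h6
    exact Nr_of_dist h2.1 h2.2.1 h6.le
  -- but `X 1` is a standard Gaussian
  have h7 := h.brX.hasLaw_eval 1
  have h8 : P.map (X 1) {0} = 1 := by
    have := h.brX.isGaussianProcess.isProbabilityMeasure
    rw [Measure.map_apply (h.mX 1) (measurableSet_singleton 0)]
    have h9 : (X 1 ⁻¹' {0}) =ᵐ[P] Set.univ := eventuallyEq_univ.2 hX1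
    rw [measure_congr h9, measure_univ]
  rw [h7.map_eq] at h8
  have := nullSingletonClass_gaussianReal (μ := 0) (v := 1) one_ne_zero
  rw [measure_singleton] at h8
  exact zero_ne_one h8

theorem main (hQ : S_crQ) (hI : S_inv) (hL : S_law) (hK : S_markov) (hC : S_core)
    (h : IsPlanarBM X Y P) : 0 < P {ω | CrQ (fun t => X t ω) (fun t => Y t ω) 0 1} := by
  obtain ⟨η, hη, hη0⟩ := S_ne h
  obtain ⟨Z, hZ, ε, hε, hZε⟩ := hC (S X Y P) (S_zero h) (S_rot hI hL h) (S_conj hI hL h)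
    (S_splice hK h) η hη hη0
  refine lt_of_lt_of_le (hZ (ε / 2) (by linarith)) (measure_mono_ae ?_)
  filter_upwards [ae_cont h] with ω hω hN
  have h1 := dist_of_Nr hω.1 hω.2.1 (by linarith) hN
  have h2 := hZε (zt hω.1 hω.2.1) (by linarith)
  have h3 : Cr (pth (fun t => X t ω) (fun t => Y t ω)) 0 1 :=
    cr_congr (fun x hx => zt_ev hω.1 hω.2.1 hx) h2
  change CrQ (fun t => X t ω) (fun t => Y t ω) 0 1
  rw [hQ _ _ hω.1 hω.2.1]
  simpa using h3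

end Pool.Agent.H994.BM.Pos

namespace Pool.Agent.H994.BM

theorem t_pos (hQ : S_crQ) (hI : S_inv) (hL : S_law) (hK : S_markov) (hC : S_core) : S_pos :=
  fun _ _ _ _ _ h => Pos.main hQ hI hL hK hC h

end Pool.Agent.H994.BM
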