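import Pool.Agent.H994.BM.Stm5

/-!
Planar fractional Brownian motion: the covariance with a fixed time is small at `0` (MP_46f0ca_pr).
-/

set_option autoImplicit false

open MeasureTheory ProbabilityTheory Filter Topology
open scoped NNReal ENNReal unitInterval

namespace Pool.Agent.H994.FQ

namespace QA

/-- a power with positive exponent is small at `0` -/
theorem pow_small (a : ℝ) (ha : 0 < a) : Tendsto (fun s : ℝ => s ^ a) (𝓝[>] 0) (𝓝 0) := by
  have h := (Real.continuousAt_rpow_const 0 a (Or.inr ha.le)).tendsto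
  rw [Real.zero_rpow ha.ne'] at h
  exact h.mono_left nhdsWithin_le_nhds

/-- the difference quotient of `s ↦ (t - s) ^ p` at `0` -/
theorem quot (p t : ℝ) (ht : 0 < t) :
    Tendsto (fun s : ℝ => (t ^ p - (t - s) ^ p) / s) (𝓝[>] 0) (𝓝 (p * t ^ (p - 1))) := by
  have h1 : HasDerivAt (fun s : ℝ => (t - s) ^ p) (-1 * p * (t - 0) ^ (p - 1)) 0 := by
    refine HasDerivAt.rpow_const ?_ (Or.inl ?_)
    · exact (hasDerivAt_id (0 : ℝ)).const_sub t
    · rw [sub_zero]; exact ht.ne'
  have h2 := (hasDerivAt_iff_tendsto_slope.1 h1).mono_left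
    (nhdsWithin_mono (0 : ℝ) (fun x (hx : 0 < x) => (ne_of_gt hx : x ≠ 0)))
  have h3 := h2.neg
  have e : -(-1 * p * (t - 0) ^ (p - 1)) = p * t ^ (p - 1) := by rw [sub_zero]; ring
  rw [e] at h3
  refine h3.congr' ?_
  filter_upwards [self_mem_nhdsWithin] with s hs
  have hs0 : s ≠ 0 := ne_of_gt hs
  rw [slope_def_field, sub_zero, sub_zero]
  ring

end QA

open QA in
theorem t_small : S_small := by
  intro H h0 h1 t ht
  have ha := pow_small H h0
  have hb := pow_small (1 - H) (by linarith)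
  have hq := quot (2 * H) t ht
  have h := (ha.div_const 2).add ((hq.mul hb).div_const 2)
  have e : (0 : ℝ) / 2 + 2 * H * t ^ (2 * H - 1) * 0 / 2 = 0 := by ring
  rw [e] at h
  refine h.congr' ?_
  filter_upwards [self_mem_nhdsWithin, (Iio_mem_nhds ht : Set.Iio t ∈ 𝓝 (0 : ℝ)) |>
    mem_nhdsWithin_of_mem_nhds] with s hs hst
  have hs0 : (0 : ℝ) < s := hs
  have hst0 : s < t := hst
  have e1 : |t - s| = t - s := abs_of_pos (by linarith)
  have e2 : s ^ (2 * H) = s ^ H * s ^ H := by rw [← Real.rpow_add hs0]; congr 1; ring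
  have e3 : s ^ (1 - H) = s / s ^ H := by rw [Real.rpow_sub hs0, Real.rpow_one]
  have hsH : 0 < s ^ H := Real.rpow_pos_of_pos hs0 _
  unfold R
  rw [e1, e2, e3]
  field_simp
  ring

end Pool.Agent.H994.FQ
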