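import Pool.Agent.H994.BM.Stm5

/-!
The Borel sets of `C([0,1], ℂ)` are generated by the evaluations: the evaluations at the points of a
countable dense sequence give a continuous injective map of a Polish space, which is a measurable
embedding.
-/

set_option autoImplicit false

open MeasureTheory ProbabilityTheory Filter Topology
open scoped NNReal ENNReal unitInterval

namespace Pool.Agent.H994.FQ

theorem t_borel : S_borel := by
  intro m hm
  apply le_antisymm
  · -- a countable dense set of times
    have hinj : Function.Injective (fun (γ : C(I, ℂ)) (n : ℕ) => γ (TopologicalSpace.denseSeq I n)) := by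
      intro f g hfg
      have h1 : (f : I → ℂ) = g := by
        refine Continuous.ext_on (TopologicalSpace.denseRange_denseSeq I) f.continuous g.continuous ?_
        rintro _ ⟨n, rfl⟩
        exact congrFun hfg n
      exact DFunLike.coe_injective h1
    have hcont : Continuous (fun (γ : C(I, ℂ)) (n : ℕ) => γ (TopologicalSpace.denseSeq I n)) :=
      continuous_pi fun n => continuous_eval_const _
    have hemb := hcont.measurableEmbedding hinj
    have h2 : MeasurableSpace.comap (fun (γ : C(I, ℂ)) (n : ℕ) =>
        γ (TopologicalSpace.denseSeq I n)) MeasurableSpace.pi = m := hemb.comap_eq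
    rw [← h2]
    have h3 : (fun (γ : C(I, ℂ)) (n : ℕ) => γ (TopologicalSpace.denseSeq I n)) =
        (fun (x : I → ℂ) (n : ℕ) => x (TopologicalSpace.denseSeq I n)) ∘
          (fun (γ : C(I, ℂ)) (t : I) => γ t) := rfl
    rw [h3, ← MeasurableSpace.comap_comp]
    refine MeasurableSpace.comap_mono ?_
    rw [← measurable_iff_comap_le]
    exact measurable_pi_lambda _ fun n => measurable_pi_apply _
  · rw [← measurable_iff_comap_le]
    exact measurable_pi_lambda _ fun t => (continuous_eval_const t).measurable

end Pool.Agent.H994.FQ
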