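import Pool.Agent.H994.BM.Stm5

/-!
Q2: the coordinates are a centred Gaussian process with the expected covariances (helper976).
-/

set_option autoImplicit false

open MeasureTheory ProbabilityTheory Filter Topology
open scoped NNReal ENNReal unitInterval

namespace Pool.Agent.H994.FQ

namespace QC

/-- the coordinate as a continuous linear functional -/
noncomputable def Lz (i : I × Bool) : C(I, ℂ) →L[ℝ] ℝ :=
  (if i.2 then Complex.imCLM else Complex.reCLM).comp (ContinuousMap.evalCLM ℝ i.1)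

theorem Lz_apply (i : I × Bool) (γ : C(I, ℂ)) : Lz i γ = Z i γ := by
  unfold Lz Z
  split_ifs <;> rfl

theorem Z_eq (i : I × Bool) : Z i = fun γ => Lz i γ := by
  funext γ
  exact (Lz_apply i γ).symm

theorem Z_cont (i : I × Bool) : Continuous (Z i) := by
  rw [Z_eq]
  exact (Lz i).continuous

theorem Z_f (t : I) (γ : C(I, ℂ)) : Z (t, false) γ = (γ t).re := by simp [Z]

theorem Z_t (t : I) (γ : C(I, ℂ)) : Z (t, true) γ = (γ t).im := by simp [Z]

theorem Z_f_rot (t : I) (γ : C(I, ℂ)) : Z (t, false) (Complex.I • γ) = -Z (t, true) γ := by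
  rw [Z_f, Z_t]
  simp

theorem Z_t_rot (t : I) (γ : C(I, ℂ)) : Z (t, true) (Complex.I • γ) = Z (t, false) γ := by
  rw [Z_f, Z_t]
  simp

theorem Z_f_star (t : I) (γ : C(I, ℂ)) : Z (t, false) (star γ) = Z (t, false) γ := by
  rw [Z_f, Z_f]
  simp

theorem Z_t_star (t : I) (γ : C(I, ℂ)) : Z (t, true) (star γ) = -Z (t, true) γ := by
  rw [Z_t, Z_t]
  simp

variable [MeasurableSpace C(I, ℂ)] [BorelSpace C(I, ℂ)] {H v : ℝ} {μ : Measure C(I, ℂ)}

theorem int_map {φ : C(I, ℂ) → C(I, ℂ)} (hφ : Continuous φ) (hμ : μ.map φ = μ)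
    {f : C(I, ℂ) → ℝ} (hf : Continuous f) : ∫ γ, f (φ γ) ∂μ = ∫ γ, f γ ∂μ := by
  calc ∫ γ, f (φ γ) ∂μ = ∫ γ, f γ ∂(μ.map φ) :=
        (integral_map hφ.measurable.aemeasurable hf.aestronglyMeasurable).symm
    _ = ∫ γ, f γ ∂μ := by rw [hμ]

theorem int_rot (hF : IsF H v μ) {f : C(I, ℂ) → ℝ} (hf : Continuous f) :
    ∫ γ, f (Complex.I • γ) ∂μ = ∫ γ, f γ ∂μ :=
  int_map (continuous_const_smul Complex.I) hF.rot hf

theorem int_star (hF : IsF H v μ) {f : C(I, ℂ) → ℝ} (hf : Continuous f) :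
    ∫ γ, f (star γ) ∂μ = ∫ γ, f γ ∂μ :=
  int_map continuous_star hF.conj hf

theorem gp (hF : IsF H v μ) : IsGaussianProcess Z μ := by
  have := hF.gauss
  refine ⟨fun J => ?_⟩
  have h1 : HasGaussianLaw (id : C(I, ℂ) → C(I, ℂ)) μ := IsGaussian.hasGaussianLaw_id
  have h2 := h1.map_fun (ContinuousLinearMap.pi (fun j : J => Lz (j : I × Bool)))
  have e : (fun γ : C(I, ℂ) => J.restrict (fun i => Z i γ)) =
      fun γ => ContinuousLinearMap.pi (fun j : J => Lz (j : I × Bool)) (id γ) := by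
    funext γ
    funext j
    exact (Lz_apply _ _).symm
  rw [e]
  exact h2

theorem memLp (hF : IsF H v μ) (i : I × Bool) : MemLp (Z i) 2 μ := by
  have := hF.gauss
  rw [Z_eq]
  exact IsGaussian.memLp_dual μ (Lz i) 2 (by simp)

theorem mean (hF : IsF H v μ) : ∀ i, ∫ γ, Z i γ ∂μ = 0 := by
  have h1 : ∀ t, ∫ γ, Z (t, false) γ ∂μ = -∫ γ, Z (t, true) γ ∂μ := by
    intro t
    rw [← int_rot hF (Z_cont (t, false)), ← integral_neg]
    exact integral_congr_ae (Eventually.of_forall fun γ => Z_f_rot t γ)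
  have h2 : ∀ t, ∫ γ, Z (t, true) γ ∂μ = ∫ γ, Z (t, false) γ ∂μ := by
    intro t
    rw [← int_rot hF (Z_cont (t, true))]
    exact integral_congr_ae (Eventually.of_forall fun γ => Z_t_rot t γ)
  rintro ⟨t, b⟩
  have h3 := h1 t
  have h4 := h2 t
  cases b
  · linarith
  · linarith

theorem cross (hF : IsF H v μ) (s t : I) : ∫ γ, Z (s, false) γ * Z (t, true) γ ∂μ = 0 := by
  have h := int_star hF ((Z_cont (s, false)).mul (Z_cont (t, true)))
  have e : ∫ γ, Z (s, false) (star γ) * Z (t, true) (star γ) ∂μ =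
      -∫ γ, Z (s, false) γ * Z (t, true) γ ∂μ := by
    rw [← integral_neg]
    apply integral_congr_ae
    filter_upwards with γ
    rw [Z_f_star, Z_t_star]
    ring
  have h' : ∫ γ, Z (s, false) (star γ) * Z (t, true) (star γ) ∂μ =
      ∫ γ, Z (s, false) γ * Z (t, true) γ ∂μ := h
  linarith

theorem covf (hF : IsF H v μ) (s t : I) :
    ∫ γ, Z (s, false) γ * Z (t, false) γ ∂μ = v * R (2 * H) s t := by
  rw [← hF.cov s t]
  apply integral_congr_ae
  filter_upwards with γ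
  rw [Z_f, Z_f]

theorem covt (hF : IsF H v μ) (s t : I) :
    ∫ γ, Z (s, true) γ * Z (t, true) γ ∂μ = v * R (2 * H) s t := by
  rw [← covf hF s t]
  have h : ∫ γ, Z (s, false) (Complex.I • γ) * Z (t, false) (Complex.I • γ) ∂μ =
      ∫ γ, Z (s, false) γ * Z (t, false) γ ∂μ :=
    int_rot hF ((Z_cont (s, false)).mul (Z_cont (t, false)))
  rw [← h]
  apply integral_congr_ae
  filter_upwards with γ
  rw [Z_f_rot, Z_f_rot]
  ring

end QC

open QC in
theorem t_cov : S_cov := by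
  intro mC hB H v μ hF
  exact ⟨gp hF, memLp hF, mean hF, cross hF, covf hF, covt hF⟩

end Pool.Agent.H994.FQ
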