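import Pool.Agent.H994.BM.Stm5
import Pool.Agent.H994.BM.Fin
import Pool.Agent.H994.BM.GG
import Pool.Agent.H994.BM.GD
import Pool.Agent.H994.BM.GF
import Pool.Agent.H994.BM.GB

/-!
Planar fractional Brownian motion: almost surely no piece of the path is a limit of injective
curves (MP_46f0ca_pr).
-/

set_option autoImplicit false

open MeasureTheory ProbabilityTheory Filter Topology
open scoped NNReal ENNReal unitInterval

namespace Pool.Agent.H994.FQ.QF

open Pool.Agent.H986.EV (ev seg)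
open Pool.Agent.H994.BM.Fin (piece piece_closure)

/-- the limits of injective curves -/
def Cl : Set C(I, ℂ) := closure {γ : C(I, ℂ) | Function.Injective γ}

theorem supp_inv [MeasurableSpace C(I, ℂ)] [BorelSpace C(I, ℂ)] (μ : Measure C(I, ℂ))
    (g : C(I, ℂ) → C(I, ℂ)) (hg : Continuous g) (he : μ.map g = μ) :
    ∀ γ ∈ μ.support, g γ ∈ μ.support := by
  intro γ hγ
  rw [Measure.mem_support_iff_forall] at hγ ⊢
  intro U hU
  obtain ⟨V, hVU, hVo, hV⟩ := mem_nhds_iff.1 hU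
  have h1 := hγ (g ⁻¹' V) ((hVo.preimage hg).mem_nhds hV)
  rw [← Measure.map_apply hg.measurable hVo.measurableSet, he] at h1
  exact h1.trans_le (measure_mono hVU)

/-- with positive probability the fractional Brownian motion crosses itself -/
theorem pos (hc : Pool.Agent.H994.FB.S_cnd) (mE : MeasurableSpace C(I, ℂ))
    (bE : BorelSpace C(I, ℂ)) {H v : ℝ} (μ : Measure C(I, ℂ)) (h0 : 0 < H) (h1 : H < 1)
    (hv : 0 < v) (hF : IsF H v μ) : μ Clᶜ ≠ 0 := by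
  intro hcl
  have hG := hF.gauss
  obtain ⟨a, b, c, d, k1, k2, k3, k4, k5, k6, α, β, δ, hne, hrel⟩ :=
    Pool.Agent.H994.GL.t_supp2 mE bE μ inferInstance
      (supp_inv μ _ (by fun_prop) hF.rot) (supp_inv μ _ continuous_star hF.conj)
      (Pool.Agent.H994.GL.t_gauss mE bE μ hG hF.rot) hcl
      ⟨1 / 5, by norm_num, by norm_num⟩ ⟨2 / 5, by norm_num, by norm_num⟩
      ⟨3 / 5, by norm_num, by norm_num⟩ ⟨4 / 5, by norm_num, by norm_num⟩
      (Subtype.mk_lt_mk.2 (by norm_num)) (Subtype.mk_lt_mk.2 (by norm_num))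
      (Subtype.mk_lt_mk.2 (by norm_num))
  have ha : (1 / 5 : ℝ) ≤ a := k1
  have hab : (a : ℝ) < b := k2
  have hb : (b : ℝ) ≤ 2 / 5 := k3
  have hc' : (3 / 5 : ℝ) ≤ c := k4
  have hcd : (c : ℝ) < d := k5
  have hs : √v * √v = v := Real.mul_self_sqrt hv.le
  have hs0 : 0 < √v := Real.sqrt_pos.2 hv
  have key : ∀ s t : I, ∫ γ : C(I, ℂ), (√v)⁻¹ * (γ s).re * ((√v)⁻¹ * (γ t).re) ∂μ =
      ((s : ℝ) ^ (2 * H) + (t : ℝ) ^ (2 * H) - |(s : ℝ) - t| ^ (2 * H)) / 2 := by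
    intro s t
    have e1 : (fun γ : C(I, ℂ) => (√v)⁻¹ * (γ s).re * ((√v)⁻¹ * (γ t).re)) =
        fun γ => v⁻¹ * ((γ s).re * (γ t).re) := by
      funext γ
      have e2 : (√v)⁻¹ * (√v)⁻¹ = v⁻¹ := by
        rw [← mul_inv, hs]
      rw [← e2]
      ring
    rw [e1, integral_const_mul, hF.cov, ← mul_assoc, inv_mul_cancel₀ hv.ne', one_mul]
    rfl
  refine Pool.Agent.H994.FB.GF.no_rel μ hc 4 ![(a : ℝ), b, c, d] ![-α, α - β, β - δ, δ] (2 * H)
    (by linarith) (by linarith) ?_ ?_ ?_ ?_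
    ![fun γ => (√v)⁻¹ * (γ a).re, fun γ => (√v)⁻¹ * (γ b).re, fun γ => (√v)⁻¹ * (γ c).re,
      fun γ => (√v)⁻¹ * (γ d).re] ?_ ?_
  · have hm : StrictMono ![(a : ℝ), b, c, d] := by
      rw [Fin.strictMono_iff_lt_succ]
      intro i
      fin_cases i
      · exact hab
      · show (b : ℝ) < c
        linarith
      · exact hcd
    exact hm.injective
  · intro i
    fin_cases i
    · show (0 : ℝ) < a
      linarith
    · show (0 : ℝ) < b
      linarith
    · show (0 : ℝ) < c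
      linarith
    · show (0 : ℝ) < d
      linarith
  · intro h
    apply hne
    have e0 : -α = 0 := congrFun h 0
    have e1 : α - β = 0 := congrFun h 1
    have e3 : δ = 0 := congrFun h 3
    have e4 : α = 0 := by linarith
    have e5 : β = 0 := by linarith
    rw [e3, e4, e5]
  · rw [Fin.sum_univ_four]
    show -α + (α - β) + (β - δ) + δ = 0
    ring
  · intro i j
    fin_cases i <;> fin_cases j <;> exact key _ _
  · filter_upwards [hrel] with γ hγ
    have h2 := congrArg Complex.re hγ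
    simp only [Complex.add_re, Complex.re_ofReal_mul, Complex.sub_re, Complex.zero_re] at h2
    rw [Fin.sum_univ_four]
    show -α * ((√v)⁻¹ * (γ a).re) + (α - β) * ((√v)⁻¹ * (γ b).re) +
      (β - δ) * ((√v)⁻¹ * (γ c).re) + δ * ((√v)⁻¹ * (γ d).re) = 0
    have h3 : -α * ((√v)⁻¹ * (γ a).re) + (α - β) * ((√v)⁻¹ * (γ b).re) +
      (β - δ) * ((√v)⁻¹ * (γ c).re) + δ * ((√v)⁻¹ * (γ d).re) =
      (√v)⁻¹ * (α * ((γ b).re - (γ a).re) + β * ((γ c).re - (γ b).re) +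
        δ * ((γ d).re - (γ c).re)) := by ring
    rw [h3, h2, mul_zero]

theorem smul_mem {γ : C(I, ℂ)} (h : γ ∈ Cl) (c : ℝ) (hc : 0 < c) : c • γ ∈ Cl := by
  refine map_mem_closure (continuous_const_smul c) h ?_
  intro γ hγ x y hxy
  exact hγ (smul_right_injective ℂ hc.ne' hxy)

theorem sub_const_mem {γ : C(I, ℂ)} (h : γ ∈ Cl) (z : ℂ) : γ - ContinuousMap.const I z ∈ Cl := by
  refine map_mem_closure (f := fun γ : C(I, ℂ) => γ - ContinuousMap.const I z) (by fun_prop) h ?_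
  intro γ hγ x y hxy
  exact hγ (sub_left_injective hxy)

theorem seg_eq (a b : ℝ) (γ : C(I, ℂ)) :
    seg a b γ = piece a b γ - ContinuousMap.const I (ev γ a) := rfl

theorem piece_eq (a b : ℝ) (γ : C(I, ℂ)) :
    piece a b γ = seg a b γ - ContinuousMap.const I (- ev γ a) := by
  rw [seg_eq]
  ext x
  simp

theorem seg_mem {γ : C(I, ℂ)} (h : γ ∈ Cl) {a b : ℝ} (ha : 0 ≤ a) (hab : a < b) (hb : b ≤ 1) :
    seg a b γ ∈ Cl := by
  rw [seg_eq]
  exact sub_const_mem (piece_closure ha hab hb h) _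

/-- a piece of a piece -/
theorem piece_piece {γ : C(I, ℂ)} {a b a' b' : ℝ} (haa : a ≤ a') (hab : a' < b')
    (hbb : b' ≤ b) (h : piece a b γ ∈ Cl) : piece a' b' γ ∈ Cl := by
  have hL : 0 < b - a := by linarith
  have e1 : piece ((a' - a) / (b - a)) ((b' - a) / (b - a)) (piece a b γ) = piece a' b' γ := by
    ext x
    show γ (Set.projIcc 0 1 zero_le_one (a + (Set.projIcc (0 : ℝ) 1 zero_le_one
      ((a' - a) / (b - a) + (x : ℝ) * ((b' - a) / (b - a) - (a' - a) / (b - a))) : ℝ) *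
        (b - a))) = γ (Set.projIcc 0 1 zero_le_one (a' + (x : ℝ) * (b' - a')))
    have hx0 := x.2.1
    have hx1 := x.2.2
    have e2 : (a' - a) / (b - a) + (x : ℝ) * ((b' - a) / (b - a) - (a' - a) / (b - a)) =
        (a' + x * (b' - a') - a) / (b - a) := by
      field_simp
      ring
    have h1 : (a' + x * (b' - a') - a) / (b - a) ∈ Set.Icc (0 : ℝ) 1 := by
      constructor
      · apply div_nonneg _ hL.le
        nlinarith
      · rw [div_le_one hL]
        nlinarith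
    rw [e2, Set.projIcc_of_mem _ h1]
    congr 2
    field_simp
    ring
  rw [← e1]
  refine piece_closure ?_ ?_ ?_ h
  · exact div_nonneg (by linarith) hL.le
  · exact div_lt_div_of_pos_right (by linarith) hL
  · rw [div_le_one hL]
    linarith

/-- the limits of injective curves are a null set -/
theorem null (hc : Pool.Agent.H994.FB.S_cnd) (hn : S_null) (mE : MeasurableSpace C(I, ℂ))
    (bE : BorelSpace C(I, ℂ)) {H v : ℝ} (μ : Measure C(I, ℂ)) (h0 : 0 < H) (h1 : H < 1)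
    (hv : 0 < v) (hF : IsF H v μ) : μ Cl = 0 :=
  hn mE bE H v μ h0 h1 hF Cl isClosed_closure (fun _ h c hc => smul_mem h c hc)
    (fun _ h _ h2 h3 => seg_mem h le_rfl h2 h3) (pos hc mE bE μ h0 h1 hv hF)

/-- almost surely no piece of the fractional Brownian motion is a limit of injective curves -/
theorem all (hc : Pool.Agent.H994.FB.S_cnd) (hn : S_null) (hs : S_seg)
    (mE : MeasurableSpace C(I, ℂ)) (bE : BorelSpace C(I, ℂ)) {H v : ℝ} (μ : Measure C(I, ℂ))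
    (h0 : 0 < H) (h1 : H < 1) (hv : 0 < v) (hF : IsF H v μ) :
    ∀ᵐ γ ∂μ, ∀ a b : ℝ, 0 ≤ a → a < b → b ≤ 1 → piece a b γ ∉ Cl := by
  have h2 : ∀ a b : ℚ, ∀ᵐ γ ∂μ, (0 : ℝ) ≤ a → (a : ℝ) < b → (b : ℝ) ≤ 1 → seg a b γ ∉ Cl := by
    intro a b
    by_cases h : (0 : ℝ) ≤ a ∧ (a : ℝ) < b ∧ (b : ℝ) ≤ 1
    · have h3 := null hc hn mE bE _ h0 h1
        (mul_pos hv (Real.rpow_pos_of_pos (sub_pos.2 h.2.1) _)) (hs mE bE H v μ h0 hF a b h.1 h.2.1 h.2.2)
      rw [Measure.map_apply (Pool.Agent.H986.EV.seg_cont _ _).measurable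
        (show IsClosed Cl from isClosed_closure).measurableSet] at h3
      filter_upwards [measure_eq_zero_iff_ae_notMem.1 h3] with γ hγ _ _ _
      exact hγ
    · exact Eventually.of_forall fun γ h3 h4 h5 => absurd ⟨h3, h4, h5⟩ h
  have h3 : ∀ᵐ γ ∂μ, ∀ a b : ℚ, (0 : ℝ) ≤ a → (a : ℝ) < b → (b : ℝ) ≤ 1 → seg a b γ ∉ Cl :=
    ae_all_iff.2 fun a => ae_all_iff.2 fun b => h2 a b
  filter_upwards [h3] with γ hγ a b ha hab hb hmem
  obtain ⟨a', ha1, ha2⟩ := exists_rat_btwn hab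
  obtain ⟨b', hb1, hb2⟩ := exists_rat_btwn ha2
  refine hγ a' b' (by linarith) hb1 (by linarith) ?_
  have h4 := piece_piece ha1.le hb1 hb2.le hmem
  rw [seg_eq]
  exact sub_const_mem h4 _

/-- the image of a monotone clock -/
theorem clock (G ζ : C(I, ℂ)) (h : ℂ ≃ₜ ℂ) (τ : C(I, I)) (p q : I) (hpq : p < q)
    (hm : Monotone τ ∨ Antitone τ) (hr : ∀ x, p ≤ τ x ∧ τ x ≤ q) (hp : p ∈ Set.range τ)
    (hq : q ∈ Set.range τ) (hx : ∀ x, ζ x = h (G (τ x))) (hζ : ζ ∈ Cl) :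
    piece p q G ∈ Cl := by
  have hL : (0 : ℝ) < q - p := sub_pos.2 hpq
  have hmem : ∀ x : I, ((τ x : ℝ) - p) / (q - p) ∈ Set.Icc (0 : ℝ) 1 := by
    intro x
    have h1 : (p : ℝ) ≤ τ x := (hr x).1
    have h2 : (τ x : ℝ) ≤ q := (hr x).2
    constructor
    · exact div_nonneg (by linarith) hL.le
    · rw [div_le_one hL]
      linarith
  let τ' : C(I, I) := ⟨fun x => ⟨((τ x : ℝ) - p) / (q - p), hmem x⟩, by fun_prop⟩
  have hτ' : ∀ x, ((τ' x : I) : ℝ) = ((τ x : ℝ) - p) / (q - p) := fun x => rfl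
  refine Pool.Agent.H994.GL.t_back (piece p q G) ζ h τ' ?_ ?_ ?_ hζ
  · rcases hm with hm | hm
    · left
      intro x y hxy
      have h1 : (τ x : ℝ) ≤ τ y := hm hxy
      show ((τ x : ℝ) - p) / (q - p) ≤ ((τ y : ℝ) - p) / (q - p)
      gcongr
    · right
      intro x y hxy
      have h1 : (τ y : ℝ) ≤ τ x := hm hxy
      show ((τ y : ℝ) - p) / (q - p) ≤ ((τ x : ℝ) - p) / (q - p)
      gcongr
  · obtain ⟨x0, h0⟩ := hp
    obtain ⟨x1, h1⟩ := hq
    have e0 : τ' x0 = 0 := by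
      apply Subtype.ext
      rw [hτ', h0]
      simp
    have e1 : τ' x1 = 1 := by
      apply Subtype.ext
      rw [hτ', h1, div_self hL.ne']
      rfl
    intro y
    have hc : IsPreconnected (Set.range τ') := isPreconnected_range τ'.continuous
    have hoc := hc.ordConnected
    have : y ∈ Set.range τ' :=
      hoc.out (⟨x0, e0⟩ : (0 : I) ∈ Set.range τ') (⟨x1, e1⟩ : (1 : I) ∈ Set.range τ')
        ⟨y.2.1, y.2.2⟩
    exact this
  · intro x
    rw [hx x]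
    congr 1
    show G (τ x) = G (Set.projIcc 0 1 zero_le_one ((p : ℝ) + ((τ' x : I) : ℝ) * (q - p)))
    have e : (p : ℝ) + ((τ' x : I) : ℝ) * (q - p) = τ x := by
      rw [hτ', div_mul_cancel₀ _ hL.ne']
      ring
    rw [e, Set.projIcc_val]

/-- a limit of injective curves has no deformed piece of a path without such pieces -/
theorem no_piece (G : C(I, ℂ))
    (hG : ∀ a b : ℝ, 0 ≤ a → a < b → b ≤ 1 → piece a b G ∉ Cl) (ζ : C(I, ℂ)) (hζ : ζ ∈ Cl)
    (h : ℂ ≃ₜ ℂ) (τ : C(I, I)) (hm : Monotone τ ∨ Antitone τ) (hx : ∀ x, ζ x = h (G (τ x)))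
    (x y : I) : ζ x = ζ y := by
  rcases hm with hm | hm
  · rcases (hm (zero_le_one : (0 : I) ≤ 1)).lt_or_eq with h1 | h1
    · exact absurd (clock G ζ h τ (τ 0) (τ 1) h1 (Or.inl hm)
        (fun x => ⟨hm x.2.1, hm x.2.2⟩) ⟨0, rfl⟩ ⟨1, rfl⟩ hx hζ) (hG _ _ (τ 0).2.1 h1 (τ 1).2.2)
    · have h2 : ∀ x, τ x = τ 0 := fun x => le_antisymm ((hm x.2.2).trans h1.symm.le) (hm x.2.1)
      rw [hx, hx, h2 x, h2 y]
  · rcases (hm (zero_le_one : (0 : I) ≤ 1)).lt_or_eq with h1 | h1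
    · exact absurd (clock G ζ h τ (τ 1) (τ 0) h1 (Or.inr hm)
        (fun x => ⟨hm x.2.2, hm x.2.1⟩) ⟨1, rfl⟩ ⟨0, rfl⟩ hx hζ) (hG _ _ (τ 1).2.1 h1 (τ 0).2.2)
    · have h2 : ∀ x, τ x = τ 0 := fun x => le_antisymm (hm x.2.1) (h1.symm.le.trans (hm x.2.2))
      rw [hx, hx, h2 x, h2 y]

end Pool.Agent.H994.FQ.QF
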