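import Pool.Agent.H994.BM.QF

/-!
The planar fractional Brownian motion is far from all simple curves, with probability close to one
(MP_46f0ca_pr).
-/

set_option autoImplicit false

open MeasureTheory ProbabilityTheory Filter Topology
open scoped NNReal ENNReal unitInterval

namespace Pool.Agent.H994.FQ.QF

theorem far (hc : Pool.Agent.H994.FB.S_cnd) (hn : S_null) (hu : S_uniq)
    (mE : MeasurableSpace C(I, ℂ)) (bE : BorelSpace C(I, ℂ)) {H : ℝ} (h0 : 0 < H) (h1 : H < 1)
    (η : ℝ) (hη : 0 < η) : ∃ ε : ℝ, 0 < ε ∧ ∀ μ : Measure C(I, ℂ), IsF H 1 μ →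
      μ {γ | Metric.infDist γ Cl ≤ ε} ≤ ENNReal.ofReal η := by
  by_cases hex : ∃ μ : Measure C(I, ℂ), IsF H 1 μ
  · obtain ⟨μ, hμ⟩ := hex
    have hG := hμ.gauss
    have hne : Cl.Nonempty :=
      ⟨_, subset_closure (show (⟨fun x : unitInterval => ((x : ℝ) : ℂ), by fun_prop⟩ :
        C(unitInterval, ℂ)) ∈ {γ : C(unitInterval, ℂ) | Function.Injective γ} from by
          intro x y hxy
          exact Subtype.ext (Complex.ofReal_injective hxy))⟩
    have hcl : IsClosed Cl := isClosed_closure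
    have hanti : Antitone fun k : ℕ => {γ | Metric.infDist γ Cl ≤ 1 / ((k : ℝ) + 1)} := by
      intro k l hkl γ hγ
      refine (show Metric.infDist γ Cl ≤ 1 / ((l : ℝ) + 1) from hγ).trans ?_
      apply one_div_le_one_div_of_le (by positivity)
      have : (k : ℝ) ≤ l := by exact_mod_cast hkl
      linarith
    have hinter : ⋂ k : ℕ, {γ | Metric.infDist γ Cl ≤ 1 / ((k : ℝ) + 1)} = Cl := by
      ext γ
      rw [Set.mem_iInter, hcl.mem_iff_infDist_zero hne]
      constructor
      · intro h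
        refine le_antisymm ?_ Metric.infDist_nonneg
        exact ge_of_tendsto' tendsto_one_div_add_atTop_nhds_zero_nat h
      · intro h k
        show Metric.infDist γ Cl ≤ 1 / ((k : ℝ) + 1)
        rw [h]
        positivity
    have ht : Tendsto (fun k : ℕ => μ {γ | Metric.infDist γ Cl ≤ 1 / ((k : ℝ) + 1)}) atTop
        (𝓝 0) := by
      have h2 := tendsto_measure_iInter_atTop (μ := μ)
        (s := fun k : ℕ => {γ | Metric.infDist γ Cl ≤ 1 / ((k : ℝ) + 1)})
        (fun k => (isClosed_le (Metric.continuous_infDist_pt Cl)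
          continuous_const).measurableSet.nullMeasurableSet) hanti ⟨0, measure_ne_top _ _⟩
      rw [hinter, null hc hn mE bE μ h0 h1 one_pos hμ] at h2
      exact h2
    obtain ⟨k, hk⟩ := (ht.eventually_le_const (ENNReal.ofReal_pos.2 hη)).exists
    refine ⟨1 / ((k : ℝ) + 1), by positivity, fun μ' hμ' => ?_⟩
    rw [hu mE bE H 1 μ' μ hμ' hμ]
    exact hk
  · exact ⟨1, one_pos, fun μ hμ => absurd ⟨μ, hμ⟩ hex⟩

end Pool.Agent.H994.FQ.QF
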