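import Pool.Agent.H994.BM.Stm5

/-!
Planar fractional Brownian motion: regression on finitely many times.  The path minus its
regression is independent of the values at these times, and the regression is small at `0`.
-/

set_option autoImplicit false
set_option linter.unusedSectionVars false

open MeasureTheory ProbabilityTheory Filter Topology
open scoped NNReal ENNReal unitInterval

namespace Pool.Agent.H994.FQ

open Pool.Agent.H986.EV (ev seg)

namespace QI

theorem R_comm (p s t : ℝ) : R p s t = R p t s := by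
  unfold R
  rw [abs_sub_comm s t, add_comm (s ^ p) (t ^ p)]

theorem R_cont (p : ℝ) (hp : 0 < p) (t : ℝ) : Continuous (fun s : ℝ => R p t s) := by
  unfold R
  have h1 : Continuous (fun x : ℝ => x ^ p) := Real.continuous_rpow_const hp.le
  have h2 : Continuous (fun s : ℝ => |t - s| ^ p) := h1.comp (by fun_prop)
  exact ((continuous_const.add h1).sub h2).div_const 2

/-- the regression coefficients -/
noncomputable def cf (p : ℝ) (F : Finset I) (a : F → F → ℝ) (j : F) (s : ℝ) : ℝ :=
  ∑ k, a j k * R p ((k : I) : ℝ) s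

theorem cf_cont (p : ℝ) (hp : 0 < p) (F : Finset I) (a : F → F → ℝ) (j : F) :
    Continuous (cf p F a j) := by
  unfold cf
  exact continuous_finsetSum _ fun k _ => continuous_const.mul (R_cont p hp _)

/-- the regression coefficient as a curve -/
noncomputable def cC (p : ℝ) (hp : 0 < p) (F : Finset I) (a : F → F → ℝ) (j : F) : C(I, ℂ) where
  toFun s := ((cf p F a j (s : ℝ) : ℝ) : ℂ)
  continuous_toFun := Complex.continuous_ofReal.comp ((cf_cont p hp F a j).comp continuous_subtype_val)

/-- the path minus its regression -/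
noncomputable def Ph (p : ℝ) (hp : 0 < p) (F : Finset I) (a : F → F → ℝ) (γ : C(I, ℂ)) : C(I, ℂ) :=
  γ - ∑ j : F, γ (j : I) • cC p hp F a j

theorem Ph_apply (p : ℝ) (hp : 0 < p) (F : Finset I) (a : F → F → ℝ) (γ : C(I, ℂ)) (s : I) :
    Ph p hp F a γ s = γ s - ∑ j : F, γ (j : I) * ((cf p F a j (s : ℝ) : ℝ) : ℂ) := by
  unfold Ph
  rw [ContinuousMap.sub_apply, ContinuousMap.sum_apply]
  rfl

theorem Ph_cont (p : ℝ) (hp : 0 < p) (F : Finset I) (a : F → F → ℝ) :
    Continuous (Ph p hp F a) := by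
  unfold Ph
  refine continuous_id.sub (continuous_finsetSum _ fun j _ => ?_)
  have h : Continuous (fun γ : C(I, ℂ) => γ (j : I)) := continuous_eval_const (j : I)
  exact h.smul continuous_const

theorem Z_Ph (p : ℝ) (hp : 0 < p) (F : Finset I) (a : F → F → ℝ) (γ : C(I, ℂ)) (s : I) (b : Bool) :
    Z (s, b) (Ph p hp F a γ) = Z (s, b) γ - ∑ j : F, cf p F a j (s : ℝ) * Z ((j : I), b) γ := by
  unfold Z
  rw [Ph_apply]
  cases b with
  | false =>
    simp only [Bool.false_eq_true, if_false, Complex.sub_re, Complex.re_sum, Complex.re_mul_ofReal]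
    congr 1
    exact Finset.sum_congr rfl fun j _ => mul_comm _ _
  | true =>
    simp only [if_true, Complex.sub_im, Complex.im_sum, Complex.im_mul_ofReal]
    congr 1
    exact Finset.sum_congr rfl fun j _ => mul_comm _ _

theorem small (h2 : S_small) (H : ℝ) (hH : 0 < H) (hH1 : H < 1) (hp : 0 < 2 * H) (F : Finset I)
    (hF : ∀ t ∈ F, 0 < t) (a : F → F → ℝ) (γ : C(I, ℂ)) :
    Tendsto (fun s : ℝ => ‖ev (Ph (2 * H) hp F a γ - γ) s‖ / s ^ H) (𝓝[>] 0) (𝓝 0) := by
  have t1 : ∀ j : F, Tendsto (fun s : ℝ => cf (2 * H) F a j s / s ^ H) (𝓝[>] 0) (𝓝 0) := by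
    intro j
    have e1 : (fun s : ℝ => cf (2 * H) F a j s / s ^ H) =
        fun s : ℝ => ∑ k, a j k * (R (2 * H) ((k : I) : ℝ) s / s ^ H) := by
      funext s
      unfold cf
      rw [Finset.sum_div]
      exact Finset.sum_congr rfl fun k _ => by ring
    rw [e1]
    have e2 : Tendsto (fun s : ℝ => ∑ k, a j k * (R (2 * H) ((k : I) : ℝ) s / s ^ H)) (𝓝[>] 0)
        (𝓝 (∑ k : F, a j k * 0)) :=
      tendsto_finsetSum _ fun k _ => (h2 H hH hH1 _ (hF k.1 k.2)).const_mul _
    simpa using e2
  have t2 : Tendsto (fun s : ℝ => ∑ j : F, ‖γ (j : I)‖ * |cf (2 * H) F a j s / s ^ H|) (𝓝[>] 0)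
      (𝓝 0) := by
    have e2 : Tendsto (fun s : ℝ => ∑ j : F, ‖γ (j : I)‖ * |cf (2 * H) F a j s / s ^ H|) (𝓝[>] 0)
        (𝓝 (∑ j : F, ‖γ (j : I)‖ * |(0 : ℝ)|)) :=
      tendsto_finsetSum _ fun j _ => ((t1 j).abs).const_mul _
    simpa using e2
  refine squeeze_zero' ?_ ?_ t2
  · filter_upwards [self_mem_nhdsWithin] with s hs
    have : 0 < s := hs
    positivity
  · have hs1 : ∀ᶠ s : ℝ in 𝓝[>] 0, s < 1 := mem_nhdsWithin_of_mem_nhds (Iio_mem_nhds one_pos)
    filter_upwards [self_mem_nhdsWithin, hs1] with s hs hs1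
    have hs0 : (0 : ℝ) < s := hs
    have hpr : ((Set.projIcc 0 1 zero_le_one s : I) : ℝ) = s := by
      rw [Set.projIcc_of_mem zero_le_one ⟨hs0.le, hs1.le⟩]
    have hev : ev (Ph (2 * H) hp F a γ - γ) s =
        - ∑ j : F, γ (j : I) * ((cf (2 * H) F a j s : ℝ) : ℂ) := by
      unfold Pool.Agent.H986.EV.ev
      rw [ContinuousMap.sub_apply, Ph_apply, hpr]
      ring
    rw [hev, norm_neg]
    have hsH : 0 < s ^ H := Real.rpow_pos_of_pos hs0 H
    calc ‖∑ j : F, γ (j : I) * ((cf (2 * H) F a j s : ℝ) : ℂ)‖ / s ^ H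
        ≤ (∑ j : F, ‖γ (j : I)‖ * |cf (2 * H) F a j s|) / s ^ H := by
          apply div_le_div_of_nonneg_right _ hsH.le
          refine (norm_sum_le _ _).trans (Finset.sum_le_sum fun j _ => ?_)
          rw [norm_mul, Complex.norm_real, Real.norm_eq_abs]
      _ = ∑ j : F, ‖γ (j : I)‖ * |cf (2 * H) F a j s / s ^ H| := by
          rw [Finset.sum_div]
          refine Finset.sum_congr rfl fun j _ => ?_
          rw [abs_div, abs_of_pos hsH]
          ring

/-- the joint process is Gaussian -/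
theorem gauss {m : MeasurableSpace C(I, ℂ)} {μ : Measure C(I, ℂ)} (hg : IsGaussianProcess Z μ)
    (p : ℝ) (hp : 0 < p) (F : Finset I) (a : F → F → ℝ) :
    IsGaussianProcess (Sum.elim (fun (i : I × Bool) (γ : C(I, ℂ)) => Z i (Ph p hp F a γ))
      (fun (i : F × Bool) (γ : C(I, ℂ)) => Z ((i.1 : I), i.2) γ)) μ := by
  classical
  refine hg.of_isGaussianProcess fun i => ?_
  rcases i with ⟨s, b⟩ | ⟨j, b⟩
  · let J : Finset (I × Bool) := insert (s, b) (Finset.univ.image fun j : F => ((j : I), b))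
    have h1 : (s, b) ∈ J := Finset.mem_insert_self _ _
    have h2 : ∀ j : F, ((j : I), b) ∈ J := fun j =>
      Finset.mem_insert_of_mem (Finset.mem_image_of_mem _ (Finset.mem_univ j))
    refine ⟨J, ContinuousLinearMap.proj (R := ℝ) (φ := fun _ : J => ℝ) ⟨(s, b), h1⟩ -
      ∑ j : F, cf p F a j (s : ℝ) • ContinuousLinearMap.proj (R := ℝ) (φ := fun _ : J => ℝ)
        ⟨((j : I), b), h2 j⟩, fun γ => ?_⟩
    simp only [Sum.elim_inl, Z_Ph, sub_apply, sum_apply, smul_apply, ContinuousLinearMap.proj_apply,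
      Finset.restrict, smul_eq_mul]
  · exact ⟨{((j : I), b)}, ContinuousLinearMap.proj (R := ℝ) (φ := fun _ => ℝ)
      ⟨((j : I), b), Finset.mem_singleton_self _⟩, fun γ => rfl⟩

end QI

open QI

theorem t_indep (h0 : S_borel) (h1 : S_cov) (h2 : S_small) (h3 : S_reg) : S_indep := by
  intro m hm H v μ hH hH1 hμ F hF
  have hp : 0 < 2 * H := by linarith
  obtain ⟨a, ha⟩ := h3 H hH hH1 F inferInstance (fun j => ((j : I) : ℝ))
    (Subtype.val_injective.comp Subtype.val_injective) (fun j => hF j.1 j.2)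
  obtain ⟨hg, hL, h0m, hft, hff, htt⟩ := h1 m hm H v μ hμ
  have hP : IsProbabilityMeasure μ := hg.isProbabilityMeasure
  refine ⟨Ph (2 * H) hp F a, (Ph_cont (2 * H) hp F a).measurable,
    small h2 H hH hH1 hp F hF a, ?_⟩
  have hmZ : ∀ i, Measurable (Z i) := by
    intro i
    have hev : Measurable (fun γ : C(I, ℂ) => γ i.1) :=
      (continuous_eval_const i.1).measurable
    unfold Z
    cases i.2 with
    | false =>
      simp only [Bool.false_eq_true, if_false]
      exact Complex.measurable_re.comp hev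
    | true =>
      simp only [if_true]
      exact Complex.measurable_im.comp hev
  have hcov : ∀ (s t : I) (b b' : Bool), cov[Z (s, b), Z (t, b'); μ] =
      if b = b' then v * R (2 * H) s t else 0 := by
    intro s t b b'
    rw [covariance_eq_sub (hL _) (hL _), h0m, h0m, mul_zero, sub_zero]
    cases b <;> cases b'
    · simpa using hff s t
    · simpa using hft s t
    · have : (fun γ => Z (s, true) γ * Z (t, false) γ) = fun γ => Z (t, false) γ * Z (s, true) γ := by
        funext γ; ring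
      have h := hft t s
      simp only [reduceCtorEq, if_false]
      rw [← h]
      exact congrArg (fun f => ∫ γ, f γ ∂μ) this
    · simpa using htt s t
  have hind := (gauss hg (2 * H) hp F a).indepFun_of_covariance_eq_zero
    (fun i => ((hmZ i).comp (Ph_cont (2 * H) hp F a).measurable).aemeasurable)
    (fun i => (hmZ _).aemeasurable) (by
      rintro ⟨s, b⟩ ⟨i, b'⟩
      have e1 : (fun γ : C(I, ℂ) => Z (s, b) (Ph (2 * H) hp F a γ)) =
          fun γ => Z (s, b) γ - ∑ j : F, cf (2 * H) F a j (s : ℝ) * Z ((j : I), b) γ := by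
        funext γ
        exact Z_Ph _ _ _ _ _ _ _
      change cov[(fun γ : C(I, ℂ) => Z (s, b) (Ph (2 * H) hp F a γ)), Z ((i : I), b'); μ] = 0
      rw [e1, covariance_fun_sub_left (hL _) (memLp_finsetSum _ fun j _ => (hL _).const_mul _)
        (hL _), covariance_fun_sum_left (fun j => (hL _).const_mul _) (hL _)]
      simp only [covariance_const_mul_left, hcov]
      by_cases hb : b = b'
      · simp only [hb, if_true]
        have h := ha (s : ℝ) i
        have h' : R (2 * H) ((i : I) : ℝ) (s : ℝ) =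
            ∑ j : F, cf (2 * H) F a j (s : ℝ) * R (2 * H) ((j : I) : ℝ) ((i : I) : ℝ) := h
        rw [R_comm (2 * H) (s : ℝ), h', Finset.mul_sum, sub_eq_zero]
        exact Finset.sum_congr rfl fun j _ => by ring
      · simp [hb])
  have hG : Measurable (fun (x : I × Bool → ℝ) (t : I) => (⟨x (t, false), x (t, true)⟩ : ℂ)) := by
    refine measurable_pi_lambda _ fun t => ?_
    have e : (fun x : I × Bool → ℝ => (⟨x (t, false), x (t, true)⟩ : ℂ)) =
        fun x => (x (t, false) : ℂ) + (x (t, true) : ℂ) * Complex.I := by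
      funext x
      apply Complex.ext <;> simp
    rw [e]
    fun_prop
  have hG' : Measurable (fun (x : F × Bool → ℝ) (t : F) => (⟨x (t, false), x (t, true)⟩ : ℂ)) := by
    refine measurable_pi_lambda _ fun t => ?_
    have e : (fun x : F × Bool → ℝ => (⟨x (t, false), x (t, true)⟩ : ℂ)) =
        fun x => (x (t, false) : ℂ) + (x (t, true) : ℂ) * Complex.I := by
      funext x
      apply Complex.ext <;> simp
    rw [e]
    fun_prop
  have h4 := hind.comp hG hG'
  rw [IndepFun_iff_Indep] at h4 ⊢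
  have e1 : MeasurableSpace.comap (Ph (2 * H) hp F a) m = MeasurableSpace.comap
      ((fun (x : I × Bool → ℝ) (t : I) => (⟨x (t, false), x (t, true)⟩ : ℂ)) ∘
        fun (γ : C(I, ℂ)) (i : I × Bool) => Z i (Ph (2 * H) hp F a γ)) MeasurableSpace.pi := by
    conv_lhs => rw [h0 m hm]
    rw [MeasurableSpace.comap_comp]
    congr 1
  rw [e1]
  exact h4

end Pool.Agent.H994.FQ
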