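import Pool.Agent.H994.BM.Stm5

/-!
Closed cones of curves which are stable under cutting at the start are null sets (or have full measure).
-/

set_option autoImplicit false

open MeasureTheory ProbabilityTheory Filter Topology
open scoped NNReal ENNReal unitInterval

namespace Pool.Agent.H994.FQ.QN

open Pool.Agent.H986.EV (ev seg seg_apply seg_cont ev_cont)
open Pool.Agent.H994.FQ

/-- the rescaled initial piece of a curve -/
noncomputable def X (H ε : ℝ) (γ : C(I, ℂ)) : C(I, ℂ) := (ε ^ (-H)) • seg 0 ε γ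

lemma X_cont (H ε : ℝ) : Continuous (X H ε) := by
  have h : Continuous (fun γ : C(I, ℂ) => (ε ^ (-H)) • γ) := continuous_const_smul (ε ^ (-H))
  exact h.comp (seg_cont 0 ε)

lemma X_law (h1 : S_uniq) (h2 : S_seg) (h3 : S_smul) [MeasurableSpace C(I, ℂ)] [BorelSpace C(I, ℂ)] {H v : ℝ}
    {μ : Measure C(I, ℂ)} (hH : 0 < H) (hμ : IsF H v μ) {ε : ℝ} (hε : 0 < ε) (hε1 : ε ≤ 1) :
    μ.map (X H ε) = μ := by
  have a := h2 inferInstance inferInstance H v μ hH hμ 0 ε le_rfl hε hε1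
  have b := h3 inferInstance inferInstance H _ (ε ^ (-H)) _ a
  have e : (ε ^ (-H)) ^ 2 * (v * (ε - 0) ^ (2 * H)) = v := by
    rw [sub_zero, ← Real.rpow_natCast (ε ^ (-H)) 2, ← Real.rpow_mul hε.le]
    have : ε ^ (-H * ((2 : ℕ) : ℝ)) * (v * ε ^ (2 * H)) = v * (ε ^ (-H * ((2 : ℕ) : ℝ)) * ε ^ (2 * H)) := by ring
    rw [this, ← Real.rpow_add hε]
    have e2 : -H * ((2 : ℕ) : ℝ) + 2 * H = 0 := by push_cast; ring
    rw [e2, Real.rpow_zero, mul_one]
  rw [e] at b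
  have c : (μ.map (seg 0 ε)).map (fun γ => (ε ^ (-H)) • γ) = μ.map (X H ε) := by
    rw [Measure.map_map ((continuous_const_smul (ε ^ (-H))).measurable) (seg_cont 0 ε).measurable]
    rfl
  rw [c] at b
  exact h1 inferInstance inferInstance H v _ _ b hμ

lemma ev_zero {H : ℝ} (hH : 0 < H) {h : C(I, ℂ)} (hh : Tendsto (fun s : ℝ => ‖ev h s‖ / s ^ H) (𝓝[>] 0) (𝓝 0)) :
    ev h 0 = 0 := by
  have h1 : Tendsto (fun s : ℝ => ‖ev h s‖) (𝓝[>] 0) (𝓝 ‖ev h 0‖) :=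
    ((ev_cont h).norm.tendsto 0).mono_left nhdsWithin_le_nhds
  have h2 : Tendsto (fun s : ℝ => s ^ H) (𝓝[>] 0) (𝓝 0) := by
    have := (Real.continuousAt_rpow_const 0 H (Or.inr hH.le)).tendsto
    rw [Real.zero_rpow hH.ne'] at this
    exact this.mono_left nhdsWithin_le_nhds
  have h3 := hh.mul h2
  rw [zero_mul] at h3
  have h4 : (fun s : ℝ => ‖ev h s‖ / s ^ H * s ^ H) =ᶠ[𝓝[>] 0] fun s : ℝ => ‖ev h s‖ := by
    filter_upwards [self_mem_nhdsWithin] with s hs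
    have : s ^ H ≠ 0 := (Real.rpow_pos_of_pos hs H).ne'
    field_simp
  have h5 := (tendsto_congr' h4).mp h3
  have h6 := tendsto_nhds_unique h1 h5
  exact norm_eq_zero.mp h6

lemma X_small {H : ℝ} (hH : 0 < H) {h : C(I, ℂ)} (hh : Tendsto (fun s : ℝ => ‖ev h s‖ / s ^ H) (𝓝[>] 0) (𝓝 0))
    {η : ℝ} (hη : 0 < η) : ∃ δ : ℝ, 0 < δ ∧ ∀ ε : ℝ, 0 < ε → ε < δ → ‖X H ε h‖ ≤ η := by
  have h0 := ev_zero hH hh
  have h1 : ∀ᶠ s in 𝓝[>] (0 : ℝ), ‖ev h s‖ / s ^ H < η := hh.eventually (eventually_lt_nhds hη)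
  rw [eventually_nhdsWithin_iff, Metric.eventually_nhds_iff] at h1
  obtain ⟨δ, hδ, h1⟩ := h1
  refine ⟨δ, hδ, ?_⟩
  intro ε hε hεδ
  have h2 : ‖seg 0 ε h‖ ≤ η * ε ^ H := by
    rw [ContinuousMap.norm_le _ (by positivity)]
    intro x
    rw [seg_apply, h0, sub_zero]
    rcases x.2.1.lt_or_eq with hx | hx
    · have hy : 0 < 0 + (x : ℝ) * (ε - 0) := by rw [sub_zero, zero_add]; exact mul_pos hx hε
      have hy2 : 0 + (x : ℝ) * (ε - 0) ≤ ε := by
        rw [sub_zero, zero_add]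
        have := x.2.2
        nlinarith
      have h3 := h1 (y := 0 + (x : ℝ) * (ε - 0)) (by rw [Real.dist_eq, sub_zero, abs_of_pos hy]; linarith) hy
      rw [div_lt_iff₀ (Real.rpow_pos_of_pos hy H)] at h3
      have h4 : (0 + (x : ℝ) * (ε - 0)) ^ H ≤ ε ^ H := Real.rpow_le_rpow hy.le hy2 hH.le
      have h5 : η * (0 + (x : ℝ) * (ε - 0)) ^ H ≤ η * ε ^ H := mul_le_mul_of_nonneg_left h4 hη.le
      linarith
    · rw [← hx, zero_mul, add_zero, h0, norm_zero]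
      positivity
  unfold X
  rw [norm_smul, Real.norm_eq_abs, abs_of_pos (Real.rpow_pos_of_pos hε _)]
  calc ε ^ (-H) * ‖seg 0 ε h‖ ≤ ε ^ (-H) * (η * ε ^ H) := by gcongr
    _ = η * (ε ^ (-H) * ε ^ H) := by ring
    _ = η := by rw [← Real.rpow_add hε, neg_add_cancel, Real.rpow_zero, mul_one]

lemma X_add (H ε : ℝ) (γ h : C(I, ℂ)) : X H ε (γ + h) = X H ε γ + X H ε h := by
  have e : seg 0 ε (γ + h) = seg 0 ε γ + seg 0 ε h := by
    ext x
    rw [ContinuousMap.add_apply, seg_apply, seg_apply, seg_apply]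
    have : ∀ y : ℝ, ev (γ + h) y = ev γ y + ev h y := fun y => rfl
    rw [this, this]
    ring
  unfold X
  rw [e]
  ext x
  show (ε ^ (-H)) • (seg 0 ε γ x + seg 0 ε h x) = (ε ^ (-H)) • seg 0 ε γ x + (ε ^ (-H)) • seg 0 ε h x
  rw [smul_add]

/-- the times of the scales -/
noncomputable def ep (k : ℕ) : ℝ := (1 / 2) ^ k

lemma ep_pos (k : ℕ) : 0 < ep k := by unfold ep; positivity

lemma ep_le (k : ℕ) : ep k ≤ 1 := pow_le_one₀ (by norm_num) (by norm_num)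

lemma ep_tendsto : Tendsto ep atTop (𝓝 0) := tendsto_pow_atTop_nhds_zero_of_lt_one (by norm_num) (by norm_num)

/-- the open sets -/
def E (H : ℝ) (A : Set C(I, ℂ)) (m k : ℕ) : Set C(I, ℂ) := {γ | 1 / ((m : ℝ) + 1) < Metric.infDist (X H (ep k) γ) A}

lemma E_open (H : ℝ) (A : Set C(I, ℂ)) (m k : ℕ) : IsOpen (E H A m k) := by
  unfold E
  exact isOpen_lt continuous_const ((Metric.continuous_infDist_pt A).comp (X_cont H (ep k)))

/-- the set of the zero-one law -/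
def B (H : ℝ) (A : Set C(I, ℂ)) : Set C(I, ℂ) := ⋃ m : ℕ, ⋂ n : ℕ, ⋃ k : ℕ, E H A m (n + k)

lemma B_inv {H : ℝ} (hH : 0 < H) (A : Set C(I, ℂ)) (γ h : C(I, ℂ))
    (hh : Tendsto (fun s : ℝ => ‖ev h s‖ / s ^ H) (𝓝[>] 0) (𝓝 0)) (hγ : γ ∈ B H A) : γ + h ∈ B H A := by
  unfold B at hγ ⊢
  rw [Set.mem_iUnion] at hγ ⊢
  obtain ⟨m, hm⟩ := hγ
  rw [Set.mem_iInter] at hm
  refine ⟨2 * m + 1, ?_⟩
  rw [Set.mem_iInter]
  intro n
  have hη : (0 : ℝ) < 1 / (((2 * m + 1 : ℕ) : ℝ) + 1) := by positivity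
  obtain ⟨δ, hδ, hX⟩ := X_small hH hh hη
  obtain ⟨N, hN⟩ := (ep_tendsto.eventually (eventually_lt_nhds hδ)).exists_forall_of_atTop
  have h1 := hm (max n N)
  rw [Set.mem_iUnion] at h1 ⊢
  obtain ⟨k, hk⟩ := h1
  refine ⟨max n N - n + k, ?_⟩
  have e : n + (max n N - n + k) = max n N + k := by
    have := le_max_left n N
    omega
  rw [e]
  set K := max n N + k with hK
  have hKN : N ≤ K := le_trans (le_max_right n N) (Nat.le_add_right _ _)
  have h2 := hX (ep K) (ep_pos K) (hN K hKN)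
  have h3 : 1 / ((m : ℝ) + 1) < Metric.infDist (X H (ep K) γ) A := hk
  show 1 / (((2 * m + 1 : ℕ) : ℝ) + 1) < Metric.infDist (X H (ep K) (γ + h)) A
  have h4 : Metric.infDist (X H (ep K) γ) A ≤ Metric.infDist (X H (ep K) (γ + h)) A +
      dist (X H (ep K) γ) (X H (ep K) (γ + h)) := Metric.infDist_le_infDist_add_dist
  rw [X_add, dist_self_add_right] at h4
  rw [X_add]
  have h5 : 1 / ((m : ℝ) + 1) = 1 / (((2 * m + 1 : ℕ) : ℝ) + 1) + 1 / (((2 * m + 1 : ℕ) : ℝ) + 1) := by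
    push_cast
    field_simp
    ring
  linarith

lemma B_meas [MeasurableSpace C(I, ℂ)] [BorelSpace C(I, ℂ)] (H : ℝ) (A : Set C(I, ℂ)) : MeasurableSet (B H A) :=
  MeasurableSet.iUnion fun m => MeasurableSet.iInter fun n => MeasurableSet.iUnion fun k => (E_open H A m (n + k)).measurableSet

end Pool.Agent.H994.FQ.QN

namespace Pool.Agent.H994.FQ

open Pool.Agent.H986.EV (ev seg)
open Pool.Agent.H994.FQ.QN

theorem t_null (h1 : S_uniq) (h2 : S_seg) (h3 : S_smul) (h4 : S_zo) : S_null := by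
  intro mI bI H v μ hH hH1 hμ A hA hcone hcut hne
  have : IsGaussian μ := hμ.gauss
  have hprob : IsProbabilityMeasure μ := inferInstance
  rcases A.eq_empty_or_nonempty with hAe | hAn
  · rw [hAe]; exact measure_empty
  have hq : ∃ m : ℕ, μ {γ | 1 / ((m : ℝ) + 1) < Metric.infDist γ A} ≠ 0 := by
    by_contra hcon
    push Not at hcon
    apply hne
    have hsub : Aᶜ ⊆ ⋃ m : ℕ, {γ | 1 / ((m : ℝ) + 1) < Metric.infDist γ A} := by
      intro γ hγ
      have h5 : 0 < Metric.infDist γ A := (hA.notMem_iff_infDist_pos hAn).mp hγ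
      obtain ⟨m, hm⟩ := exists_nat_one_div_lt h5
      rw [Set.mem_iUnion]
      exact ⟨m, hm⟩
    exact measure_mono_null hsub (measure_iUnion_null hcon)
  obtain ⟨m, hm⟩ := hq
  have hE : ∀ k, μ (E H A m k) = μ {γ | 1 / ((m : ℝ) + 1) < Metric.infDist γ A} := by
    intro k
    have hmeas : MeasurableSet {γ : C(I, ℂ) | 1 / ((m : ℝ) + 1) < Metric.infDist γ A} :=
      (isOpen_lt continuous_const (Metric.continuous_infDist_pt A)).measurableSet
    have hlaw := X_law h1 h2 h3 hH hμ (ep_pos k) (ep_le k)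
    calc μ (E H A m k) = (μ.map (X H (ep k))) {γ | 1 / ((m : ℝ) + 1) < Metric.infDist γ A} := by
          rw [Measure.map_apply (X_cont H (ep k)).measurable hmeas]
          rfl
      _ = _ := by rw [hlaw]
  have hG : μ {γ | 1 / ((m : ℝ) + 1) < Metric.infDist γ A} ≤ μ (⋂ n : ℕ, ⋃ k : ℕ, E H A m (n + k)) := by
    have hanti : Antitone (fun n : ℕ => ⋃ k : ℕ, E H A m (n + k)) := by
      intro n n' hn γ hγ
      rw [Set.mem_iUnion] at hγ ⊢
      obtain ⟨k, hk⟩ := hγ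
      refine ⟨n' - n + k, ?_⟩
      have e : n + (n' - n + k) = n' + k := by omega
      rw [e]; exact hk
    have ht := tendsto_measure_iInter_atTop (μ := μ) (s := fun n : ℕ => ⋃ k : ℕ, E H A m (n + k))
      (fun n => (MeasurableSet.iUnion fun k => (E_open H A m (n + k)).measurableSet).nullMeasurableSet) hanti
      ⟨0, measure_ne_top μ _⟩
    refine ge_of_tendsto' ht ?_
    intro n
    rw [← hE n]
    apply measure_mono
    intro γ hγ
    rw [Set.mem_iUnion]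
    exact ⟨0, hγ⟩
  have hB0 : μ (B H A) ≠ 0 := by
    intro h0
    have h5 : μ (⋂ n : ℕ, ⋃ k : ℕ, E H A m (n + k)) ≤ μ (B H A) :=
      measure_mono (Set.subset_iUnion (fun m : ℕ => ⋂ n : ℕ, ⋃ k : ℕ, E H A m (n + k)) m)
    rw [h0] at h5
    exact hm (nonpos_iff_eq_zero.mp (hG.trans h5))
  have hB1 : μ (B H A) = 1 := by
    rcases h4 mI bI H v μ hH hH1 hμ (B H A) (B_meas H A) (fun γ h hh hγ => B_inv hH A γ h hh hγ) with h | h
    · exact absurd h hB0
    · exact h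
  have hBc : μ (B H A)ᶜ = 0 := (prob_compl_eq_zero_iff (B_meas H A)).mpr hB1
  refine measure_mono_null ?_ hBc
  intro γ hγ hγB
  unfold B at hγB
  rw [Set.mem_iUnion] at hγB
  obtain ⟨m', hm'⟩ := hγB
  rw [Set.mem_iInter] at hm'
  have h6 := hm' 0
  rw [Set.mem_iUnion] at h6
  obtain ⟨k, hk⟩ := h6
  have h7 : 1 / ((m' : ℝ) + 1) < Metric.infDist (X H (ep (0 + k)) γ) A := hk
  have h8 : X H (ep (0 + k)) γ ∈ A :=
    hcone _ (hcut γ hγ _ (ep_pos _) (ep_le _)) _ (Real.rpow_pos_of_pos (ep_pos _) _)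
  rw [Metric.infDist_zero_of_mem h8] at h7
  have : 0 < 1 / ((m' : ℝ) + 1) := by positivity
  linarith

end Pool.Agent.H994.FQ
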