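import Pool.Agent.H994.BM.Stm5

/-!
Regression coefficients: the covariance matrix of the fractional Brownian motion at finitely many
positive times is invertible (MP_46f0ca_pr, part Q6).
-/

set_option autoImplicit false

open MeasureTheory ProbabilityTheory Filter Topology
open scoped NNReal ENNReal unitInterval

namespace Pool.Agent.H994.FQ

namespace QR

theorem R_symm (p s t : ℝ) : R p s t = R p t s := by
  unfold R
  rw [abs_sub_comm, add_comm (s ^ p)]

theorem pos {ι : Type} [Fintype ι] (h : Pool.Agent.H994.FB.S_cnd) {p : ℝ} (hp0 : 0 < p)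
    (hp2 : p < 2) {t : ι → ℝ} (ht : Function.Injective t) (ht0 : ∀ i, 0 < t i) {c : ι → ℝ}
    (hc : c ≠ 0) : 0 < ∑ i, ∑ j, c i * c j * R p (t i) (t j) := by
  obtain ⟨e⟩ : Nonempty (Fin (Fintype.card ι) ≃ ι) := ⟨(Fintype.equivFin ι).symm⟩
  have hinj : Function.Injective
      (Fin.cons 0 (fun k => t (e k)) : Fin (Fintype.card ι + 1) → ℝ) := by
    rw [Fin.cons_injective_iff]
    refine ⟨?_, ht.comp e.injective⟩
    rintro ⟨k, hk⟩
    exact (ht0 (e k)).ne' hk
  have hne : (Fin.cons (-∑ i, c i) (fun k => c (e k)) : Fin (Fintype.card ι + 1) → ℝ) ≠ 0 := by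
    intro h0
    apply hc
    funext i
    have h1 := congrFun h0 (Fin.succ (e.symm i))
    rw [Fin.cons_succ, e.apply_symm_apply] at h1
    exact h1
  have hsum : ∑ i, (Fin.cons (-∑ i, c i) (fun k => c (e k)) : Fin (Fintype.card ι + 1) → ℝ) i = 0 := by
    rw [Fin.sum_univ_succ, Fin.cons_zero]
    simp only [Fin.cons_succ]
    rw [e.sum_comp c, neg_add_cancel]
  have key := h (Fintype.card ι + 1) _ _ p hp0 hp2 hinj hne hsum
  simp only [Fin.sum_univ_succ, Fin.cons_zero, Fin.cons_succ] at key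
  rw [Finset.sum_add_distrib] at key
  have s1 : ∀ C : ℝ, ∑ k, -C * c (e k) * |0 - t (e k)| ^ p = -(C * ∑ i, c i * t i ^ p) := by
    intro C
    rw [e.sum_comp (fun i => -C * c i * |0 - t i| ^ p), ← neg_mul, Finset.mul_sum]
    refine Finset.sum_congr rfl fun i _ => ?_
    rw [zero_sub, abs_neg, abs_of_pos (ht0 i)]
    ring
  have s2 : ∀ C : ℝ, ∑ k, c (e k) * -C * |t (e k) - 0| ^ p = -(C * ∑ i, c i * t i ^ p) := by
    intro C
    rw [e.sum_comp (fun i => c i * -C * |t i - 0| ^ p), ← neg_mul, Finset.mul_sum]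
    refine Finset.sum_congr rfl fun i _ => ?_
    rw [sub_zero, abs_of_pos (ht0 i)]
    ring
  have s3 : ∑ k, ∑ l, c (e k) * c (e l) * |t (e k) - t (e l)| ^ p =
      ∑ i, ∑ j, c i * c j * |t i - t j| ^ p := by
    rw [← e.sum_comp (fun i => ∑ j, c i * c j * |t i - t j| ^ p)]
    refine Finset.sum_congr rfl fun k _ => ?_
    exact e.sum_comp (fun j => c (e k) * c j * |t (e k) - t j| ^ p)
  rw [s1, s2, s3, sub_zero, abs_zero, Real.zero_rpow hp0.ne', mul_zero, zero_add] at key
  have s4 : ∑ i, ∑ j, c i * c j * R p (t i) (t j) =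
      ((∑ i, c i) * (∑ i, c i * t i ^ p) + (∑ i, c i) * (∑ i, c i * t i ^ p) -
        ∑ i, ∑ j, c i * c j * |t i - t j| ^ p) / 2 := by
    have a1 : ∑ i, ∑ j, c i * c j * t i ^ p = (∑ i, c i) * (∑ i, c i * t i ^ p) := by
      rw [mul_comm, Finset.sum_mul_sum]
      refine Finset.sum_congr rfl fun i _ => Finset.sum_congr rfl fun j _ => ?_
      ring
    have a2 : ∑ i, ∑ j, c i * c j * t j ^ p = (∑ i, c i) * (∑ i, c i * t i ^ p) := by
      rw [Finset.sum_mul_sum]
      refine Finset.sum_congr rfl fun i _ => Finset.sum_congr rfl fun j _ => ?_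
      ring
    have a3 : ∑ i, ∑ j, c i * c j * R p (t i) (t j) =
        (∑ i, ∑ j, c i * c j * t i ^ p + ∑ i, ∑ j, c i * c j * t j ^ p -
          ∑ i, ∑ j, c i * c j * |t i - t j| ^ p) / 2 := by
      rw [← Finset.sum_add_distrib, ← Finset.sum_sub_distrib, Finset.sum_div]
      refine Finset.sum_congr rfl fun i _ => ?_
      rw [← Finset.sum_add_distrib, ← Finset.sum_sub_distrib, Finset.sum_div]
      refine Finset.sum_congr rfl fun j _ => ?_
      unfold R
      ring
    rw [a3, a1, a2]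
  rw [s4]
  linarith

end QR

theorem t_reg (h : Pool.Agent.H994.FB.S_cnd) : S_reg := by
  intro H hH0 hH1 ι _ t ht ht0
  classical
  obtain ⟨M, hM⟩ : ∃ M : Matrix ι ι ℝ, ∀ i j, M i j = R (2 * H) (t i) (t j) :=
    ⟨fun i j => R (2 * H) (t i) (t j), fun _ _ => rfl⟩
  have hinj : Function.Injective M.mulVec := by
    intro x y hxy
    by_contra hne
    have hc : x - y ≠ 0 := sub_ne_zero.2 hne
    have h1 := QR.pos h (by linarith : 0 < 2 * H) (by linarith : 2 * H < 2) ht ht0 hc
    have h2 : M.mulVec (x - y) = 0 := by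
      rw [Matrix.mulVec_sub]
      exact sub_eq_zero.2 hxy
    have h3 : ∑ i, ∑ j, (x - y) i * (x - y) j * R (2 * H) (t i) (t j) = 0 := by
      refine Finset.sum_eq_zero fun i _ => ?_
      have h4 := congrFun h2 i
      have h5 : M.mulVec (x - y) i = ∑ j, M i j * (x - y) j := rfl
      rw [h5] at h4
      have h6 : ∑ j, (x - y) i * (x - y) j * R (2 * H) (t i) (t j) =
          (x - y) i * ∑ j, M i j * (x - y) j := by
        rw [Finset.mul_sum]
        refine Finset.sum_congr rfl fun j _ => ?_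
        rw [hM]
        ring
      rw [h6, h4]
      exact mul_zero _
    exact absurd h3 h1.ne'
  have hu : IsUnit M := Matrix.mulVec_injective_iff_isUnit.1 hinj
  have hd : IsUnit M.det := (Matrix.isUnit_iff_isUnit_det M).1 hu
  refine ⟨fun j k => M⁻¹ j k, fun s i => ?_⟩
  have h1 : M.mulVec (M⁻¹.mulVec fun k => R (2 * H) (t k) s) = fun k => R (2 * H) (t k) s := by
    rw [Matrix.mulVec_mulVec, Matrix.mul_nonsing_inv M hd, Matrix.one_mulVec]
  have h2 := congrFun h1 i
  have h3 : M.mulVec (M⁻¹.mulVec fun k => R (2 * H) (t k) s) i =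
      ∑ j, M i j * ∑ k, M⁻¹ j k * R (2 * H) (t k) s := rfl
  rw [h3] at h2
  rw [← h2]
  refine Finset.sum_congr rfl fun j _ => ?_
  rw [hM, QR.R_symm, mul_comm]

end Pool.Agent.H994.FQ
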