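import Pool.Agent.H994.BM.Stm5

/-!
The planar fractional Brownian law: stationary increments, self-similarity and scaling.
-/

set_option autoImplicit false

open MeasureTheory ProbabilityTheory Filter Topology
open scoped NNReal ENNReal unitInterval

namespace Pool.Agent.H994.FQ

open Pool.Agent.H986.EV (ev seg)

namespace QS

/-- `seg a b` as a continuous real linear map -/
noncomputable def segL (a b : ℝ) : C(I, ℂ) →L[ℝ] C(I, ℂ) where
  toFun := seg a b
  map_add' γ γ' := by
    ext x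
    rw [ContinuousMap.add_apply, Pool.Agent.H986.EV.seg_apply, Pool.Agent.H986.EV.seg_apply,
      Pool.Agent.H986.EV.seg_apply]
    change γ _ + γ' _ - (γ _ + γ' _) = γ _ - γ _ + (γ' _ - γ' _)
    ring
  map_smul' c γ := by
    ext x
    rw [RingHom.id_apply, ContinuousMap.smul_apply, Pool.Agent.H986.EV.seg_apply,
      Pool.Agent.H986.EV.seg_apply]
    change c • γ _ - c • γ _ = c • (γ _ - γ _)
    rw [smul_sub]
  cont := Pool.Agent.H986.EV.seg_cont a b

/-- the Gaussian property and the symmetries are inherited by images under linear maps which commute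
with the symmetries -/
theorem inherit [MeasurableSpace C(I, ℂ)] [BorelSpace C(I, ℂ)] {H v : ℝ}
    {μ : Measure C(I, ℂ)} (h : IsF H v μ) (L : C(I, ℂ) →L[ℝ] C(I, ℂ))
    (h1 : ∀ γ, L (Complex.I • γ) = Complex.I • L γ) (h2 : ∀ γ, L (star γ) = star (L γ)) :
    IsGaussian (μ.map L) ∧ (μ.map L).map (fun γ => Complex.I • γ) = μ.map L ∧
      (μ.map L).map (fun γ => star γ) = μ.map L := by
  have hg : IsGaussian μ := h.gauss
  have hL : Measurable L := L.continuous.measurable
  have hI : Measurable (fun γ : C(I, ℂ) => Complex.I • γ) :=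
    (continuous_const_smul Complex.I).measurable
  have hS : Measurable (fun γ : C(I, ℂ) => star γ) := continuous_star.measurable
  refine ⟨inferInstance, ?_, ?_⟩
  · rw [Measure.map_map hI hL]
    have e : (fun γ : C(I, ℂ) => Complex.I • γ) ∘ L = L ∘ fun γ => Complex.I • γ := by
      funext γ
      exact (h1 γ).symm
    rw [e, ← Measure.map_map hL hI, h.rot]
  · rw [Measure.map_map hS hL]
    have e : (fun γ : C(I, ℂ) => star γ) ∘ L = L ∘ fun γ => star γ := by
      funext γ
      exact (h2 γ).symm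
    rw [e, ← Measure.map_map hL hS, h.conj]

/-- the covariance of the increments -/
theorem R_seg {p a L s t : ℝ} (hp : p ≠ 0) (hL : 0 ≤ L) (hs : 0 ≤ s) (ht : 0 ≤ t) :
    R p (a + s * L) (a + t * L) - R p (a + s * L) a - R p a (a + t * L) + R p a a =
      L ^ p * R p s t := by
  unfold R
  have e1 : |a + s * L - (a + t * L)| = |s - t| * L := by
    rw [show a + s * L - (a + t * L) = (s - t) * L by ring, abs_mul, abs_of_nonneg hL]
  have e2 : |a + s * L - a| = s * L := by
    rw [show a + s * L - a = s * L by ring, abs_of_nonneg (mul_nonneg hs hL)]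
  have e3 : |a - (a + t * L)| = t * L := by
    rw [show a - (a + t * L) = -(t * L) by ring, abs_neg, abs_of_nonneg (mul_nonneg ht hL)]
  rw [e1, e2, e3, sub_self, abs_zero, Real.zero_rpow hp, Real.mul_rpow (abs_nonneg _) hL,
    Real.mul_rpow hs hL, Real.mul_rpow ht hL]
  ring

theorem measurable_re [MeasurableSpace C(I, ℂ)] [BorelSpace C(I, ℂ)] (s t : I) :
    Measurable (fun γ : C(I, ℂ) => (γ s).re * (γ t).re) := by
  have h : ∀ x : I, Continuous (fun γ : C(I, ℂ) => (γ x).re) := fun x =>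
    Complex.continuous_re.comp (continuous_eval_const x)
  exact ((h s).mul (h t)).measurable

theorem integral_four [MeasurableSpace C(I, ℂ)] {μ : Measure C(I, ℂ)} {f g k l : C(I, ℂ) → ℝ}
    (hf : Integrable f μ) (hg : Integrable g μ) (hk : Integrable k μ) (hl : Integrable l μ) :
    ∫ γ, (f γ - g γ - k γ + l γ) ∂μ = ∫ γ, f γ ∂μ - ∫ γ, g γ ∂μ - ∫ γ, k γ ∂μ + ∫ γ, l γ ∂μ := by
  have h1 : ∫ γ, (f γ - g γ) ∂μ = ∫ γ, f γ ∂μ - ∫ γ, g γ ∂μ := integral_sub hf hg
  have h2 : ∫ γ, (f γ - g γ - k γ) ∂μ = ∫ γ, (f γ - g γ) ∂μ - ∫ γ, k γ ∂μ :=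
    integral_sub (hf.sub hg) hk
  have h3 : ∫ γ, (f γ - g γ - k γ + l γ) ∂μ = ∫ γ, (f γ - g γ - k γ) ∂μ + ∫ γ, l γ ∂μ :=
    integral_add ((hf.sub hg).sub hk) hl
  rw [h3, h2, h1]

end QS

theorem t_seg (h : S_cov) : S_seg := by
  intro m hm H v μ hH hF a b ha hab hb
  obtain ⟨-, hLp, -, -, hcov, -⟩ := h m hm H v μ hF
  obtain ⟨i1, i2, i3⟩ := QS.inherit hF (QS.segL a b)
    (fun γ => Pool.Agent.H986.EV.seg_rot a b γ) (fun γ => Pool.Agent.H986.EV.seg_star a b γ)
  refine ⟨i1, i2, i3, ?_⟩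
  intro s t
  have hmem : ∀ x : I, a + (x : ℝ) * (b - a) ∈ Set.Icc (0 : ℝ) 1 := by
    intro x
    have h1 := x.2.1
    have h2 := x.2.2
    constructor <;> nlinarith
  have ha' : a ∈ Set.Icc (0 : ℝ) 1 := ⟨ha, by linarith⟩
  have hseg : Measurable (seg a b) := (Pool.Agent.H986.EV.seg_cont a b).measurable
  rw [integral_map hseg.aemeasurable (QS.measurable_re s t).aestronglyMeasurable]
  have e : ∀ (γ : C(I, ℂ)) (x : I), (seg a b γ x).re =
      Z (⟨a + (x : ℝ) * (b - a), hmem x⟩, false) γ - Z (⟨a, ha'⟩, false) γ := by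
    intro γ x
    rw [Pool.Agent.H986.EV.seg_apply, Pool.Agent.H986.EV.ev_of_mem γ (hmem x),
      Pool.Agent.H986.EV.ev_of_mem γ ha', Complex.sub_re]
    simp [Z]
  have hint : ∀ x y : I, Integrable (fun γ => Z (x, false) γ * Z (y, false) γ) μ :=
    fun x y => (hLp (x, false)).integrable_mul (hLp (y, false))
  have e2 : ∀ γ : C(I, ℂ), (seg a b γ s).re * (seg a b γ t).re =
      Z (⟨a + (s : ℝ) * (b - a), hmem s⟩, false) γ * Z (⟨a + (t : ℝ) * (b - a), hmem t⟩, false) γ
      - Z (⟨a + (s : ℝ) * (b - a), hmem s⟩, false) γ * Z (⟨a, ha'⟩, false) γ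
      - Z (⟨a, ha'⟩, false) γ * Z (⟨a + (t : ℝ) * (b - a), hmem t⟩, false) γ
      + Z (⟨a, ha'⟩, false) γ * Z (⟨a, ha'⟩, false) γ := by
    intro γ
    rw [e, e]
    ring
  simp_rw [e2]
  rw [QS.integral_four (hint _ _) (hint _ _) (hint _ _) (hint _ _), hcov, hcov, hcov, hcov]
  have h3 := QS.R_seg (p := 2 * H) (a := a) (L := b - a) (s := s) (t := t) (by positivity)
    (by linarith) s.2.1 t.2.1
  rw [mul_assoc, ← h3]
  ring

theorem t_smul (_h : S_cov) : S_smul := by
  intro m hm H v c μ hF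
  obtain ⟨i1, i2, i3⟩ := QS.inherit hF (c • ContinuousLinearMap.id ℝ C(I, ℂ))
    (fun γ => by
      change c • (Complex.I • γ) = Complex.I • (c • γ)
      rw [smul_comm])
    (fun γ => by
      change c • star γ = star (c • γ)
      rw [star_smul, star_trivial c])
  refine ⟨i1, i2, i3, ?_⟩
  intro s t
  have hc : Measurable (fun γ : C(I, ℂ) => c • γ) := (continuous_const_smul c).measurable
  rw [integral_map hc.aemeasurable (QS.measurable_re s t).aestronglyMeasurable]
  have e : ∀ γ : C(I, ℂ), ((c • γ) s).re * ((c • γ) t).re = c ^ 2 * ((γ s).re * (γ t).re) := by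
    intro γ
    rw [ContinuousMap.smul_apply, ContinuousMap.smul_apply, Complex.smul_re, Complex.smul_re,
      smul_eq_mul, smul_eq_mul]
    ring
  simp_rw [e]
  rw [integral_const_mul, hF.cov]
  ring

end Pool.Agent.H994.FQ
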