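import Pool.Agent.H994.BM.QN
import Pool.Agent.H994.BM.QF

/-!
No fractional Brownian tangent (MP_46f0ca_pr); adapted from `QN` (helper263).
-/

set_option autoImplicit false

open MeasureTheory ProbabilityTheory Filter Topology
open scoped NNReal ENNReal unitInterval

namespace Pool.Agent.H994.FQ.QT

open Pool.Agent.H986.EV (ev seg seg_apply seg_cont ev_cont)
open Pool.Agent.H994.FQ
open Pool.Agent.H994.FQ.QN (X X_cont X_law X_small X_add)

/-- the open sets -/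
def E (ep : ℕ → ℝ) (H : ℝ) (A : Set C(I, ℂ)) (m k : ℕ) : Set C(I, ℂ) := {γ | 1 / ((m : ℝ) + 1) < Metric.infDist (X H (ep k) γ) A}

lemma E_open (ep : ℕ → ℝ) (H : ℝ) (A : Set C(I, ℂ)) (m k : ℕ) : IsOpen (E ep H A m k) := by
  unfold E
  exact isOpen_lt continuous_const ((Metric.continuous_infDist_pt A).comp (X_cont H (ep k)))

/-- the set of the zero-one law -/
def B (ep : ℕ → ℝ) (H : ℝ) (A : Set C(I, ℂ)) : Set C(I, ℂ) := ⋃ m : ℕ, ⋂ n : ℕ, ⋃ k : ℕ, E ep H A m (n + k)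

lemma B_inv {ep : ℕ → ℝ} (ep_pos : ∀ k, 0 < ep k) (ep_tendsto : Tendsto ep atTop (𝓝 0)) {H : ℝ} (hH : 0 < H) (A : Set C(I, ℂ)) (γ h : C(I, ℂ))
    (hh : Tendsto (fun s : ℝ => ‖ev h s‖ / s ^ H) (𝓝[>] 0) (𝓝 0)) (hγ : γ ∈ B ep H A) : γ + h ∈ B ep H A := by
  unfold B at hγ ⊢
  rw [Set.mem_iUnion] at hγ ⊢
  obtain ⟨m, hm⟩ := hγ
  rw [Set.mem_iInter] at hm
  refine ⟨2 * m + 1, ?_⟩
  rw [Set.mem_iInter]
  intro n
  have hη : (0 : ℝ) < 1 / (((2 * m + 1 : ℕ) : ℝ) + 1) := by positivity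
  obtain ⟨δ, hδ, hX⟩ := X_small hH hh hη
  obtain ⟨N, hN⟩ := (ep_tendsto.eventually (eventually_lt_nhds hδ)).exists_forall_of_atTop
  have h1 := hm (max n N)
  rw [Set.mem_iUnion] at h1 ⊢
  obtain ⟨k, hk⟩ := h1
  refine ⟨max n N - n + k, ?_⟩
  have e : n + (max n N - n + k) = max n N + k := by
    have := le_max_left n N
    omega
  rw [e]
  set K := max n N + k with hK
  have hKN : N ≤ K := le_trans (le_max_right n N) (Nat.le_add_right _ _)
  have h2 := hX (ep K) (ep_pos K) (hN K hKN)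
  have h3 : 1 / ((m : ℝ) + 1) < Metric.infDist (X H (ep K) γ) A := hk
  show 1 / (((2 * m + 1 : ℕ) : ℝ) + 1) < Metric.infDist (X H (ep K) (γ + h)) A
  have h4 : Metric.infDist (X H (ep K) γ) A ≤ Metric.infDist (X H (ep K) (γ + h)) A +
      dist (X H (ep K) γ) (X H (ep K) (γ + h)) := Metric.infDist_le_infDist_add_dist
  rw [X_add, dist_self_add_right] at h4
  rw [X_add]
  have h5 : 1 / ((m : ℝ) + 1) = 1 / (((2 * m + 1 : ℕ) : ℝ) + 1) + 1 / (((2 * m + 1 : ℕ) : ℝ) + 1) := by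
    push_cast
    field_simp
    ring
  linarith

lemma B_meas [MeasurableSpace C(I, ℂ)] [BorelSpace C(I, ℂ)] (ep : ℕ → ℝ) (H : ℝ) (A : Set C(I, ℂ)) : MeasurableSet (B ep H A) :=
  MeasurableSet.iUnion fun m => MeasurableSet.iInter fun n => MeasurableSet.iUnion fun k => (E_open ep H A m (n + k)).measurableSet


theorem freq (h1 : S_uniq) (h2 : S_seg) (h3 : S_smul) (h4 : S_zo)
    (mI : MeasurableSpace C(I, ℂ)) (bI : BorelSpace C(I, ℂ)) {H v : ℝ} (μ : Measure C(I, ℂ))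
    (hH : 0 < H) (hH1 : H < 1) (hμ : IsF H v μ) (A : Set C(I, ℂ)) (hA : IsClosed A)
    (hAn : A.Nonempty) (hne : μ Aᶜ ≠ 0) {ep : ℕ → ℝ} (ep_pos : ∀ k, 0 < ep k)
    (ep_le : ∀ k, ep k ≤ 1) (ep_tendsto : Tendsto ep atTop (𝓝 0)) :
    ∀ᵐ γ ∂μ, ∃ m : ℕ, ∀ n : ℕ, ∃ k : ℕ,
      1 / ((m : ℝ) + 1) < Metric.infDist (X H (ep (n + k)) γ) A := by
  have : IsGaussian μ := hμ.gauss
  have hprob : IsProbabilityMeasure μ := inferInstance
  have hq : ∃ m : ℕ, μ {γ | 1 / ((m : ℝ) + 1) < Metric.infDist γ A} ≠ 0 := by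
    by_contra hcon
    push Not at hcon
    apply hne
    have hsub : Aᶜ ⊆ ⋃ m : ℕ, {γ | 1 / ((m : ℝ) + 1) < Metric.infDist γ A} := by
      intro γ hγ
      have h5 : 0 < Metric.infDist γ A := (hA.notMem_iff_infDist_pos hAn).mp hγ
      obtain ⟨m, hm⟩ := exists_nat_one_div_lt h5
      rw [Set.mem_iUnion]
      exact ⟨m, hm⟩
    exact measure_mono_null hsub (measure_iUnion_null hcon)
  obtain ⟨m, hm⟩ := hq
  have hE : ∀ k, μ (E ep H A m k) = μ {γ | 1 / ((m : ℝ) + 1) < Metric.infDist γ A} := by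
    intro k
    have hmeas : MeasurableSet {γ : C(I, ℂ) | 1 / ((m : ℝ) + 1) < Metric.infDist γ A} :=
      (isOpen_lt continuous_const (Metric.continuous_infDist_pt A)).measurableSet
    have hlaw := X_law h1 h2 h3 hH hμ (ep_pos k) (ep_le k)
    calc μ (E ep H A m k) = (μ.map (X H (ep k))) {γ | 1 / ((m : ℝ) + 1) < Metric.infDist γ A} := by
          rw [Measure.map_apply (X_cont H (ep k)).measurable hmeas]
          rfl
      _ = _ := by rw [hlaw]
  have hG : μ {γ | 1 / ((m : ℝ) + 1) < Metric.infDist γ A} ≤ μ (⋂ n : ℕ, ⋃ k : ℕ, E ep H A m (n + k)) := by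
    have hanti : Antitone (fun n : ℕ => ⋃ k : ℕ, E ep H A m (n + k)) := by
      intro n n' hn γ hγ
      rw [Set.mem_iUnion] at hγ ⊢
      obtain ⟨k, hk⟩ := hγ
      refine ⟨n' - n + k, ?_⟩
      have e : n + (n' - n + k) = n' + k := by omega
      rw [e]; exact hk
    have ht := tendsto_measure_iInter_atTop (μ := μ) (s := fun n : ℕ => ⋃ k : ℕ, E ep H A m (n + k))
      (fun n => (MeasurableSet.iUnion fun k => (E_open ep H A m (n + k)).measurableSet).nullMeasurableSet) hanti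
      ⟨0, measure_ne_top μ _⟩
    refine ge_of_tendsto' ht ?_
    intro n
    rw [← hE n]
    apply measure_mono
    intro γ hγ
    rw [Set.mem_iUnion]
    exact ⟨0, hγ⟩
  have hB0 : μ (B ep H A) ≠ 0 := by
    intro h0
    have h5 : μ (⋂ n : ℕ, ⋃ k : ℕ, E ep H A m (n + k)) ≤ μ (B ep H A) :=
      measure_mono (Set.subset_iUnion (fun m : ℕ => ⋂ n : ℕ, ⋃ k : ℕ, E ep H A m (n + k)) m)
    rw [h0] at h5
    exact hm (nonpos_iff_eq_zero.mp (hG.trans h5))
  have hB1 : μ (B ep H A) = 1 := by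
    rcases h4 mI bI H v μ hH hH1 hμ (B ep H A) (B_meas ep H A) (fun γ h hh hγ => B_inv ep_pos ep_tendsto hH A γ h hh hγ) with h | h
    · exact absurd h hB0
    · exact h
  have hBc : μ (B ep H A)ᶜ = 0 := (prob_compl_eq_zero_iff (B_meas ep H A)).mpr hB1
  filter_upwards [measure_eq_zero_iff_ae_notMem.1 hBc] with γ hγ
  have hγB : γ ∈ B ep H A := by
    by_contra hc
    exact hγ hc
  unfold B at hγB
  rw [Set.mem_iUnion] at hγB
  obtain ⟨m', hm'⟩ := hγB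
  rw [Set.mem_iInter] at hm'
  refine ⟨m', fun n => ?_⟩
  have h6 := hm' n
  rw [Set.mem_iUnion] at h6
  exact h6

/-- `γ` has at the time `t₀`, along the scales `ε k`, the tangent `A w`, for an invertible real
linear map `A` of the plane -/
def Tangent (H : ℝ) (ε : ℕ → ℝ) (t₀ : ℝ) (w γ : C(I, ℂ)) : Prop :=
  ∃ A : ℂ ≃L[ℝ] ℂ, ∀ δ : ℝ, 0 < δ → ∀ᶠ k in atTop, ∀ s : ℝ, 0 ≤ s → s ≤ ε k →
    ‖ev γ (t₀ + s) - ev γ t₀ - A (ev w s)‖ ≤ δ * ε k ^ H

open Pool.Agent.H994.FQ.QF (Cl smul_mem seg_mem) in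
theorem no_tangent {H : ℝ} {ε : ℕ → ℝ} (hε : ∀ k, 0 < ε k) (hε0 : Tendsto ε atTop (𝓝 0))
    {t₀ : ℝ} (h0 : 0 ≤ t₀) (h1 : t₀ < 1) {w γ : C(I, ℂ)} (hγ : γ ∈ Cl) (m : ℕ)
    (hm : ∀ n : ℕ, ∃ k : ℕ, 1 / ((m : ℝ) + 1) < Metric.infDist (X H (ε (n + k)) w) Cl) :
    ¬ Tangent H ε t₀ w γ := by
  rintro ⟨A, hA⟩
  set M : ℝ := ‖(A.symm : ℂ →L[ℝ] ℂ)‖ with hM
  have hM0 : 0 ≤ M := norm_nonneg _
  set δ : ℝ := 1 / (((m : ℝ) + 1) * (2 * (M + 1))) with hδ
  have hδ0 : 0 < δ := by positivity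
  obtain ⟨N, hN⟩ := (eventually_atTop.1 ((hA δ hδ0).and
    (hε0.eventually (eventually_lt_nhds (show (0 : ℝ) < 1 - t₀ by linarith)))))
  obtain ⟨k, hk⟩ := hm N
  obtain ⟨h2, h3⟩ := hN (N + k) (Nat.le_add_right _ _)
  set e := ε (N + k) with he
  have he0 : 0 < e := hε _
  have hpow : 0 < e ^ H := Real.rpow_pos_of_pos he0 H
  -- the comparison curve
  let a : C(ℂ, ℂ) := ⟨fun z => A.symm z, A.symm.continuous⟩
  let Y : C(I, ℂ) := (e ^ (-H)) • a.comp (seg t₀ (t₀ + e) γ)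
  have hY : Y ∈ Cl := by
    apply smul_mem _ _ (Real.rpow_pos_of_pos he0 _)
    have h4 : seg t₀ (t₀ + e) γ ∈ Cl := seg_mem hγ h0 (by linarith) (by linarith)
    refine map_mem_closure (f := fun γ : C(I, ℂ) => a.comp γ) (ContinuousMap.continuous_postcomp a)
      h4 ?_
    intro ξ hξ x y hxy
    exact hξ (A.symm.injective hxy)
  have hd : dist (X H e w) Y ≤ 2 * δ * M := by
    rw [ContinuousMap.dist_le (by positivity)]
    intro x
    have hx0 := x.2.1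
    have hx1 := x.2.2
    have h5 := h2 ((x : ℝ) * e) (by positivity) (by nlinarith)
    have h6 := h2 0 le_rfl he0.le
    rw [add_zero, sub_self, zero_sub, norm_neg] at h6
    have e1 : X H e w x = (e ^ (-H)) • (ev w (x * e) - ev w 0) := by
      show (e ^ (-H)) • (seg 0 e w x) = _
      rw [seg_apply, sub_zero, zero_add]
    have e2 : Y x = (e ^ (-H)) • A.symm (ev γ (t₀ + x * e) - ev γ t₀) := by
      show (e ^ (-H)) • A.symm (seg t₀ (t₀ + e) γ x) = _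
      rw [seg_apply, add_sub_cancel_left]
    have e3 : X H e w x - Y x = (e ^ (-H)) • (A.symm (A (ev w (x * e)) - A (ev w 0) -
        (ev γ (t₀ + x * e) - ev γ t₀))) := by
      rw [e1, e2, ← smul_sub, ← map_sub A (ev w (x * e)) (ev w 0),
        map_sub A.symm (A (ev w (x * e) - ev w 0)), A.symm_apply_apply]
    rw [dist_eq_norm, e3, norm_smul, Real.norm_eq_abs, abs_of_pos (Real.rpow_pos_of_pos he0 _)]
    have h7 : ‖A (ev w (x * e)) - A (ev w 0) - (ev γ (t₀ + x * e) - ev γ t₀)‖ ≤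
        2 * (δ * e ^ H) := by
      have e4 : A (ev w (x * e)) - A (ev w 0) - (ev γ (t₀ + x * e) - ev γ t₀) =
          -(ev γ (t₀ + x * e) - ev γ t₀ - A (ev w (x * e))) - A (ev w 0) := by ring
      rw [e4]
      refine (norm_sub_le _ _).trans ?_
      rw [norm_neg]
      linarith
    have h8 : ‖A.symm (A (ev w (x * e)) - A (ev w 0) - (ev γ (t₀ + x * e) - ev γ t₀))‖ ≤
        M * (2 * (δ * e ^ H)) :=
      ((A.symm : ℂ →L[ℝ] ℂ).le_opNorm _).trans (mul_le_mul_of_nonneg_left h7 hM0)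
    calc e ^ (-H) * ‖A.symm (A (ev w (x * e)) - A (ev w 0) - (ev γ (t₀ + x * e) - ev γ t₀))‖
        ≤ e ^ (-H) * (M * (2 * (δ * e ^ H))) :=
          mul_le_mul_of_nonneg_left h8 (Real.rpow_nonneg he0.le _)
      _ = 2 * δ * M * (e ^ (-H) * e ^ H) := by ring
      _ = 2 * δ * M := by rw [← Real.rpow_add he0, neg_add_cancel, Real.rpow_zero, mul_one]
  have h9 : Metric.infDist (X H e w) Cl ≤ 2 * δ * M := (Metric.infDist_le_dist_of_mem hY).trans hd
  have h10 : 2 * δ * M < 1 / ((m : ℝ) + 1) := by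
    have h11 : 2 * δ * M = (1 / ((m : ℝ) + 1)) * (M / (M + 1)) := by
      rw [hδ]
      field_simp
    rw [h11]
    have h12 : M / (M + 1) < 1 := by
      rw [div_lt_one (by positivity)]
      linarith
    have h13 : 0 < 1 / ((m : ℝ) + 1) := by positivity
    nlinarith
  linarith

open Pool.Agent.H994.FQ.QF (Cl) in
/-- almost surely the fractional Brownian motion is not a tangent of a limit of injective curves -/
theorem all_tangent (hc : Pool.Agent.H994.FB.S_cnd) (h1 : S_uniq) (h2 : S_seg) (h3 : S_smul)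
    (h4 : S_zo) (mI : MeasurableSpace C(I, ℂ)) (bI : BorelSpace C(I, ℂ)) {H v : ℝ}
    (μ : Measure C(I, ℂ)) (hH : 0 < H) (hH1 : H < 1) (hv : 0 < v) (hμ : IsF H v μ)
    {ε : ℕ → ℝ} (hε : ∀ k, 0 < ε k) (hε0 : Tendsto ε atTop (𝓝 0)) :
    ∀ᵐ w ∂μ, ∀ (t₀ : ℝ) (γ : C(I, ℂ)), 0 ≤ t₀ → t₀ < 1 → γ ∈ Cl → ¬ Tangent H ε t₀ w γ := by
  have hne : Cl.Nonempty :=
    ⟨_, subset_closure (show (⟨fun x : unitInterval => ((x : ℝ) : ℂ), by fun_prop⟩ :
      C(unitInterval, ℂ)) ∈ {γ : C(unitInterval, ℂ) | Function.Injective γ} from by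
        intro x y hxy
        exact Subtype.ext (Complex.ofReal_injective hxy))⟩
  have h5 := freq h1 h2 h3 h4 mI bI μ hH hH1 hμ Cl isClosed_closure hne
    (QF.pos hc mI bI μ hH hH1 hv hμ) (ep := fun k => min (ε k) 1)
    (fun k => lt_min (hε k) one_pos) (fun k => min_le_right _ _) (by
      have := hε0.min (tendsto_const_nhds (x := (1 : ℝ)))
      rwa [min_eq_left zero_le_one] at this)
  obtain ⟨N, hN⟩ := eventually_atTop.1 (hε0.eventually (eventually_lt_nhds (zero_lt_one' ℝ)))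
  filter_upwards [h5] with w hw t₀ γ h0 ht hγ
  obtain ⟨m, hm⟩ := hw
  refine no_tangent hε hε0 h0 ht hγ m fun n => ?_
  obtain ⟨k, hk⟩ := hm (max n N)
  have e1 : min (ε (max n N + k)) 1 = ε (max n N + k) :=
    min_eq_left (hN _ ((le_max_right n N).trans (Nat.le_add_right _ _))).le
  simp only [e1] at hk
  refine ⟨max n N - n + k, ?_⟩
  have e2 : n + (max n N - n + k) = max n N + k := by
    have := le_max_left n N
    omega
  rw [e2]
  exact hk

end Pool.Agent.H994.FQ.QT
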