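import Pool.Agent.H994.BM.Stm5
import Mathlib

/-!
Uniqueness of the law of the planar fractional Brownian motion (Q3).
-/

set_option autoImplicit false

open MeasureTheory ProbabilityTheory Filter Topology
open scoped NNReal ENNReal unitInterval

namespace Pool.Agent.H994.FQ

namespace QU

/-- the value of a functional on the finite dimensional space -/
theorem fun_eq {J : Type} [Fintype J] [DecidableEq J] (L : StrongDual ℝ (J → ℝ)) (x : J → ℝ) :
    L x = ∑ j, L (fun k => if j = k then 1 else 0) * x j := by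
  have h := LinearMap.pi_apply_eq_sum_univ (L : (J → ℝ) →ₗ[ℝ] ℝ) x
  have h' : L x = ∑ j, x j • L (fun k => if j = k then 1 else 0) := h
  rw [h']
  exact Finset.sum_congr rfl fun j _ => by rw [smul_eq_mul, mul_comm]

/-- the characteristic function of a centred Gaussian vector -/
theorem char_eq {Ω : Type} [MeasurableSpace Ω] {P : Measure Ω} {J : Type} [Fintype J]
    [DecidableEq J] (X : J → Ω → ℝ) (hX : ∀ j, MemLp (X j) 2 P) (hm : ∀ j, Measurable (X j))
    (h0 : ∀ j, ∫ ω, X j ω ∂P = 0) (hG : IsGaussian (P.map (fun ω j => X j ω)))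
    (hP : IsFiniteMeasure P)
    (L : StrongDual ℝ (J → ℝ)) : charFunDual (P.map (fun ω j => X j ω)) L =
      Complex.exp (-((∑ i, ∑ j, L (fun k => if i = k then 1 else 0) *
        L (fun k => if j = k then 1 else 0) * ∫ ω, X i ω * X j ω ∂P : ℝ) : ℂ) / 2) := by
  have hmeas : Measurable (fun ω j => X j ω) := measurable_pi_lambda _ hm
  have hLm : Measurable (fun x : J → ℝ => L x) := L.continuous.measurable
  have hint : ∀ j, Integrable (X j) P := fun j => (hX j).integrable (by norm_num)
  have hmean : ∫ ω, L (fun j => X j ω) ∂P = 0 := by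
    have e0 : ∀ ω, L (fun j => X j ω) = ∑ j, L (fun k => if j = k then 1 else 0) * X j ω :=
      fun ω => fun_eq L _
    simp_rw [e0]
    rw [integral_finsetSum _ fun j _ => (hint j).const_mul _]
    refine Finset.sum_eq_zero fun j _ => ?_
    rw [integral_const_mul, h0 j, mul_zero]
  have hmean' : ∫ x, L x ∂(P.map (fun ω j => X j ω)) = 0 := by
    rw [integral_map hmeas.aemeasurable hLm.aestronglyMeasurable]
    exact hmean
  have hsq : ∫ ω, (L (fun j => X j ω)) ^ 2 ∂P = ∑ i, ∑ j, L (fun k => if i = k then 1 else 0) *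
        L (fun k => if j = k then 1 else 0) * ∫ ω, X i ω * X j ω ∂P := by
    have e1 : ∀ ω, (L (fun j => X j ω)) ^ 2 = ∑ i, ∑ j, (L (fun k => if i = k then 1 else 0) *
        L (fun k => if j = k then 1 else 0)) * (X i ω * X j ω) := by
      intro ω
      rw [fun_eq L, sq, Finset.sum_mul_sum]
      refine Finset.sum_congr rfl fun i _ => Finset.sum_congr rfl fun j _ => ?_
      ring
    have hij : ∀ i j, Integrable (fun ω => X i ω * X j ω) P := fun i j =>
      (hX i).integrable_mul (hX j)
    simp_rw [e1]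
    rw [integral_finsetSum _ fun i _ => integrable_finsetSum _ fun j _ => (hij i j).const_mul _]
    refine Finset.sum_congr rfl fun i _ => ?_
    rw [integral_finsetSum _ fun j _ => (hij i j).const_mul _]
    exact Finset.sum_congr rfl fun j _ => integral_const_mul _ _
  have hmeanC : ∫ x, ((L x : ℝ) : ℂ) ∂(P.map (fun ω j => X j ω)) = 0 := by
    rw [integral_complex_ofReal, hmean', Complex.ofReal_zero]
  rw [IsGaussian.charFunDual_eq, hmeanC,
    variance_map hLm.aemeasurable hmeas.aemeasurable,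
    variance_of_integral_eq_zero (hLm.comp hmeas).aemeasurable hmean]
  have e2 : ∫ ω, ((fun x : J → ℝ => L x) ∘ fun ω j => X j ω) ω ^ 2 ∂P =
      ∫ ω, (L (fun j => X j ω)) ^ 2 ∂P := rfl
  rw [e2, hsq]
  congr 1
  push_cast
  ring

theorem meas_Z [MeasurableSpace C(I, ℂ)] [BorelSpace C(I, ℂ)] (i : I × Bool) :
    Measurable (Z i) := by
  have h : Continuous (fun γ : C(I, ℂ) => γ i.1) := by fun_prop
  obtain ⟨t, b⟩ := i
  cases b
  · exact (Complex.continuous_re.comp h).measurable
  · exact (Complex.continuous_im.comp h).measurable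

end QU

open QU in
theorem t_uniq (h1 : S_borel) (h2 : S_cov) : S_uniq := by
  classical
  intro m hm H v μ μ' hμ hμ'
  obtain ⟨g1, l1, z1, a1, b1, c1⟩ := h2 m hm H v μ hμ
  obtain ⟨g2, l2, z2, a2, b2, c2⟩ := h2 m hm H v μ' hμ'
  have hP1 : IsProbabilityMeasure μ := g1.isProbabilityMeasure
  have hP2 : IsProbabilityMeasure μ' := g2.isProbabilityMeasure
  have hcov : ∀ i j, ∫ γ, Z i γ * Z j γ ∂μ = ∫ γ, Z i γ * Z j γ ∂μ' := by
    rintro ⟨s, b⟩ ⟨t, b'⟩
    cases b <;> cases b'
    · rw [b1, b2]
    · rw [a1, a2]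
    · simp_rw [mul_comm (Z (s, true) _)]
      rw [a1, a2]
    · rw [c1, c2]
  have hfin : ∀ J : Finset (I × Bool), μ.map (fun γ => J.restrict (Z · γ)) =
      μ'.map (fun γ => J.restrict (Z · γ)) := by
    intro J
    have G1 : IsGaussian (μ.map (fun γ (j : J) => Z (j : I × Bool) γ)) :=
      (g1.hasGaussianLaw J).isGaussian_map
    have G2 : IsGaussian (μ'.map (fun γ (j : J) => Z (j : I × Bool) γ)) :=
      (g2.hasGaussianLaw J).isGaussian_map
    show μ.map (fun γ (j : J) => Z (j : I × Bool) γ) = μ'.map (fun γ (j : J) => Z (j : I × Bool) γ)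
    refine Measure.ext_of_charFunDual ?_
    funext L
    rw [char_eq (fun (j : J) => Z (j : I × Bool)) (fun j => l1 _) (fun j => meas_Z _) (fun j => z1 _)
        G1 inferInstance L,
      char_eq (fun (j : J) => Z (j : I × Bool)) (fun j => l2 _) (fun j => meas_Z _) (fun j => z2 _)
        G2 inferInstance L]
    simp_rw [hcov]
  have hZm : Measurable (fun (γ : C(I, ℂ)) (i : I × Bool) => Z i γ) :=
    measurable_pi_lambda _ meas_Z
  have hlim1 := isProjectiveLimit_map (X := Z) (P := μ) hZm.aemeasurable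
  have hlim2 := isProjectiveLimit_map (X := Z) (P := μ') hZm.aemeasurable
  have hfam : (fun J : Finset (I × Bool) => μ.map (fun γ => J.restrict (Z · γ))) =
      fun J => μ'.map (fun γ => J.restrict (Z · γ)) := funext hfin
  have hlaw : μ.map (fun (γ : C(I, ℂ)) (i : I × Bool) => Z i γ) =
      μ'.map (fun (γ : C(I, ℂ)) (i : I × Bool) => Z i γ) := by
    rw [hfam] at hlim1
    exact hlim1.unique hlim2
  refine Measure.ext fun A hA => ?_
  have hA' : MeasurableSet[MeasurableSpace.comap (fun (γ : C(I, ℂ)) (t : I) => γ t)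
      MeasurableSpace.pi] A := by
    rw [← h1 m hm]
    exact hA
  obtain ⟨B, hB, hBA⟩ := hA'
  let Ψ : (I × Bool → ℝ) → (I → ℂ) := fun w t => ⟨w (t, false), w (t, true)⟩
  have hΨ : Measurable Ψ := by
    refine measurable_pi_lambda _ fun t => ?_
    have e : (fun w : I × Bool → ℝ => Ψ w t) =
        fun w => (w (t, false) : ℂ) + (w (t, true) : ℂ) * Complex.I := by
      funext w
      apply Complex.ext <;> simp [Ψ]
    rw [e]
    fun_prop
  have hcomp : A = (fun (γ : C(I, ℂ)) (i : I × Bool) => Z i γ) ⁻¹' (Ψ ⁻¹' B) := by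
    rw [← hBA]
    ext γ
    have e : Ψ (fun i => Z i γ) = fun t => γ t := by
      funext t
      apply Complex.ext <;> simp [Ψ, Z]
    show (fun t => γ t) ∈ B ↔ Ψ (fun i => Z i γ) ∈ B
    rw [e]
  rw [hcomp, ← Measure.map_apply hZm (hΨ hB), ← Measure.map_apply hZm (hΨ hB), hlaw]

end Pool.Agent.H994.FQ
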