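import Pool.Agent.H994.BM.Stm5

set_option autoImplicit false

open MeasureTheory ProbabilityTheory Filter Topology
open scoped NNReal ENNReal unitInterval

namespace Pool.Agent.H994.FQ

open Pool.Agent.H986.EV (ev seg)

namespace QZ

/-- finite sets of positive times -/
abbrev FT : Type := {F : Finset I // ∀ t ∈ F, 0 < t}

/-- the sigma-algebra -/
@[instance_reducible]
noncomputable def mF (F : FT) : MeasurableSpace C(I, ℂ) :=
  MeasurableSpace.comap (fun (γ : C(I, ℂ)) (t : F.1) => γ (t : I)) MeasurableSpace.pi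

theorem mF_mono {F F' : FT} (h : F.1 ⊆ F'.1) : mF F ≤ mF F' := by
  have e : (fun (γ : C(I, ℂ)) (t : F.1) => γ (t : I)) =
      (fun (x : F'.1 → ℂ) (t : F.1) => x ⟨t, h t.2⟩) ∘
        (fun (γ : C(I, ℂ)) (t : F'.1) => γ (t : I)) := rfl
  unfold mF
  rw [e, ← MeasurableSpace.comap_comp]
  apply MeasurableSpace.comap_mono
  exact (measurable_pi_lambda _ fun t => measurable_pi_apply _).comap_le

theorem eval_pos (t : I) (ht : 0 < t) : Measurable[⨆ F, mF F] (fun γ : C(I, ℂ) => γ t) := by
  have h1 : Measurable[mF ⟨{t}, by simpa using ht⟩] (fun γ : C(I, ℂ) => γ t) := by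
    have h2 : Measurable[mF ⟨{t}, by simpa using ht⟩]
        (fun (γ : C(I, ℂ)) (s : ({t} : Finset I)) => γ (s : I)) := comap_measurable _
    exact (measurable_pi_apply (⟨t, Finset.mem_singleton_self t⟩ : ({t} : Finset I))).comp h2
  exact h1.mono (le_iSup mF _) le_rfl

theorem eval_all (t : I) : Measurable[⨆ F, mF F] (fun γ : C(I, ℂ) => γ t) := by
  by_cases ht : 0 < t
  · exact eval_pos t ht
  · have h0 : t = 0 := le_antisymm (not_lt.1 ht) t.2.1
    let u : ℕ → I := fun n => ⟨1 / ((n : ℝ) + 1), by positivity, by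
      rw [div_le_one (by positivity)]
      linarith [n.cast_nonneg (α := ℝ)]⟩
    have hu : Tendsto u atTop (𝓝 0) := by
      rw [tendsto_subtype_rng]
      exact tendsto_one_div_add_atTop_nhds_zero_nat
    have hpos : ∀ n, 0 < u n := fun n => by
      show (0 : ℝ) < 1 / ((n : ℝ) + 1)
      positivity
    refine @measurable_of_tendsto_metrizable C(I, ℂ) ℂ (⨆ F, mF F) _ _ _ _
      (fun n γ => γ (u n)) _ (fun n => eval_pos _ (hpos n)) ?_
    rw [tendsto_pi_nhds]
    intro γ
    rw [h0]
    exact (γ.continuous.tendsto 0).comp hu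

end QZ

open QZ in
theorem t_zo (h1 : S_borel) (h2 : S_indep) : S_zo := by
  intro mE bE H v μ h0 hH hF B hB hinv
  have hG := hF.gauss
  have hle : ∀ F, mF F ≤ mE := by
    intro F
    refine Measurable.comap_le (measurable_pi_lambda _ fun t => ?_)
    have hc : Continuous fun γ : C(I, ℂ) => γ (t : I) := by fun_prop
    exact hc.measurable
  have hgen : mE ≤ ⨆ F, mF F := by
    rw [h1 mE bE]
    exact (@measurable_pi_lambda C(I, ℂ) I (fun _ => ℂ) (⨆ F, mF F) _ _ fun t =>
      eval_all t).comap_le
  have hi : ∀ F, Indep (mF F) (MeasurableSpace.generateFrom {B}) μ := by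
    intro F
    obtain ⟨Φ, hΦ, hs, hind⟩ := h2 mE bE H v μ h0 hH hF F.1 F.2
    have hB2 : Φ ⁻¹' B = B := by
      ext γ
      constructor
      · intro h
        have h3 := hinv (Φ γ) (γ - Φ γ) ?_ h
        · rwa [add_sub_cancel] at h3
        · refine (hs γ).congr fun s => ?_
          have e : ev (γ - Φ γ) s = -ev (Φ γ - γ) s := by
            show (γ - Φ γ) _ = -((Φ γ - γ) _)
            simp
          rw [e, norm_neg]
      · intro h
        have h3 := hinv γ (Φ γ - γ) (hs γ) h
        rwa [add_sub_cancel] at h3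
    refine indep_of_indep_of_le_right (hind.symm) ?_
    apply MeasurableSpace.generateFrom_le
    intro t ht
    rw [Set.mem_singleton_iff.1 ht]
    exact ⟨B, hB, hB2⟩
  have hdir : Directed (· ≤ ·) mF := by
    intro F F'
    classical
    refine ⟨⟨F.1 ∪ F'.1, fun t ht => ?_⟩, mF_mono Finset.subset_union_left,
      mF_mono Finset.subset_union_right⟩
    rcases Finset.mem_union.1 ht with h | h
    · exact F.2 t h
    · exact F'.2 t h
  have hBm : MeasurableSpace.generateFrom {B} ≤ mE :=
    MeasurableSpace.generateFrom_le fun t ht => by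
      rw [Set.mem_singleton_iff.1 ht]
      exact hB
  have hsup := indep_iSup_of_directed_le hi hle hBm hdir
  have h3 := (Indep_iff _ _ μ).1 hsup B B (hgen B hB)
    (MeasurableSpace.measurableSet_generateFrom rfl)
  rw [Set.inter_self] at h3
  exact measure_eq_zero_or_one_of_indepSet_self ((indepSet_iff_measure_inter_eq_mul hB hB μ).2
    (by rw [Set.inter_self]; exact h3))

end Pool.Agent.H994.FQ
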