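import Pool.Agent.H994.BM.Stm

/-!
Crossing configurations under a change of time.
-/

set_option autoImplicit false

open MeasureTheory ProbabilityTheory Filter Topology
open scoped NNReal ENNReal unitInterval

namespace Pool.Agent.H994.BM

open Pool.Agent.H986.EV (ev splice ev_of_mem)

namespace Rep

/-- intermediate values -/
theorem ex_one (τ : C(I, ℝ≥0)) {x : ℝ} (h0 : (τ 0 : ℝ) ≤ x) (h1 : x ≤ (τ 1 : ℝ)) :
    ∃ s : I, (τ s : ℝ) = x := by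
  have hc : Continuous fun s : I => (τ s : ℝ) := NNReal.continuous_coe.comp τ.continuous
  obtain ⟨s, hs⟩ := mem_range_of_exists_le_of_exists_ge hc ⟨0, h0⟩ ⟨1, h1⟩
  exact ⟨s, hs⟩

/-- intermediate values in the right order -/
theorem ex_two (τ : C(I, ℝ≥0)) (hτ : Monotone τ) {x y : ℝ} (h0 : (τ 0 : ℝ) ≤ x) (hxy : x ≤ y)
    (h1 : y ≤ (τ 1 : ℝ)) : ∃ s t : I, s ≤ t ∧ (τ s : ℝ) = x ∧ (τ t : ℝ) = y := by
  obtain ⟨s, hs⟩ := ex_one τ h0 (hxy.trans h1)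
  rcases eq_or_lt_of_le hxy with h | h
  · exact ⟨s, s, le_refl _, hs, hs.trans h⟩
  · obtain ⟨t, ht⟩ := ex_one τ (h0.trans hxy) h1
    refine ⟨s, t, ?_, hs, ht⟩
    by_contra h2
    have h3 : τ t ≤ τ s := hτ (le_of_not_ge h2)
    have h4 : (τ t : ℝ) ≤ τ s := by exact_mod_cast h3
    rw [hs, ht] at h4
    linarith

/-- the values of the curve -/
theorem val (w : C(ℝ≥0, ℂ)) (τ : C(I, ℝ≥0)) (s : I) :
    ev (w.comp τ) s = (fun x : ℝ => w x.toNNReal) (τ s : ℝ) := by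
  rw [ev_of_mem _ s.2]
  show w (τ s) = w (Real.toNNReal (τ s : ℝ))
  rw [Real.toNNReal_coe]

end Rep

open Pool.Agent.H994.BM.Rep in
theorem t_reparam : S_reparam := by
  intro w hw τ hτ h01
  have huv : (τ 0 : ℝ) < τ 1 := by exact_mod_cast h01
  obtain ⟨a, b, c, d, h1, h2, h3, h4, h5, p1, p2, p3, p4⟩ := hw (τ 0) (τ 1) (NNReal.coe_nonneg _) huv
  obtain ⟨a', b', hab, ha, hb⟩ := ex_two τ hτ h1 h2 ((h3.le.trans h4).trans h5)
  obtain ⟨c', d', hcd, hc, hd⟩ := ex_two τ hτ (h1.trans (h2.trans h3.le)) h4 h5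
  have hbc : b' < c' := by
    by_contra h
    have h6 : τ c' ≤ τ b' := hτ (not_lt.1 h)
    have h7 : (τ c' : ℝ) ≤ τ b' := by exact_mod_cast h6
    rw [hb, hc] at h7
    linarith
  -- the points of `[s, t]`
  have key : ∀ s t : I, ∀ x : ℝ, x ∈ Set.Icc (s : ℝ) t → ∃ y ∈ Set.Icc (τ s : ℝ) (τ t),
      ev (w.comp τ) x = (fun x : ℝ => w x.toNNReal) y := by
    intro s t x hx
    have hxI : x ∈ Set.Icc (0 : ℝ) 1 := ⟨s.2.1.trans hx.1, hx.2.trans t.2.2⟩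
    refine ⟨(τ ⟨x, hxI⟩ : ℝ), ⟨?_, ?_⟩, val w τ ⟨x, hxI⟩⟩
    · have h6 : τ s ≤ τ ⟨x, hxI⟩ := hτ hx.1
      exact_mod_cast h6
    · have h6 : τ ⟨x, hxI⟩ ≤ τ t := hτ hx.2
      exact_mod_cast h6
  refine ⟨a', b', c', d', a'.2.1, hab, hbc, hcd, d'.2.2, ?_, ?_, ?_, ?_⟩
  · intro t ht
    obtain ⟨y, hy, e⟩ := key c' d' t ht
    rw [hc, hd] at hy
    rw [e, val, ha]
    exact p1 y hy
  · intro t ht
    obtain ⟨y, hy, e⟩ := key c' d' t ht
    rw [hc, hd] at hy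
    rw [e, val, hb]
    exact p2 y hy
  · intro t ht
    obtain ⟨y, hy, e⟩ := key a' b' t ht
    rw [ha, hb] at hy
    rw [e, val, hc]
    exact p3 y hy
  · intro t ht
    obtain ⟨y, hy, e⟩ := key a' b' t ht
    rw [ha, hb] at hy
    rw [e, val, hd]
    exact p4 y hy

end Pool.Agent.H994.BM
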