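import Pool.Agent.H986.EV.Meas
import Mathlib

/-!
Planar Brownian motion and crossing configurations: definitions and the statements of the parts
(MP_46f0ca_pr).
-/

set_option autoImplicit false

open MeasureTheory ProbabilityTheory Filter Topology
open scoped NNReal ENNReal unitInterval

namespace Pool.Agent.H994.BM

open Pool.Agent.H986.EV (ev splice)

/-- The curve `w` crosses itself in `[u, v]`: there are `a ≤ b < c ≤ d` in `[u, v]` such that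
`w` on `[a, b]` goes from the left to the right of everything visited in `[c, d]`, and on `[c, d]`
from above to below of everything visited in `[a, b]`. -/
def Cr (w : ℝ → ℂ) (u v : ℝ) : Prop :=
  ∃ a b c d : ℝ, u ≤ a ∧ a ≤ b ∧ b < c ∧ c ≤ d ∧ d ≤ v ∧
    (∀ t ∈ Set.Icc c d, (w a).re < (w t).re) ∧ (∀ t ∈ Set.Icc c d, (w t).re < (w b).re) ∧
    (∀ s ∈ Set.Icc a b, (w s).im < (w c).im) ∧ (∀ s ∈ Set.Icc a b, (w d).im < (w s).im)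

/-- `X + i Y` is a planar Brownian motion. -/
structure IsPlanarBM {Ω : Type} [MeasurableSpace Ω] (X Y : ℝ≥0 → Ω → ℝ) (P : Measure Ω) :
    Prop where
  brX : IsBrownianReal X P
  brY : IsBrownianReal Y P
  mX : ∀ t, Measurable (X t)
  mY : ∀ t, Measurable (Y t)
  indep : IndepFun (fun ω t => X t ω) (fun ω t => Y t ω) P

/-- the path as a function on `ℝ` (constant for negative times) -/
noncomputable def pth (f g : ℝ≥0 → ℝ) (x : ℝ) : ℂ := f x.toNNReal + g x.toNNReal * Complex.I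

/-- `Cr` for `f + i g`, with rational times and a rational margin -/
def CrQ (f g : ℝ≥0 → ℝ) (u v : ℝ≥0) : Prop :=
  ∃ a b c d δ : ℚ≥0, 0 < δ ∧ u ≤ (a : ℝ≥0) ∧ a ≤ b ∧ b < c ∧ c ≤ d ∧ (d : ℝ≥0) ≤ v ∧
    (∀ t : ℚ≥0, c ≤ t → t ≤ d → f a + δ ≤ f t ∧ f t + δ ≤ f b) ∧
    (∀ s : ℚ≥0, a ≤ s → s ≤ b → g s + δ ≤ g c ∧ g d + δ ≤ g s)

/-- L1 -/
def S_closure : Prop := ∀ ζ : C(I, ℂ), Cr (ev ζ) 0 1 →
  ζ ∉ closure {γ : C(I, ℂ) | Function.Injective γ}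

/-- L2 -/
def S_reparam : Prop := ∀ w : C(ℝ≥0, ℂ),
  (∀ u v : ℝ, 0 ≤ u → u < v → Cr (fun x => w x.toNNReal) u v) →
  ∀ τ : C(I, ℝ≥0), Monotone τ → τ 0 < τ 1 → Cr (ev (w.comp τ)) 0 1

/-- L3 -/
def S_homeo : Prop := ∀ (h : ℂ ≃ₜ ℂ) (ζ : C(I, ℂ)),
  ((⟨h, h.continuous⟩ : C(ℂ, ℂ)).comp ζ) ∈ closure {γ : C(I, ℂ) | Function.Injective γ} →
  ζ ∈ closure {γ : C(I, ℂ) | Function.Injective γ}

/-- L4 -/
def S_crQ : Prop := ∀ (f g : ℝ≥0 → ℝ), Continuous f → Continuous g → ∀ u v : ℝ≥0,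
  (CrQ f g u v ↔ Cr (pth f g) u v)

/-- L4' -/
def S_meas : Prop := ∀ u v : ℝ≥0,
  MeasurableSet {p : (ℝ≥0 → ℝ) × (ℝ≥0 → ℝ) | CrQ p.1 p.2 u v}

/-- L5 -/
def S_inv : Prop := ∀ (Ω : Type) (_ : MeasurableSpace Ω) (P : Measure Ω) (X Y : ℝ≥0 → Ω → ℝ),
  IsPlanarBM X Y P →
    IsPlanarBM (fun t ω => - Y t ω) X P ∧ IsPlanarBM X (fun t ω => - Y t ω) P ∧
    (∀ c : ℝ≥0, c ≠ 0 → IsPlanarBM (fun t ω => (√(c : ℝ))⁻¹ * X (c * t) ω)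
      (fun t ω => (√(c : ℝ))⁻¹ * Y (c * t) ω) P) ∧
    (∀ t₀ : ℝ≥0, IsPlanarBM (fun t ω => X (t₀ + t) ω - X t₀ ω)
      (fun t ω => Y (t₀ + t) ω - Y t₀ ω) P)

/-- L6 -/
def S_law : Prop := ∀ (Ω : Type) (_ : MeasurableSpace Ω) (P : Measure Ω) (X Y : ℝ≥0 → Ω → ℝ)
  (Ω' : Type) (_ : MeasurableSpace Ω') (P' : Measure Ω') (X' Y' : ℝ≥0 → Ω' → ℝ),
  IsPlanarBM X Y P → IsPlanarBM X' Y' P' →
  ∀ A : Set ((ℝ≥0 → ℝ) × (ℝ≥0 → ℝ)), MeasurableSet A →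
    P {ω | (fun t => X t ω, fun t => Y t ω) ∈ A} = P' {ω | (fun t => X' t ω, fun t => Y' t ω) ∈ A}

/-- L7 -/
def S_markov : Prop := ∀ (Ω : Type) (_ : MeasurableSpace Ω) (P : Measure Ω)
  (X Y : ℝ≥0 → Ω → ℝ), IsPlanarBM X Y P → ∀ t₀ : ℝ≥0,
  ∀ A : Set ((Set.Iic t₀ → ℝ) × (Set.Iic t₀ → ℝ)), MeasurableSet A →
  ∀ B : Set ((ℝ≥0 → ℝ) × (ℝ≥0 → ℝ)), MeasurableSet B →
    P ({ω | (fun t : Set.Iic t₀ => X t ω, fun t : Set.Iic t₀ => Y t ω) ∈ A} ∩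
      {ω | (fun t => X (t₀ + t) ω - X t₀ ω, fun t => Y (t₀ + t) ω - Y t₀ ω) ∈ B}) =
    P {ω | (fun t : Set.Iic t₀ => X t ω, fun t : Set.Iic t₀ => Y t ω) ∈ A} *
      P {ω | (fun t => X (t₀ + t) ω - X t₀ ω, fun t => Y (t₀ + t) ω - Y t₀ ω) ∈ B}

/-- L8: a set of curves started at `0`, stable under the symmetries of the square and under
splicing, which is not reduced to `0`, contains a curve all whose neighbours cross themselves. -/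
def S_core : Prop := ∀ S : Set C(I, ℂ), (∀ γ ∈ S, γ 0 = 0) →
  (∀ γ ∈ S, Complex.I • γ ∈ S) → (∀ γ ∈ S, star γ ∈ S) →
  (∀ τ ∈ Set.Ioo (0 : ℝ) 1, ∀ γ ∈ S, ∀ γ' ∈ S, splice τ γ γ' ∈ S) →
  ∀ η ∈ S, η ≠ 0 → ∃ Z ∈ S, ∃ ε : ℝ, 0 < ε ∧ ∀ ξ : C(I, ℂ), ‖ξ - Z‖ < ε → Cr (ev ξ) 0 1

/-- L9: planar Brownian motion crosses itself in `[0, 1]` with positive probability -/
def S_pos : Prop := ∀ (Ω : Type) (_ : MeasurableSpace Ω) (P : Measure Ω) (X Y : ℝ≥0 → Ω → ℝ),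
  IsPlanarBM X Y P → 0 < P {ω | CrQ (fun t => X t ω) (fun t => Y t ω) 0 1}

/-- L10: almost surely it crosses itself in all intervals -/
def S_as : Prop := ∀ (Ω : Type) (_ : MeasurableSpace Ω) (P : Measure Ω) (X Y : ℝ≥0 → Ω → ℝ),
  IsPlanarBM X Y P → ∀ᵐ ω ∂P, Continuous (fun t => X t ω) ∧ Continuous (fun t => Y t ω) ∧
    ∀ u v : ℝ, 0 ≤ u → u < v → Cr (pth (fun t => X t ω) (fun t => Y t ω)) u v

end Pool.Agent.H994.BM
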