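import Pool.Agent.H986.EV.Meas
import Mathlib

/-!
Gaussian scaling limits are degenerate: statements of the parts (MP_46f0ca_pr).
-/

set_option autoImplicit false

open MeasureTheory ProbabilityTheory Filter Topology
open scoped NNReal ENNReal unitInterval

namespace Pool.Agent.H994.GL

open Pool.Agent.H986.EV (ev)

/-- the strands `[a, b]` and `[c, d]` of the curve `w` are in crossing position: the difference
`w t - w s` turns once around `0` when `(s, t)` runs through the boundary of `[a, b] × [c, d]` -/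
def Xc (w : ℝ → ℂ) (a b c d : ℝ) : Prop :=
  (∀ t ∈ Set.Icc c d, (w a).re < (w t).re ∨ (w t).im < (w a).im) ∧
  (∀ s ∈ Set.Icc a b, (w s).re < (w c).re ∨ (w s).im < (w c).im) ∧
  (∀ t ∈ Set.Icc c d, (w t).re < (w b).re ∨ (w b).im < (w t).im) ∧
  (∀ s ∈ Set.Icc a b, (w d).re < (w s).re ∨ (w d).im < (w s).im)

/-- G1: the crossing lemma -/
def S_x : Prop := ∀ w : ℝ → ℂ, Continuous w → ∀ a b c d : ℝ, a ≤ b → c ≤ d → Xc w a b c d →
  ∃ s ∈ Set.Icc a b, ∃ t ∈ Set.Icc c d, w s = w t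

/-- G2: stability -/
def S_xclosure : Prop := ∀ ζ : C(I, ℂ), ∀ a b c d : ℝ, 0 ≤ a → a ≤ b → b < c → c ≤ d → d ≤ 1 →
  Xc (ev ζ) a b c d → ζ ∉ closure {γ : C(I, ℂ) | Function.Injective γ}

/-- G3: two real functions -/
def S_pattern : Prop := ∀ f : ℝ → ℝ, Continuous f → ∀ t₁ t₂ t₃ t₄ : ℝ, t₁ < t₂ → t₂ < t₃ →
  t₃ < t₄ → f t₁ = f t₄ → f t₂ = f t₃ → f t₁ ≠ f t₂ →
  ∃ a b c d : ℝ, t₁ ≤ a ∧ a < b ∧ b ≤ t₂ ∧ t₃ ≤ c ∧ c < d ∧ d ≤ t₄ ∧
    ∀ g : ℝ → ℝ, Continuous g → (g d - g a) * (g c - g b) < 0 →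
      ∃ e e' : ℝ, (e = 1 ∨ e = -1) ∧ (e' = 1 ∨ e' = -1) ∧
        Xc (fun x => ((e * f x : ℝ) : ℂ) + ((e' * g x : ℝ) : ℂ) * Complex.I) a b c d

/-- the curve `f + i g` -/
noncomputable def cv (f g : C(I, ℝ)) : C(I, ℂ) :=
  ⟨fun x => (f x : ℂ) + (g x : ℂ) * Complex.I, by fun_prop⟩

/-- G4: a linear space of curves without crossings has linearly dependent increments in every
interval -/
def S_lin : Prop := ∀ T : Submodule ℝ C(I, ℝ),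
  (∀ f ∈ T, ∀ g ∈ T, cv f g ∈ closure {γ : C(I, ℂ) | Function.Injective γ}) →
  ∀ u v : I, u < v → ∃ a b c d : I, u ≤ a ∧ a < b ∧ b < c ∧ c < d ∧ d ≤ v ∧
    ∃ α β δ : ℝ, (α, β, δ) ≠ (0, 0, 0) ∧
      ∀ f ∈ T, α * (f b - f a) + β * (f c - f b) + δ * (f d - f c) = 0

/-- G5: the support of a symmetric law carried by the limits of simple curves -/
def S_supp : Prop := ∀ (_ : MeasurableSpace C(I, ℂ)) (_ : BorelSpace C(I, ℂ))
  (ν : Measure C(I, ℂ)) (_ : IsProbabilityMeasure ν),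
  (∀ γ ∈ ν.support, Complex.I • γ ∈ ν.support) → (∀ γ ∈ ν.support, star γ ∈ ν.support) →
  (∀ γ ∈ ν.support, ∀ γ' ∈ ν.support, ∀ c c' : ℝ, c • γ + c' • γ' ∈ ν.support) →
  ν (closure {γ : C(I, ℂ) | Function.Injective γ})ᶜ = 0 →
  ∀ u v : I, u < v → ∃ a b c d : I, u ≤ a ∧ a < b ∧ b < c ∧ c < d ∧ d ≤ v ∧
    ∃ α β δ : ℝ, (α, β, δ) ≠ (0, 0, 0) ∧
      ∀ᵐ γ ∂ν, (α : ℂ) * (γ b - γ a) + (β : ℂ) * (γ c - γ b) + (δ : ℂ) * (γ d - γ c) = 0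

/-- G6: the support of a centred Gaussian measure is a linear space -/
def S_gauss : Prop := ∀ (_ : MeasurableSpace C(I, ℂ)) (_ : BorelSpace C(I, ℂ))
  (ν : Measure C(I, ℂ)) (_ : IsGaussian ν), ν.map (fun γ => Complex.I • γ) = ν →
  ∀ γ ∈ ν.support, ∀ γ' ∈ ν.support, ∀ c c' : ℝ, c • γ + c' • γ' ∈ ν.support

end Pool.Agent.H994.GL
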