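import Pool.Agent.H994.BM.Stm2

/-!
Deformations of curves (MP_46f0ca_pr).
-/

set_option autoImplicit false

open MeasureTheory ProbabilityTheory Filter Topology
open scoped NNReal ENNReal unitInterval

namespace Pool.Agent.H994.GL

/-- G7: if a deformation of a curve (homeomorphism of the plane, continuous monotone surjective
clock, forwards or backwards) is a limit of injective curves, so is the curve. -/
def S_back : Prop := ∀ (G Γ : C(I, ℂ)) (h : ℂ ≃ₜ ℂ) (τ : C(I, I)),
  (Monotone τ ∨ Antitone τ) → Function.Surjective τ → (∀ x, Γ x = h (G (τ x))) →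
  Γ ∈ closure {γ : C(I, ℂ) | Function.Injective γ} →
  G ∈ closure {γ : C(I, ℂ) | Function.Injective γ}

end Pool.Agent.H994.GL
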