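import Mathlib

/-!
Strict conditional negative definiteness of `|t - s| ^ p`: statements of the parts (MP_46f0ca_pr).
-/

set_option autoImplicit false

open MeasureTheory

namespace Pool.Agent.H994.FB

/-- F1: the integral representation of `|u| ^ p` -/
def S_kint : Prop := ∀ p : ℝ, 0 < p → p < 2 → ∃ C : ℝ, 0 < C ∧ ∀ u : ℝ,
  IntegrableOn (fun x : ℝ => (1 - Real.cos (u * x)) * x ^ (-1 - p)) (Set.Ioi 0) ∧
  ∫ x in Set.Ioi (0 : ℝ), (1 - Real.cos (u * x)) * x ^ (-1 - p) = C * |u| ^ p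

/-- F2: a nontrivial trigonometric polynomial does not vanish on the half line -/
def S_trig : Prop := ∀ (n : ℕ) (t c : Fin n → ℝ), Function.Injective t → c ≠ 0 →
  ∃ x : ℝ, 0 < x ∧
    0 < (∑ j, c j * Real.cos (t j * x)) ^ 2 + (∑ j, c j * Real.sin (t j * x)) ^ 2

/-- F3: the kernel `|t - s| ^ p`, `0 < p < 2`, is strictly conditionally negative definite -/
def S_cnd : Prop := ∀ (n : ℕ) (t c : Fin n → ℝ) (p : ℝ), 0 < p → p < 2 → Function.Injective t →
  c ≠ 0 → ∑ i, c i = 0 → ∑ i, ∑ j, c i * c j * |t i - t j| ^ p < 0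

end Pool.Agent.H994.FB
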