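import Pool.Agent.H986.EV.Meas
import Pool.Agent.H994.BM.Stm4
import Mathlib

/-!
Planar fractional Brownian motion: a closed cone of curves which is stable under cutting the curve
at the start has measure `0` or `1`; definitions and the statements of the parts (MP_46f0ca_pr).
-/

set_option autoImplicit false

open MeasureTheory ProbabilityTheory Filter Topology
open scoped NNReal ENNReal unitInterval

namespace Pool.Agent.H994.FQ

open Pool.Agent.H986.EV (ev seg)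

/-- the covariance of the fractional Brownian motion, `p = 2 H` -/
noncomputable def R (p s t : ℝ) : ℝ := (s ^ p + t ^ p - |s - t| ^ p) / 2

/-- the law of a planar fractional Brownian motion with Hurst index `H` and variance `v` -/
structure IsF [MeasurableSpace C(I, ℂ)] (H v : ℝ) (μ : Measure C(I, ℂ)) : Prop where
  gauss : IsGaussian μ
  rot : μ.map (fun γ => Complex.I • γ) = μ
  conj : μ.map (fun γ => star γ) = μ
  cov : ∀ s t : I, ∫ γ, (γ s).re * (γ t).re ∂μ = v * R (2 * H) s t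

/-- the coordinates of a curve -/
noncomputable def Z (i : I × Bool) (γ : C(I, ℂ)) : ℝ := if i.2 then (γ i.1).im else (γ i.1).re

/-- Q1: the Borel sets of `C([0,1], ℂ)` are generated by the evaluations -/
def S_borel : Prop := ∀ (m : MeasurableSpace C(I, ℂ)) (_ : BorelSpace C(I, ℂ)),
  m = MeasurableSpace.comap (fun (γ : C(I, ℂ)) (t : I) => γ t) MeasurableSpace.pi

/-- Q2: the coordinates are a centred Gaussian process with the expected covariances -/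
def S_cov : Prop := ∀ (_ : MeasurableSpace C(I, ℂ)) (_ : BorelSpace C(I, ℂ)) (H v : ℝ)
  (μ : Measure C(I, ℂ)), IsF H v μ →
  IsGaussianProcess Z μ ∧ (∀ i, MemLp (Z i) 2 μ) ∧ (∀ i, ∫ γ, Z i γ ∂μ = 0) ∧
  (∀ s t, ∫ γ, Z (s, false) γ * Z (t, true) γ ∂μ = 0) ∧
  (∀ s t : I, ∫ γ, Z (s, false) γ * Z (t, false) γ ∂μ = v * R (2 * H) s t) ∧
  (∀ s t : I, ∫ γ, Z (s, true) γ * Z (t, true) γ ∂μ = v * R (2 * H) s t)

/-- Q3: uniqueness -/
def S_uniq : Prop := ∀ (_ : MeasurableSpace C(I, ℂ)) (_ : BorelSpace C(I, ℂ)) (H v : ℝ)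
  (μ μ' : Measure C(I, ℂ)), IsF H v μ → IsF H v μ' → μ = μ'

/-- Q4: stationary increments and self-similarity -/
def S_seg : Prop := ∀ (_ : MeasurableSpace C(I, ℂ)) (_ : BorelSpace C(I, ℂ)) (H v : ℝ)
  (μ : Measure C(I, ℂ)), 0 < H → IsF H v μ →
  ∀ a b : ℝ, 0 ≤ a → a < b → b ≤ 1 → IsF H (v * (b - a) ^ (2 * H)) (μ.map (seg a b))

/-- Q4': scaling -/
def S_smul : Prop := ∀ (_ : MeasurableSpace C(I, ℂ)) (_ : BorelSpace C(I, ℂ)) (H v c : ℝ)
  (μ : Measure C(I, ℂ)), IsF H v μ → IsF H (c ^ 2 * v) (μ.map (fun γ => c • γ))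

/-- Q5: the covariance with a fixed time is small at `0` -/
def S_small : Prop := ∀ H : ℝ, 0 < H → H < 1 → ∀ t : ℝ, 0 < t →
  Tendsto (fun s : ℝ => R (2 * H) t s / s ^ H) (𝓝[>] 0) (𝓝 0)

/-- Q6: regression on finitely many times -/
def S_reg : Prop := ∀ H : ℝ, 0 < H → H < 1 → ∀ (ι : Type) (_ : Fintype ι) (t : ι → ℝ),
  Function.Injective t → (∀ i, 0 < t i) → ∃ a : ι → ι → ℝ, ∀ (s : ℝ) (i : ι),
    R (2 * H) (t i) s = ∑ j, (∑ k, a j k * R (2 * H) (t k) s) * R (2 * H) (t j) (t i)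

/-- Q7: up to a curve which is small at the time `0`, the path is independent of its values at
finitely many positive times -/
def S_indep : Prop := ∀ (_ : MeasurableSpace C(I, ℂ)) (_ : BorelSpace C(I, ℂ)) (H v : ℝ)
  (μ : Measure C(I, ℂ)), 0 < H → H < 1 → IsF H v μ →
  ∀ F : Finset I, (∀ t ∈ F, 0 < t) → ∃ Φ : C(I, ℂ) → C(I, ℂ), Measurable Φ ∧
    (∀ γ, Tendsto (fun s : ℝ => ‖ev (Φ γ - γ) s‖ / s ^ H) (𝓝[>] 0) (𝓝 0)) ∧
    IndepFun Φ (fun (γ : C(I, ℂ)) (t : F) => γ (t : I)) μ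

/-- Q8: a zero-one law at the start -/
def S_zo : Prop := ∀ (_ : MeasurableSpace C(I, ℂ)) (_ : BorelSpace C(I, ℂ)) (H v : ℝ)
  (μ : Measure C(I, ℂ)), 0 < H → H < 1 → IsF H v μ →
  ∀ B : Set C(I, ℂ), MeasurableSet B →
    (∀ γ h : C(I, ℂ), Tendsto (fun s : ℝ => ‖ev h s‖ / s ^ H) (𝓝[>] 0) (𝓝 0) → γ ∈ B →
      γ + h ∈ B) → μ B = 0 ∨ μ B = 1

/-- Q9: closed cones of curves, stable under cutting at the start -/
def S_null : Prop := ∀ (_ : MeasurableSpace C(I, ℂ)) (_ : BorelSpace C(I, ℂ)) (H v : ℝ)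
  (μ : Measure C(I, ℂ)), 0 < H → H < 1 → IsF H v μ →
  ∀ A : Set C(I, ℂ), IsClosed A → (∀ γ ∈ A, ∀ c : ℝ, 0 < c → c • γ ∈ A) →
    (∀ γ ∈ A, ∀ ε : ℝ, 0 < ε → ε ≤ 1 → seg 0 ε γ ∈ A) → μ Aᶜ ≠ 0 → μ A = 0

end Pool.Agent.H994.FQ
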