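import Pool.Agent.H994.BM.Stm

/-!
Part `Zer` (MP_46f0ca_pr): almost surely planar Brownian motion crosses itself in every interval.
-/

set_option autoImplicit false

open MeasureTheory ProbabilityTheory Filter Topology
open scoped NNReal ENNReal unitInterval

namespace Pool.Agent.H994.BM

namespace Zer

/-- `Cr` under a positive affine change of time and a positive similarity -/
theorem cr_affine_mp {w w' : ℝ → ℂ} {u v t0 c s : ℝ} {z : ℂ} (hc : 0 < c) (hs : 0 < s)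
    (h : ∀ x ∈ Set.Icc u v, w' x = (s : ℂ) * (w (t0 + c * x) - z)) (hw : Cr w' u v) :
    Cr w (t0 + c * u) (t0 + c * v) := by
  obtain ⟨a, b, e, d, hua, hab, hbe, hed, hdv, h1, h2, h3, h4⟩ := hw
  have hre : ∀ x ∈ Set.Icc u v, (w' x).re = s * ((w (t0 + c * x)).re - z.re) := by
    intro x hx
    rw [h x hx, Complex.re_ofReal_mul, Complex.sub_re]
  have him : ∀ x ∈ Set.Icc u v, (w' x).im = s * ((w (t0 + c * x)).im - z.im) := by
    intro x hx
    rw [h x hx, Complex.im_ofReal_mul, Complex.sub_im]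
  have key : ∀ p q t : ℝ, t ∈ Set.Icc (t0 + c * p) (t0 + c * q) →
      ∃ t' ∈ Set.Icc p q, t = t0 + c * t' := by
    intro p q t ht
    refine ⟨(t - t0) / c, ⟨?_, ?_⟩, ?_⟩
    · rw [le_div_iff₀ hc]
      have := ht.1
      linarith [mul_comm c p]
    · rw [div_le_iff₀ hc]
      have := ht.2
      linarith [mul_comm c q]
    · field_simp
      ring
  refine ⟨t0 + c * a, t0 + c * b, t0 + c * e, t0 + c * d, ?_, ?_, ?_, ?_, ?_, ?_, ?_, ?_, ?_⟩
  · have := mul_le_mul_of_nonneg_left hua hc.le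
    linarith
  · have := mul_le_mul_of_nonneg_left hab hc.le
    linarith
  · have := mul_lt_mul_of_pos_left hbe hc
    linarith
  · have := mul_le_mul_of_nonneg_left hed hc.le
    linarith
  · have := mul_le_mul_of_nonneg_left hdv hc.le
    linarith
  · intro t ht
    obtain ⟨t', ht', rfl⟩ := key e d t ht
    have := h1 t' ht'
    rw [hre a ⟨hua, by linarith⟩, hre t' ⟨by linarith [ht'.1], by linarith [ht'.2]⟩] at this
    have := lt_of_mul_lt_mul_left this hs.le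
    linarith
  · intro t ht
    obtain ⟨t', ht', rfl⟩ := key e d t ht
    have := h2 t' ht'
    rw [hre b ⟨by linarith, by linarith⟩, hre t' ⟨by linarith [ht'.1], by linarith [ht'.2]⟩] at this
    have := lt_of_mul_lt_mul_left this hs.le
    linarith
  · intro t ht
    obtain ⟨t', ht', rfl⟩ := key a b t ht
    have := h3 t' ht'
    rw [him e ⟨by linarith, by linarith⟩, him t' ⟨by linarith [ht'.1], by linarith [ht'.2]⟩] at this
    have := lt_of_mul_lt_mul_left this hs.le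
    linarith
  · intro t ht
    obtain ⟨t', ht', rfl⟩ := key a b t ht
    have := h4 t' ht'
    rw [him d ⟨by linarith, by linarith⟩, him t' ⟨by linarith [ht'.1], by linarith [ht'.2]⟩] at this
    have := lt_of_mul_lt_mul_left this hs.le
    linarith

theorem cr_affine {w w' : ℝ → ℂ} {u v t0 c s : ℝ} {z : ℂ} (hc : 0 < c) (hs : 0 < s)
    (h : ∀ x ∈ Set.Icc u v, w' x = (s : ℂ) * (w (t0 + c * x) - z)) :
    Cr w' u v ↔ Cr w (t0 + c * u) (t0 + c * v) := by
  refine ⟨cr_affine_mp hc hs h, fun hw => ?_⟩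
  have hc' : 0 < c⁻¹ := inv_pos.2 hc
  have hs' : 0 < s⁻¹ := inv_pos.2 hs
  have hsC : (s : ℂ) ≠ 0 := by exact_mod_cast hs.ne'
  have h' : ∀ y ∈ Set.Icc (t0 + c * u) (t0 + c * v),
      w y = ((s⁻¹ : ℝ) : ℂ) * (w' (-(t0 / c) + c⁻¹ * y) - (-(s * z))) := by
    intro y hy
    have e1 : t0 + c * (-(t0 / c) + c⁻¹ * y) = y := by
      field_simp
      ring
    have hmem : (-(t0 / c) + c⁻¹ * y) ∈ Set.Icc u v := by
      have e2 : c * (-(t0 / c) + c⁻¹ * y) = y - t0 := by linarith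
      constructor
      · by_contra hcon
        push Not at hcon
        have := mul_lt_mul_of_pos_left hcon hc
        linarith [hy.1]
      · by_contra hcon
        push Not at hcon
        have := mul_lt_mul_of_pos_left hcon hc
        linarith [hy.2]
    rw [h _ hmem, e1]
    push_cast
    field_simp
    ring
  have := cr_affine_mp hc' hs' h' hw
  have e3 : -(t0 / c) + c⁻¹ * (t0 + c * u) = u := by
    field_simp
    ring
  have e4 : -(t0 / c) + c⁻¹ * (t0 + c * v) = v := by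
    field_simp
    ring
  rwa [e3, e4] at this

theorem cr_mono {w : ℝ → ℂ} {u v u' v' : ℝ} (hu : u' ≤ u) (hv : v ≤ v') (h : Cr w u v) :
    Cr w u' v' := by
  obtain ⟨a, b, e, d, hua, hab, hbe, hed, hdv, h1, h2, h3, h4⟩ := h
  exact ⟨a, b, e, d, hu.trans hua, hab, hbe, hed, hdv.trans hv, h1, h2, h3, h4⟩

/-- the path of the shifted and rescaled pair crosses in `[0, 1]` iff the path crosses in
`[t₀, t₀ + c]` -/
theorem cr_pth (f g : ℝ≥0 → ℝ) (t₀ c : ℝ≥0) (hc : c ≠ 0) :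
    Cr (pth (fun t => (√(c : ℝ))⁻¹ * (f (t₀ + c * t) - f t₀))
      (fun t => (√(c : ℝ))⁻¹ * (g (t₀ + c * t) - g t₀))) 0 1 ↔
      Cr (pth f g) (t₀ : ℝ) ((t₀ + c : ℝ≥0) : ℝ) := by
  have hc0 : (0 : ℝ) < c := NNReal.coe_pos.2 (pos_iff_ne_zero.2 hc)
  have hs : 0 < (√(c : ℝ))⁻¹ := inv_pos.2 (Real.sqrt_pos.2 hc0)
  have := cr_affine (w := pth f g) (w' := pth (fun t => (√(c : ℝ))⁻¹ * (f (t₀ + c * t) - f t₀))
      (fun t => (√(c : ℝ))⁻¹ * (g (t₀ + c * t) - g t₀))) (u := 0) (v := 1) (t0 := (t₀ : ℝ))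
      (c := (c : ℝ)) (s := (√(c : ℝ))⁻¹) (z := (f t₀ : ℂ) + g t₀ * Complex.I) hc0 hs (by
        intro x hx
        have e : ((t₀ : ℝ) + c * x).toNNReal = t₀ + c * x.toNNReal := by
          apply NNReal.coe_injective
          rw [NNReal.coe_add, NNReal.coe_mul, Real.coe_toNNReal x hx.1]
          exact Real.coe_toNNReal _ (add_nonneg t₀.2 (mul_nonneg c.2 hx.1))
        unfold pth
        rw [e]
        push_cast
        ring)
  rw [this]
  simp

/-- the extension of a path given up to time `1` by a constant -/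
noncomputable def ext (φ : Set.Iic (1 : ℝ≥0) → ℝ) (t : ℝ≥0) : ℝ :=
  φ ⟨min t 1, Set.mem_Iic.2 (min_le_right _ _)⟩

theorem cr_ext (f g : ℝ≥0 → ℝ) :
    Cr (pth (ext fun t : Set.Iic (1 : ℝ≥0) => f t) (ext fun t : Set.Iic (1 : ℝ≥0) => g t)) 0 1 ↔
      Cr (pth f g) 0 1 := by
  have := cr_affine (w := pth f g)
    (w' := pth (ext fun t : Set.Iic (1 : ℝ≥0) => f t) (ext fun t : Set.Iic (1 : ℝ≥0) => g t))
    (u := 0) (v := 1) (t0 := 0) (c := 1) (s := 1) (z := 0) one_pos one_pos (by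
      intro x hx
      have e : min x.toNNReal 1 = x.toNNReal := by
        apply min_eq_left
        rw [← NNReal.coe_le_coe, Real.coe_toNNReal _ hx.1]
        exact hx.2
      unfold pth ext
      simp only [e]
      simp)
  rw [this]
  simp

theorem measurable_ext : Measurable (fun p : (Set.Iic (1 : ℝ≥0) → ℝ) × (Set.Iic (1 : ℝ≥0) → ℝ) =>
    (ext p.1, ext p.2)) := by
  apply Measurable.prodMk
  · refine measurable_pi_lambda _ fun t => ?_
    exact (measurable_pi_apply _).comp measurable_fst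
  · refine measurable_pi_lambda _ fun t => ?_
    exact (measurable_pi_apply _).comp measurable_snd

theorem continuous_ext {f : ℝ≥0 → ℝ} (hf : Continuous f) :
    Continuous (ext fun t : Set.Iic (1 : ℝ≥0) => f t) := by
  unfold ext
  exact hf.comp (continuous_id.min continuous_const)

section

variable {Ω : Type} [MeasurableSpace Ω] {P : Measure Ω} {X Y : ℝ≥0 → Ω → ℝ}

theorem isProb (h : IsPlanarBM X Y P) : IsProbabilityMeasure P :=
  h.brX.isGaussianProcess.isProbabilityMeasure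

theorem meas_pair (h : IsPlanarBM X Y P) :
    Measurable (fun ω => ((fun t => X t ω), (fun t => Y t ω))) :=
  (measurable_pi_lambda _ h.mX).prodMk (measurable_pi_lambda _ h.mY)

theorem ae_cont (h : IsPlanarBM X Y P) :
    ∀ᵐ ω ∂P, Continuous (fun t => X t ω) ∧ Continuous (fun t => Y t ω) := by
  filter_upwards [h.brX.cont, h.brY.cont] with ω h1 h2
  exact ⟨h1, h2⟩

/-- the probability of not crossing in `[t₀, t₀ + c]` does not depend on `t₀`, `c` -/
theorem not_cr_eq (hQ : S_crQ) (hM : S_meas) (hI : S_inv) (hL : S_law) (h : IsPlanarBM X Y P)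
    (t₀ c : ℝ≥0) (hc : c ≠ 0) :
    P {ω | ¬ Cr (pth (fun t => X t ω) (fun t => Y t ω)) (t₀ : ℝ) ((t₀ + c : ℝ≥0) : ℝ)} =
      P {ω | ¬ CrQ (fun t => X t ω) (fun t => Y t ω) 0 1} := by
  have h1 := (hI Ω _ P X Y h).2.2.2 t₀
  have h2 := (hI Ω _ P _ _ h1).2.2.1 c hc
  have h3 := hL Ω _ P _ _ Ω _ P X Y h2 h {p | ¬ CrQ p.1 p.2 0 1} (hM 0 1).compl
  refine Eq.trans ?_ h3
  apply measure_congr
  filter_upwards [ae_cont h] with ω hω
  have hcX : Continuous (fun t => (√(c : ℝ))⁻¹ * (X (t₀ + c * t) ω - X t₀ ω)) := by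
    have := hω.1.comp (continuous_const.add (continuous_const.mul continuous_id) :
      Continuous fun t : ℝ≥0 => t₀ + c * t)
    exact continuous_const.mul (this.sub continuous_const)
  have hcY : Continuous (fun t => (√(c : ℝ))⁻¹ * (Y (t₀ + c * t) ω - Y t₀ ω)) := by
    have := hω.2.comp (continuous_const.add (continuous_const.mul continuous_id) :
      Continuous fun t : ℝ≥0 => t₀ + c * t)
    exact continuous_const.mul (this.sub continuous_const)
  have e1 := hQ _ _ hcX hcY 0 1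
  have e2 := cr_pth (fun t => X t ω) (fun t => Y t ω) t₀ c hc
  apply propext
  change (¬ Cr (pth (fun t => X t ω) (fun t => Y t ω)) (t₀ : ℝ) ((t₀ + c : ℝ≥0) : ℝ)) ↔
    ¬ CrQ (fun t => (√(c : ℝ))⁻¹ * (X (t₀ + c * t) ω - X t₀ ω))
      (fun t => (√(c : ℝ))⁻¹ * (Y (t₀ + c * t) ω - Y t₀ ω)) 0 1
  rw [e1, NNReal.coe_zero, NNReal.coe_one, e2]

theorem q_le (hQ : S_crQ) (hM : S_meas) (hI : S_inv) (hL : S_law) (hK : S_markov)
    (h : IsPlanarBM X Y P) :
    P {ω | ¬ CrQ (fun t => X t ω) (fun t => Y t ω) 0 1} ≤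
      P {ω | ¬ CrQ (fun t => X t ω) (fun t => Y t ω) 0 1} *
        P {ω | ¬ CrQ (fun t => X t ω) (fun t => Y t ω) 0 1} := by
  have h1 := (hI Ω _ P X Y h).2.2.2 1
  have h3 := hL Ω _ P _ _ Ω _ P X Y h1 h {p | ¬ CrQ p.1 p.2 0 1} (hM 0 1).compl
  have hA : MeasurableSet {p : (Set.Iic (1 : ℝ≥0) → ℝ) × (Set.Iic (1 : ℝ≥0) → ℝ) |
      ¬ CrQ (ext p.1) (ext p.2) 0 1} := measurable_ext (hM 0 1).compl
  have hm := hK Ω _ P X Y h 1 _ hA {p | ¬ CrQ p.1 p.2 0 1} (hM 0 1).compl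
  have hAe : ∀ᵐ ω ∂P, ((¬ CrQ (ext fun t : Set.Iic (1 : ℝ≥0) => X t ω)
      (ext fun t : Set.Iic (1 : ℝ≥0) => Y t ω) 0 1) ↔
        ¬ CrQ (fun t => X t ω) (fun t => Y t ω) 0 1) := by
    filter_upwards [ae_cont h] with ω hω
    rw [hQ _ _ (continuous_ext hω.1) (continuous_ext hω.2) 0 1, hQ _ _ hω.1 hω.2 0 1,
      NNReal.coe_zero, NNReal.coe_one, cr_ext (fun t => X t ω) (fun t => Y t ω)]
  have e1 : P {ω | (fun t : Set.Iic (1 : ℝ≥0) => X t ω, fun t : Set.Iic (1 : ℝ≥0) => Y t ω) ∈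
      {p : (Set.Iic (1 : ℝ≥0) → ℝ) × (Set.Iic (1 : ℝ≥0) → ℝ) |
      ¬ CrQ (ext p.1) (ext p.2) 0 1}} = P {ω | ¬ CrQ (fun t => X t ω) (fun t => Y t ω) 0 1} := by
    apply measure_congr
    filter_upwards [hAe] with ω hω
    exact propext hω
  rw [e1] at hm
  rw [show P {ω | (fun t => X (1 + t) ω - X 1 ω, fun t => Y (1 + t) ω - Y 1 ω) ∈
    {p : (ℝ≥0 → ℝ) × (ℝ≥0 → ℝ) | ¬ CrQ p.1 p.2 0 1}} =
      P {ω | ¬ CrQ (fun t => X t ω) (fun t => Y t ω) 0 1} from h3] at hm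
  rw [← hm]
  have e0 := not_cr_eq hQ hM hI hL h 0 2 two_ne_zero
  rw [← e0]
  apply measure_mono_ae
  filter_upwards [ae_cont h, hAe] with ω hω hω2 hn
  have hn' : ¬ Cr (pth (fun t => X t ω) (fun t => Y t ω)) ((0 : ℝ≥0) : ℝ) ((0 + 2 : ℝ≥0) : ℝ) := hn
  refine ⟨?_, ?_⟩
  · refine hω2.2 ?_
    intro hcr
    rw [hQ _ _ hω.1 hω.2 0 1] at hcr
    apply hn'
    refine cr_mono (le_refl _) ?_ hcr
    rw [NNReal.coe_le_coe]
    norm_num
  · change ¬ CrQ (fun t => X (1 + t) ω - X 1 ω) (fun t => Y (1 + t) ω - Y 1 ω) 0 1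
    intro hcr
    have hcX : Continuous (fun t => X (1 + t) ω - X 1 ω) :=
      (hω.1.comp (continuous_const.add continuous_id :
        Continuous fun t : ℝ≥0 => 1 + t)).sub continuous_const
    have hcY : Continuous (fun t => Y (1 + t) ω - Y 1 ω) :=
      (hω.2.comp (continuous_const.add continuous_id :
        Continuous fun t : ℝ≥0 => 1 + t)).sub continuous_const
    rw [hQ _ _ hcX hcY 0 1] at hcr
    have e2 := cr_pth (fun t => X t ω) (fun t => Y t ω) 1 1 one_ne_zero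
    simp only [NNReal.coe_one, Real.sqrt_one, inv_one, one_mul] at e2
    rw [NNReal.coe_zero, NNReal.coe_one] at hcr
    apply hn'
    refine cr_mono ?_ ?_ (e2.1 hcr)
    · simp
    · rw [NNReal.coe_le_coe]
      norm_num

theorem q_zero (hQ : S_crQ) (hM : S_meas) (hI : S_inv) (hL : S_law) (hK : S_markov) (hp : S_pos)
    (h : IsPlanarBM X Y P) : P {ω | ¬ CrQ (fun t => X t ω) (fun t => Y t ω) 0 1} = 0 := by
  have := isProb h
  have hle := q_le hQ hM hI hL hK h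
  have hpos := hp Ω _ P X Y h
  have hmeas : MeasurableSet {ω | CrQ (fun t => X t ω) (fun t => Y t ω) 0 1} :=
    meas_pair h (hM 0 1)
  have hlt : P {ω | ¬ CrQ (fun t => X t ω) (fun t => Y t ω) 0 1} < 1 := by
    have hc : {ω | ¬ CrQ (fun t => X t ω) (fun t => Y t ω) 0 1} =
        {ω | CrQ (fun t => X t ω) (fun t => Y t ω) 0 1}ᶜ := rfl
    rw [hc, prob_compl_eq_one_sub hmeas]
    exact ENNReal.sub_lt_self ENNReal.one_ne_top one_ne_zero hpos.ne'
  by_contra hne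
  have h2 := ENNReal.mul_lt_mul_right hne (ne_top_of_lt hlt) hlt
  rw [mul_one] at h2
  exact absurd hle (not_le.2 h2)

end

end Zer

open Zer in
theorem t_as (hQ : S_crQ) (hM : S_meas) (hI : S_inv) (hL : S_law) (hK : S_markov) (hp : S_pos) :
    S_as := by
  intro Ω _ P X Y h
  have hz : ∀ (r c : ℚ≥0), c ≠ 0 → ∀ᵐ ω ∂P,
      Cr (pth (fun t => X t ω) (fun t => Y t ω)) ((r : ℝ≥0) : ℝ) (((r : ℝ≥0) + (c : ℝ≥0) : ℝ≥0) : ℝ) := by
    intro r c hc
    have hc' : (c : ℝ≥0) ≠ 0 := by exact_mod_cast hc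
    have := (not_cr_eq hQ hM hI hL h (r : ℝ≥0) (c : ℝ≥0) hc').trans
      (q_zero hQ hM hI hL hK hp h)
    rw [ae_iff]
    exact this
  have hz' : ∀ᵐ ω ∂P, ∀ (r c : ℚ≥0), c ≠ 0 →
      Cr (pth (fun t => X t ω) (fun t => Y t ω)) ((r : ℝ≥0) : ℝ) (((r : ℝ≥0) + (c : ℝ≥0) : ℝ≥0) : ℝ) := by
    rw [ae_all_iff]
    intro r
    rw [ae_all_iff]
    intro c
    by_cases hc : c = 0
    · exact Filter.Eventually.of_forall fun ω hcon => absurd hc hcon
    · filter_upwards [hz r c hc] with ω hω _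
      exact hω
  filter_upwards [ae_cont h, hz'] with ω hω hcr
  refine ⟨hω.1, hω.2, ?_⟩
  intro u v hu huv
  obtain ⟨r, hur, hrv⟩ := exists_rat_btwn huv
  obtain ⟨s, hrs, hsv⟩ := exists_rat_btwn hrv
  have hr0 : (0 : ℚ) ≤ r := by
    have : (0 : ℝ) ≤ r := hu.trans hur.le
    exact_mod_cast this
  have hrs' : r < s := by exact_mod_cast hrs
  have hsr : (0 : ℚ) ≤ s - r := by linarith
  obtain ⟨R, hR⟩ : ∃ R : ℚ≥0, (R : ℚ) = r := ⟨⟨r, hr0⟩, rfl⟩
  obtain ⟨D, hD⟩ : ∃ D : ℚ≥0, (D : ℚ) = s - r := ⟨⟨s - r, hsr⟩, rfl⟩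
  have := hcr R D (by
    intro hcon
    rw [hcon] at hD
    have h0 : (0 : ℚ) = s - r := hD
    linarith)
  have e : ((R : ℝ≥0) : ℝ) = (r : ℝ) := by
    rw [← hR]
    rfl
  have e' : ((D : ℝ≥0) : ℝ) = ((s - r : ℚ) : ℝ) := by
    rw [← hD]
    rfl
  refine cr_mono ?_ ?_ this
  · rw [e]
    exact hur.le
  · rw [NNReal.coe_add, e, e']
    have e2 : ((s - r : ℚ) : ℝ) = s - r := by push_cast; ring
    linarith

end Pool.Agent.H994.BM
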